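import Pool.Agent.Mg.Fd7736fq.G6690aa

set_option linter.all false

namespace Pool.Agent.MP_d7736f_co.TB

theorem chk40 : chk true false false false false false = true := by decide +kernel

theorem chk41 : chk true false false false false true = true := by decide +kernel

theorem chk42 : chk true false false false true false = true := by decide +kernel

theorem chk43 : chk true false false false true true = true := by decide +kernel

theorem chk44 : chk true false false true false false = true := by decide +kernel

theorem chk45 : chk true false false true false true = true := by decide +kernel

theorem chk46 : chk true false false true true false = true := by decide +kernel

theorem chk47 : chk true false false true true true = true := by decide +kernel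

theorem chk4 (d e f : Bool) : chk true false false d e f = true := by
  cases d <;> cases e <;> cases f
  exacts [chk40, chk41, chk42, chk43, chk44, chk45, chk46, chk47]

end Pool.Agent.MP_d7736f_co.TB
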