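import Pool.Agent.Mg.Fd7736fq.G6690aa

set_option linter.all false

namespace Pool.Agent.MP_d7736f_co.TB

theorem chk20 : chk false true false false false false = true := by decide +kernel

theorem chk21 : chk false true false false false true = true := by decide +kernel

theorem chk22 : chk false true false false true false = true := by decide +kernel

theorem chk23 : chk false true false false true true = true := by decide +kernel

theorem chk24 : chk false true false true false false = true := by decide +kernel

theorem chk25 : chk false true false true false true = true := by decide +kernel

theorem chk26 : chk false true false true true false = true := by decide +kernel

theorem chk27 : chk false true false true true true = true := by decide +kernel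

theorem chk2 (d e f : Bool) : chk false true false d e f = true := by
  cases d <;> cases e <;> cases f
  exacts [chk20, chk21, chk22, chk23, chk24, chk25, chk26, chk27]

end Pool.Agent.MP_d7736f_co.TB
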