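import Pool.Agent.Mg.Fd7736fq.G0738fe

set_option linter.all false

namespace Pool.Agent.MP_d7736f_co.LB

theorem chk30 : chk false true true false false false = true := by decide +kernel

theorem chk31 : chk false true true false false true = true := by decide +kernel

theorem chk32 : chk false true true false true false = true := by decide +kernel

theorem chk33 : chk false true true false true true = true := by decide +kernel

theorem chk34 : chk false true true true false false = true := by decide +kernel

theorem chk35 : chk false true true true false true = true := by decide +kernel

theorem chk36 : chk false true true true true false = true := by decide +kernel

theorem chk37 : chk false true true true true true = true := by decide +kernel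

theorem chk3 (d e f : Bool) : chk false true true d e f = true := by
  cases d <;> cases e <;> cases f
  exacts [chk30, chk31, chk32, chk33, chk34, chk35, chk36, chk37]

end Pool.Agent.MP_d7736f_co.LB
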