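import Pool.Agent.Mg.Fd7736fq.G0738fe

set_option linter.all false

namespace Pool.Agent.MP_d7736f_co.LB

theorem chk00 : chk false false false false false false = true := by decide +kernel

theorem chk01 : chk false false false false false true = true := by decide +kernel

theorem chk02 : chk false false false false true false = true := by decide +kernel

theorem chk03 : chk false false false false true true = true := by decide +kernel

theorem chk04 : chk false false false true false false = true := by decide +kernel

theorem chk05 : chk false false false true false true = true := by decide +kernel

theorem chk06 : chk false false false true true false = true := by decide +kernel

theorem chk07 : chk false false false true true true = true := by decide +kernel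

theorem chk0 (d e f : Bool) : chk false false false d e f = true := by
  cases d <;> cases e <;> cases f
  exacts [chk00, chk01, chk02, chk03, chk04, chk05, chk06, chk07]

end Pool.Agent.MP_d7736f_co.LB
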