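import Pool.Agent.Mg.Fd7736fq.G0738fe

set_option linter.all false

namespace Pool.Agent.MP_d7736f_co.LB

theorem chk10 : chk false false true false false false = true := by decide +kernel

theorem chk11 : chk false false true false false true = true := by decide +kernel

theorem chk12 : chk false false true false true false = true := by decide +kernel

theorem chk13 : chk false false true false true true = true := by decide +kernel

theorem chk14 : chk false false true true false false = true := by decide +kernel

theorem chk15 : chk false false true true false true = true := by decide +kernel

theorem chk16 : chk false false true true true false = true := by decide +kernel

theorem chk17 : chk false false true true true true = true := by decide +kernel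

theorem chk1 (d e f : Bool) : chk false false true d e f = true := by
  cases d <;> cases e <;> cases f
  exacts [chk10, chk11, chk12, chk13, chk14, chk15, chk16, chk17]

end Pool.Agent.MP_d7736f_co.LB
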