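import Pool.Agent.Mg.Fd7736fq.G0738fe

set_option linter.all false

namespace Pool.Agent.MP_d7736f_co.LB

theorem chk50 : chk true false true false false false = true := by decide +kernel

theorem chk51 : chk true false true false false true = true := by decide +kernel

theorem chk52 : chk true false true false true false = true := by decide +kernel

theorem chk53 : chk true false true false true true = true := by decide +kernel

theorem chk54 : chk true false true true false false = true := by decide +kernel

theorem chk55 : chk true false true true false true = true := by decide +kernel

theorem chk56 : chk true false true true true false = true := by decide +kernel

theorem chk57 : chk true false true true true true = true := by decide +kernel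

theorem chk5 (d e f : Bool) : chk true false true d e f = true := by
  cases d <;> cases e <;> cases f
  exacts [chk50, chk51, chk52, chk53, chk54, chk55, chk56, chk57]

end Pool.Agent.MP_d7736f_co.LB
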