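import Pool.Agent.Mg.Fd7736fq.G0738fe
import Pool.Agent.Mg.Fd7736fq.Gac09b1
import Pool.Agent.Mg.Fd7736fq.Gb6f8b3
import Pool.Agent.Mg.Fd7736fq.G233a42
import Pool.Agent.Mg.Fd7736fq.G8fca4e
import Pool.Agent.Mg.Fd7736fq.G68d702
import Pool.Agent.Mg.Fd7736fq.Ge4a943
import Pool.Agent.Mg.Fd7736fq.G58a474

set_option linter.all false

section

namespace Pool.Agent.MP_d7736f_co.LB

theorem chk70 : chk true true true false false false = true := by decide +kernel

theorem chk71 : chk true true true false false true = true := by decide +kernel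

theorem chk72 : chk true true true false true false = true := by decide +kernel

theorem chk73 : chk true true true false true true = true := by decide +kernel

theorem chk74 : chk true true true true false false = true := by decide +kernel

theorem chk75 : chk true true true true false true = true := by decide +kernel

theorem chk76 : chk true true true true true false = true := by decide +kernel

theorem chk77 : chk true true true true true true = true := by decide +kernel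

theorem chk7 (d e f : Bool) : chk true true true d e f = true := by
  cases d <;> cases e <;> cases f
  exacts [chk70, chk71, chk72, chk73, chk74, chk75, chk76, chk77]

end Pool.Agent.MP_d7736f_co.LB

end

section

/-!
The inequality for five vertices of a model.
-/

namespace Pool.Agent.MP_d7736f_co.LB

theorem chk_all (a b c d e f : Bool) : chk a b c d e f = true := by
  cases a <;> cases b <;> cases c
  exacts [chk0 d e f, chk1 d e f, chk2 d e f, chk3 d e f, chk4' d e f, chk5 d e f, chk6 d e f,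
    chk7 d e f]

/-- The kernel on codes. -/
def inner (c c' : Code) : ℤ := dotI (ix c) (ix c') + dotI (ix c.flip) (ix c'.flip)

/-- The identity or the change of the sheet. -/
def fl (b : Bool) (c : Code) : Code := cond b c.flip c

theorem fl_fl (b b' : Bool) (c : Code) : fl b (fl b' c) = fl (xor b b') c := by
  cases b <;> cases b' <;> simp [fl, Code.flip_flip]

theorem inner_fl (b : Bool) (c c' : Code) : inner (fl b c) c' = inner c (fl b c') := by
  cases b <;> simp [fl, inner, Code.flip_flip, add_comm]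

theorem wt_fl (b : Bool) (c : Code) : (fl b c).wt = c.wt := by
  cases b <;> simp [fl, Code.wt_flip]

theorem r0_fl (b : Bool) (c : Code) : (fl b c).r0 = fl b c.r0 := by
  cases b
  · rfl
  · obtain ⟨s12, s13, s23, o0, o1, o2, o3, d1, e1, d2, e2, d3, e3⟩ := c
    cases s12 <;> cases s13 <;> simp [fl, Code.flip, Code.r0]

theorem r1_fl (b : Bool) (c : Code) : (fl b c).r1 = fl b c.r1 := by
  cases b
  · rfl
  · obtain ⟨s12, s13, s23, o0, o1, o2, o3, d1, e1, d2, e2, d3, e3⟩ := c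
    cases s12 <;> cases s13 <;> simp [fl, Code.flip, Code.r1]

theorem r2_fl (b : Bool) (c : Code) : (fl b c).r2 = fl b c.r2 := by
  cases b
  · rfl
  · obtain ⟨s12, s13, s23, o0, o1, o2, o3, d1, e1, d2, e2, d3, e3⟩ := c
    cases s23 <;> simp [fl, Code.flip, Code.r2]

/-- The number `i` represents the code `c`. -/
def Rep (c : Code) (i : ℕ) : Prop := (i < 124 ∧ L i = c) ∨ (i = 124 ∧ 3 ≤ c.wt)

theorem exists_rep {c : Code} (h : c.rel = true) : ∃ i, Rep c i :=
  (tab6 h).elim (fun h => ⟨124, Or.inr ⟨rfl, h⟩⟩) fun ⟨i, h⟩ => ⟨i, Or.inl h⟩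

namespace Rep

variable {c c' : Code} {i j : ℕ}

theorem ix_eq (h : Rep c i) : ix c = i := by
  rcases h with ⟨h, rfl⟩ | ⟨rfl, h⟩
  · exact (tab2 i h).2.1
  · exact if_pos h

theorem lt (h : Rep c i) : i < 125 := by rcases h with h | h <;> omega

theorem r0 (h : Rep c i) : Rep c.r0 (P0 i) := by
  rcases h with ⟨h, rfl⟩ | ⟨rfl, h⟩
  · exact Or.inl ⟨(tab1 i h).2.1, (tab1 i h).1.symm⟩
  · exact Or.inr ⟨tab3.1, by rwa [Code.wt_r0]⟩

theorem r1 (h : Rep c i) : Rep c.r1 (P1 i) := by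
  rcases h with ⟨h, rfl⟩ | ⟨rfl, h⟩
  · exact Or.inl ⟨(tab1 i h).2.2.2.1, (tab1 i h).2.2.1.symm⟩
  · exact Or.inr ⟨tab3.2.1, by rwa [Code.wt_r1]⟩

theorem r2 (h : Rep c i) : Rep c.r2 (P2 i) := by
  rcases h with ⟨h, rfl⟩ | ⟨rfl, h⟩
  · exact Or.inl ⟨(tab1 i h).2.2.2.2.2.1, (tab1 i h).2.2.2.2.1.symm⟩
  · exact Or.inr ⟨tab3.2.2.1, by rwa [Code.wt_r2]⟩

theorem flip (h : Rep c i) : Rep c.flip (FP i) := by
  rcases h with ⟨h, rfl⟩ | ⟨rfl, h⟩
  · exact Or.inl ⟨(tab1 i h).2.2.2.2.2.2.2, (tab1 i h).2.2.2.2.2.2.1.symm⟩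
  · exact Or.inr ⟨tab3.2.2.2.1, by rwa [Code.wt_flip]⟩

theorem fl (h : Rep c i) (b : Bool) : Rep (fl b c) (cond b (FP i) i) := by
  cases b
  exacts [h, h.flip]

theorem inner_le (h : Rep c i) (h' : Rep c' j) : inner c c' + 2500 * 24000 ≤ 2500 * (Qt i j : ℤ) := by
  rw [inner, h.ix_eq, h'.ix_eq, h.flip.ix_eq, h'.flip.ix_eq]
  exact (tab4 i h.lt j h'.lt).1

theorem wt (h : Rep c i) : Wt i ≤ c.wt := by
  rcases h with ⟨h, rfl⟩ | ⟨rfl, h⟩
  · exact (tab2 i h).1.ge
  · rwa [tab3.2.2.2.2]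

theorem mem (h : Rep c i) :
    (i ≠ 124 ∧ i ∈ opts c.s12 c.s13 c.s23 c.o0 c.o1 c.o2 c.o3) ∨ i = 124 := by
  rcases h with ⟨h, rfl⟩ | ⟨rfl, h⟩
  · exact Or.inl ⟨h.ne, (tab2 i h).2.2⟩
  · exact Or.inr rfl

theorem q_le (h : Rep c i) (h' : Rep c' j) : Qt i j ≤ 51270 := (tab4 i h.lt j h'.lt).2

theorem q_left (h : Rep c i) : Qt 124 i = 24000 := (tab5 i h.lt).2

theorem q_right (h : Rep c i) : Qt i 124 = 24000 := (tab5 i h.lt).1

end Rep

theorem ineq_two {c0 c1 c2 c3 c4 : Code} {i0 i1 i2 i3 i4 : ℕ} (s : Bool) (h0 : Rep c0 i0)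
    (h1 : Rep c1 i1) (h2 : Rep c2 i2) (h3 : Rep c3 i3) (h4 : Rep c4 i4)
    (ht : two (decide (i0 = 124)) (decide (i1 = 124)) (decide (i2 = 124)) (decide (i3 = 124))
      (decide (i4 = 124)) = true) : Ineq s i0 i1 i2 i3 i4 := by
  obtain ⟨p0, p1, p2, p3, p4⟩ := tab3
  have a0 : i0 = 124 → Qt i0 i1 = 24000 ∧ Qt (P2 i0) i2 = 24000 ∧ Qt (P1 i0) i3 = 24000 ∧
      Qt (P0 i0) i4 = 24000 ∧ Wt i0 = 3 := by
    rintro rfl
    rw [p0, p1, p2]
    exact ⟨h1.q_left, h2.q_left, h3.q_left, h4.q_left, p4⟩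
  have a1 : i1 = 124 → Qt i0 i1 = 24000 ∧ Qt (P2 i1) (P2 i2) = 24000 ∧
      Qt (P1 i1) (P2 i3) = 24000 ∧ Qt (P0 i1) (P2 i4) = 24000 ∧ Wt i1 = 3 := by
    rintro rfl
    rw [p0, p1, p2]
    exact ⟨h0.q_right, h2.r2.q_left, h3.r2.q_left, h4.r2.q_left, p4⟩
  have a2 : i2 = 124 → Qt (P2 i0) i2 = 24000 ∧ Qt (P2 i1) (P2 i2) = 24000 ∧
      Qt (P1 i2) (P1 i3) = 24000 ∧ Qt (P0 i2) (P1 i4) = 24000 ∧ Wt i2 = 3 := by
    rintro rfl
    rw [p0, p1, p2]
    exact ⟨h0.r2.q_right, h1.r2.q_right, h3.r1.q_left, h4.r1.q_left, p4⟩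
  have a3 : i3 = 124 → Qt (P1 i0) i3 = 24000 ∧ Qt (P1 i1) (P2 i3) = 24000 ∧
      Qt (P1 i2) (P1 i3) = 24000 ∧ Qt (P0 i3) (cond s (FP (P0 i4)) (P0 i4)) = 24000 ∧
      Wt i3 = 3 := by
    rintro rfl
    rw [p0, p1, p2]
    exact ⟨h0.r1.q_right, h1.r1.q_right, h2.r1.q_right, (h4.r0.fl s).q_left, p4⟩
  have a4 : i4 = 124 → Qt (P0 i0) i4 = 24000 ∧ Qt (P0 i1) (P2 i4) = 24000 ∧
      Qt (P0 i2) (P1 i4) = 24000 ∧ Qt (P0 i3) (cond s (FP (P0 i4)) (P0 i4)) = 24000 ∧
      Wt i4 = 3 := by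
    rintro rfl
    rw [p0, p1, p2, p3, Bool.cond_self]
    exact ⟨h0.r0.q_right, h1.r0.q_right, h2.r0.q_right, h3.r0.q_right, p4⟩
  have b1 := h0.q_le h1
  have b2 := h0.r2.q_le h2
  have b3 := h1.r2.q_le h2.r2
  have b4 := h0.r1.q_le h3
  have b5 := h1.r1.q_le h3.r2
  have b6 := h2.r1.q_le h3.r1
  have b7 := h0.r0.q_le h4
  have b8 := h1.r0.q_le h4.r2
  have b9 := h2.r0.q_le h4.r1
  have b10 := h3.r0.q_le (h4.r0.fl s)
  simp only [Ineq, Wp, Nat.add_eq, Nat.mul_eq]
  by_cases k0 : i0 = 124 <;> by_cases k1 : i1 = 124 <;> by_cases k2 : i2 = 124 <;>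
    by_cases k3 : i3 = 124 <;> by_cases k4 : i4 = 124 <;>
    first
      | omega
      | (exfalso; simp [two, k0, k1, k2, k3, k4] at ht)

theorem cycs_xor {p q r s : Bool} (h : (p, q, r, s) ∈ cycs) (g : Bool) :
    (xor p g, xor q g, xor r g, xor s g) ∈ cycs := by
  revert p q r s g
  decide

/-- Five different elements. -/
def Dist5 {V : Type} (a b c d e : V) : Prop := Dist4 a b c d ∧ a ≠ e ∧ b ≠ e ∧ c ≠ e ∧ d ≠ e

namespace RModel

variable {V : Type} (M : RModel V) {a b c d e : V}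

/-- The kernel for three labelled vertices and two more. -/
noncomputable def G (a b c d e : V) : ℤ := inner (M.code a b c d) (M.code a b c e)

/-- The weight of four vertices. -/
noncomputable def w (a b c d : V) : ℕ := (M.code a b c d).wt

theorem G_le (h : Dist4 a b c d) : M.G a b c d d ≤ 2500 * 27270 := by
  obtain ⟨i, hi⟩ := exists_rep (M.rel h)
  have := hi.inner_le hi
  have := hi.q_le hi
  rw [G]
  omega

theorem local_ineq (h : Dist5 a b c d e) :
    M.G a b c d e + M.G a b d c e + M.G a b e c d + M.G a c d b e + M.G a c e b d +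
      M.G a d e b c + M.G b c d a e + M.G b c e a d + M.G b d e a c + M.G c d e a b +
      2500 * 54577 ≤ 2500 * 40000 *
        (M.w a b c d + M.w a b c e + M.w a b d e + M.w a c d e + M.w b c d e : ℤ) := by
  obtain ⟨⟨h1, h2, h3, h4, h5, h6⟩, h7, h8, h9, h10⟩ := h
  have q0 : Dist4 a b c d := ⟨h1, h2, h3, h4, h5, h6⟩
  have q1 : Dist4 a b c e := ⟨h1, h2, h7, h4, h8, h9⟩
  have q2 : Dist4 a b d e := ⟨h1, h3, h7, h5, h8, h10⟩
  have q3 : Dist4 a c d e := ⟨h2, h3, h7, h6, h9, h10⟩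
  have q4 : Dist4 b c d e := ⟨h4, h5, h8, h6, h9, h10⟩
  obtain ⟨i0, r0⟩ := exists_rep (M.rel q0)
  obtain ⟨i1, r1⟩ := exists_rep (M.rel q1)
  obtain ⟨i2, r2⟩ := exists_rep (M.rel q2)
  obtain ⟨i3, r3⟩ := exists_rep (M.rel q3)
  obtain ⟨j4, r4'⟩ := exists_rep (M.rel q4)
  have r4 := r4'.fl (M.sg a b)
  generalize cond (M.sg a b) (FP j4) j4 = i4 at r4
  have key : Ineq (xor (xor (M.sg b c) (M.sg a b)) (M.sg a c)) i0 i1 i2 i3 i4 := by
    cases ht : two (decide (i0 = 124)) (decide (i1 = 124)) (decide (i2 = 124)) (decide (i3 = 124))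
      (decide (i4 = 124))
    swap
    · exact ineq_two _ r0 r1 r2 r3 r4 ht
    have H := allL_sound (allL_sound (allL_sound (allL_sound (allL_sound
      (chk_all (xor (xor (M.sg b c) (M.sg a b)) (M.sg a c)) (xor (xor (M.sg b d) (M.sg a b)) (M.sg a d))
        (xor (xor (M.sg b e) (M.sg a b)) (M.sg a e)) (xor (xor (M.sg c d) (M.sg a c)) (M.sg a d))
        (xor (xor (M.sg c e) (M.sg a c)) (M.sg a e)) (xor (xor (M.sg d e) (M.sg a d)) (M.sg a e)))
      (M.O_cyc q4 h1 h2 h3 h7)) (cycs_xor (M.O_cyc q3 h1.symm h4 h5 h8) (M.sg a b)))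
      (cycs_xor (M.O_cyc q2 h2.symm h4.symm h6 h9) (M.sg a c)))
      (cycs_xor (M.O_cyc q1 h3.symm h5.symm h6.symm h10) (M.sg a d)))
      (cycs_xor (M.O_cyc q0 h7.symm h8.symm h9.symm h10.symm) (M.sg a e))
    have m0 := r0.mem
    have m1 := r1.mem
    have m2 := r2.mem
    have m3 := r3.mem
    have m4 := r4.mem
    rw [M.code_eq q0] at m0
    rw [M.code_eq q1] at m1
    rw [M.code_eq q2] at m2
    rw [M.code_eq q3] at m3
    rw [M.code_eq q4] at m4
    refine leaf_sound H m0 m1 m2 m3 ?_ ht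
    have x1 : ∀ p q r s t u : Bool, xor (xor (xor (xor p t) u) (xor (xor q s) t)) (xor (xor r s) u) =
      xor (xor p q) r := by decide
    have x2 : ∀ o p s t : Bool, xor (xor o t) (xor (xor p s) t) = xor (xor o p) s := by decide
    simp only [x1, x2]
    revert m4
    cases M.sg a b <;> simp [fl, Code.flip]
  have e7 : M.code b c d a = fl (M.sg a b) (M.code a b c d).r0 := M.code_r0 q0
  have e8 : M.code b c e a = fl (M.sg a b) (M.code a b c e).r0 := M.code_r0 q1
  have e9 : M.code b d e a = fl (M.sg a b) (M.code a b d e).r0 := M.code_r0 q2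
  have e10 : M.code c d e a = fl (M.sg a c) (M.code a c d e).r0 := M.code_r0 q3
  have e11 : M.code c d e b = fl (M.sg b c) (M.code b c d e).r0 := M.code_r0 q4
  have b1 := r0.inner_le r1
  have b2 := r0.r2.inner_le r2
  have b3 := r1.r2.inner_le r2.r2
  have b4 := r0.r1.inner_le r3
  have b5 := r1.r1.inner_le r3.r2
  have b6 := r2.r1.inner_le r3.r1
  have b7 := r0.r0.inner_le r4
  have b8 := r1.r0.inner_le r4.r2
  have b9 := r2.r0.inner_le r4.r1
  have b10 := r3.r0.inner_le (r4.r0.fl (xor (xor (M.sg b c) (M.sg a b)) (M.sg a c)))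
  have w0 := r0.wt
  have w1 := r1.wt
  have w2 := r2.wt
  have w3 := r3.wt
  have w4 := r4.wt
  have x3 : ∀ p s t : Bool, xor (xor (xor p s) t) s = xor t p := by decide
  rw [wt_fl] at w4
  rw [r2_fl] at b8
  rw [r1_fl] at b9
  rw [r0_fl, fl_fl, x3] at b10
  simp only [G, w]
  rw [e7, e8, e9, e10, e11, M.code_r2 q0, M.code_r2 q1, M.code_r2 q2, M.code_r1 q0, M.code_r1 q1,
    M.code_r2 q3, M.code_r1 q2, M.code_r1 q3, M.code_r2 q4, M.code_r1 q4, inner_fl, inner_fl,
    inner_fl, inner_fl, fl_fl]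
  simp only [Ineq, Wp, Nat.add_eq, Nat.mul_eq] at key
  omega

end RModel

end Pool.Agent.MP_d7736f_co.LB

end

section

/-!
Summation of the local inequality over all ordered five-tuples.
-/

namespace Pool.Agent.MP_d7736f_co.LB

open Finset

instance {V : Type} [DecidableEq V] (a b c d e : V) : Decidable (Dist5 a b c d e) := by
  unfold Dist5; infer_instance

variable {V : Type} [Fintype V] [DecidableEq V]

/-- The sum over ordered five-tuples of different elements. -/
def S5 (f : V → V → V → V → V → ℤ) : ℤ :=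
  ∑ a, ∑ b, ∑ c, ∑ d, ∑ e, if Dist5 a b c d e then f a b c d e else 0

/-- The sum over ordered quadruples of different elements. -/
def S4 (f : V → V → V → V → ℤ) : ℤ :=
  ∑ a, ∑ b, ∑ c, ∑ d, if Dist4 a b c d then f a b c d else 0

theorem ite_congr' {p q : Prop} [Decidable p] [Decidable q] (h : p ↔ q) (x : ℤ) :
    (if p then x else 0) = if q then x else 0 := by simp [h]

theorem S5_sw0 (f : V → V → V → V → V → ℤ) : S5 (fun a b c d e => f b a c d e) = S5 f := by
  rw [S5, sum_comm]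
  refine sum_congr rfl fun _ _ => sum_congr rfl fun _ _ => sum_congr rfl fun _ _ =>
    sum_congr rfl fun _ _ => sum_congr rfl fun _ _ => ite_congr' ?_ _
  simp only [Dist5, Dist4, ne_eq, @eq_comm V]; tauto

theorem S5_sw1 (f : V → V → V → V → V → ℤ) : S5 (fun a b c d e => f a c b d e) = S5 f := by
  refine sum_congr rfl fun _ _ => ?_
  rw [sum_comm]
  refine sum_congr rfl fun _ _ => sum_congr rfl fun _ _ =>
    sum_congr rfl fun _ _ => sum_congr rfl fun _ _ => ite_congr' ?_ _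
  simp only [Dist5, Dist4, ne_eq, @eq_comm V]; tauto

theorem S5_sw2 (f : V → V → V → V → V → ℤ) : S5 (fun a b c d e => f a b d c e) = S5 f := by
  refine sum_congr rfl fun _ _ => sum_congr rfl fun _ _ => ?_
  rw [sum_comm]
  refine sum_congr rfl fun _ _ => sum_congr rfl fun _ _ => sum_congr rfl fun _ _ =>
    ite_congr' ?_ _
  simp only [Dist5, Dist4, ne_eq, @eq_comm V]; tauto

theorem S5_sw3 (f : V → V → V → V → V → ℤ) : S5 (fun a b c d e => f a b c e d) = S5 f := by
  refine sum_congr rfl fun _ _ => sum_congr rfl fun _ _ => sum_congr rfl fun _ _ => ?_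
  rw [sum_comm]
  refine sum_congr rfl fun _ _ => sum_congr rfl fun _ _ => ite_congr' ?_ _
  simp only [Dist5, Dist4, ne_eq, @eq_comm V]; tauto

theorem S4_sw1 (f : V → V → V → V → ℤ) : S4 (fun a b c d => f a c b d) = S4 f := by
  refine sum_congr rfl fun _ _ => ?_
  rw [sum_comm]
  refine sum_congr rfl fun _ _ => sum_congr rfl fun _ _ =>
    sum_congr rfl fun _ _ => ite_congr' ?_ _
  simp only [Dist4, ne_eq, @eq_comm V]; tauto

theorem S4_sw2 (f : V → V → V → V → ℤ) : S4 (fun a b c d => f a b d c) = S4 f := by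
  refine sum_congr rfl fun _ _ => sum_congr rfl fun _ _ => ?_
  rw [sum_comm]
  refine sum_congr rfl fun _ _ => sum_congr rfl fun _ _ => ite_congr' ?_ _
  simp only [Dist4, ne_eq, @eq_comm V]; tauto

theorem S5_add (f g : V → V → V → V → V → ℤ) :
    S5 (fun a b c d e => f a b c d e + g a b c d e) = S5 f + S5 g := by
  simp only [S5, ← sum_add_distrib, ite_add_zero]

theorem S5_mul (k : ℤ) (f : V → V → V → V → V → ℤ) :
    S5 (fun a b c d e => k * f a b c d e) = k * S5 f := by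
  simp only [S5, mul_sum, mul_ite, mul_zero]

theorem S4_add (f g : V → V → V → V → ℤ) :
    S4 (fun a b c d => f a b c d + g a b c d) = S4 f + S4 g := by
  simp only [S4, ← sum_add_distrib, ite_add_zero]

theorem S5_mono {f g : V → V → V → V → V → ℤ}
    (h : ∀ a b c d e, Dist5 a b c d e → f a b c d e ≤ g a b c d e) : S5 f ≤ S5 g := by
  refine sum_le_sum fun _ _ => sum_le_sum fun _ _ => sum_le_sum fun _ _ => sum_le_sum fun _ _ =>
    sum_le_sum fun _ _ => ?_
  split_ifs with k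
  exacts [h _ _ _ _ _ k, le_rfl]

theorem S4_mono {f g : V → V → V → V → ℤ}
    (h : ∀ a b c d, Dist4 a b c d → f a b c d ≤ g a b c d) : S4 f ≤ S4 g := by
  refine sum_le_sum fun _ _ => sum_le_sum fun _ _ => sum_le_sum fun _ _ => sum_le_sum fun _ _ => ?_
  split_ifs with k
  exacts [h _ _ _ _ k, le_rfl]

theorem S5_le_S4 {f : V → V → V → V → ℤ} (h : ∀ a b c d, 0 ≤ f a b c d) :
    S5 (fun a b c d _ => f a b c d) ≤ Fintype.card V * S4 f := by
  simp only [S5, S4, mul_sum]
  refine sum_le_sum fun a _ => sum_le_sum fun b _ => sum_le_sum fun c _ => sum_le_sum fun d _ => ?_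
  rw [← nsmul_eq_mul, ← card_univ]
  refine sum_le_card_nsmul _ _ _ fun e _ => ?_
  split_ifs with k1 k2 k2
  exacts [le_rfl, absurd k1.1 k2, h _ _ _ _, le_rfl]

theorem S5_one : (Fintype.card V : ℤ) ^ 5 - 10 * (Fintype.card V : ℤ) ^ 4 ≤
    S5 (fun _ _ _ _ _ : V => 1) := by
  have h : ∀ a b c d e : V, (1 : ℤ) - ((if a = b then 1 else 0) + (if a = c then 1 else 0) +
      (if a = d then 1 else 0) + (if a = e then 1 else 0) + (if b = c then 1 else 0) +
      (if b = d then 1 else 0) + (if b = e then 1 else 0) + (if c = d then 1 else 0) +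
      (if c = e then 1 else 0) + (if d = e then 1 else 0)) ≤
      if Dist5 a b c d e then 1 else 0 := by
    intro a b c d e
    have p : ∀ x y : V, (0 : ℤ) ≤ (if x = y then 1 else 0) ∧
        (x = y → (if x = y then 1 else 0 : ℤ) = 1) := fun x y =>
      ⟨by split_ifs <;> simp, fun h => if_pos h⟩
    have p1 := p a b
    have p2 := p a c
    have p3 := p a d
    have p4 := p a e
    have p5 := p b c
    have p6 := p b d
    have p7 := p b e
    have p8 := p c d
    have p9 := p c e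
    have p10 := p d e
    by_cases k : Dist5 a b c d e
    · rw [if_pos k]; linarith [p1.1, p2.1, p3.1, p4.1, p5.1, p6.1, p7.1, p8.1, p9.1, p10.1]
    rw [if_neg k]
    simp only [Dist5, Dist4, not_and_or, not_not] at k
    rcases k with (k | k | k | k | k | k) | k | k | k | k <;>
      linarith [p1.1, p2.1, p3.1, p4.1, p5.1, p6.1, p7.1, p8.1, p9.1, p10.1, (p _ _).2 k]
  refine le_trans (le_of_eq ?_) (sum_le_sum fun a _ => sum_le_sum fun b _ => sum_le_sum fun c _ =>
    sum_le_sum fun d _ => sum_le_sum fun e _ => h a b c d e)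
  simp only [sum_sub_distrib, sum_add_distrib, sum_const, card_univ, nsmul_eq_mul, mul_one,
    sum_ite_eq, mem_univ, if_true, ← mul_sum]
  ring

omit [Fintype V] [DecidableEq V] in
theorem inner_sum_nonneg (s : Finset V) (c : V → Code) :
    0 ≤ ∑ d ∈ s, ∑ e ∈ s, inner (c d) (c e) := by
  have k : ∀ i : V → ℕ, 0 ≤ ∑ d ∈ s, ∑ e ∈ s, dotI (i d) (i e) := fun i => by
    simp only [dotI]
    have : ∑ d ∈ s, ∑ e ∈ s, ∑ r ∈ range 10, Bt (i d) r * Bt (i e) r =
        ∑ r ∈ range 10, (∑ d ∈ s, Bt (i d) r) * (∑ d ∈ s, Bt (i d) r) := by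
      simp only [sum_mul_sum]
      rw [sum_comm (s := range 10)]
      exact sum_congr rfl fun _ _ => sum_comm
    rw [this]
    exact sum_nonneg fun _ _ => mul_self_nonneg _
  simp only [inner, sum_add_distrib]
  exact add_nonneg (k fun d => ix (c d)) (k fun d => ix (c d).flip)

namespace RModel

variable (M : RModel V)

theorem G_sum : -(2500 * 27270 * (Fintype.card V : ℤ) ^ 4) ≤ S5 M.G := by
  have h : ∀ a b c : V, -(2500 * 27270 * (Fintype.card V : ℤ)) ≤
      ∑ d, ∑ e, if Dist5 a b c d e then M.G a b c d e else 0 := fun a b c => by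
    have h0 := inner_sum_nonneg (univ.filter fun d => Dist4 a b c d) (M.code a b c)
    rw [sum_filter] at h0
    have h1 : ∀ d, (if Dist4 a b c d then ∑ e ∈ univ.filter fun d => Dist4 a b c d,
        inner (M.code a b c d) (M.code a b c e) else 0) ≤
        (∑ e, if Dist5 a b c d e then M.G a b c d e else 0) + 2500 * 27270 := fun d => by
      split_ifs with k
      · rw [sum_filter, ← add_sum_erase _ _ (mem_univ d), ← add_sum_erase _ _ (mem_univ d),
          if_pos k, if_neg (fun h : Dist5 a b c d d => h.2.2.2.2 rfl), zero_add, add_comm]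
        refine add_le_add (le_of_eq (sum_congr rfl fun e he => ite_congr' ?_ _)) (M.G_le k)
        have := (mem_erase.1 he).1
        simp only [Dist5, Dist4, ne_eq, @eq_comm V] at k this ⊢
        tauto
      · rw [sum_eq_zero fun e _ => if_neg fun h => k h.1]
        norm_num
    have h2 := sum_le_sum fun d (_ : d ∈ univ) => h1 d
    rw [sum_add_distrib, sum_const, card_univ, nsmul_eq_mul] at h2
    linarith
  refine le_trans (le_of_eq ?_) (sum_le_sum fun a _ => sum_le_sum fun b _ => sum_le_sum fun c _ =>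
    h a b c)
  simp only [sum_const, card_univ, nsmul_eq_mul]
  ring

theorem total : 54577 * (Fintype.card V : ℤ) ^ 5 ≤ 818470 * (Fintype.card V : ℤ) ^ 4 +
    600000 * Fintype.card V * S4 (fun a b c d => (M.x a b c d : ℤ)) := by
  have h := S5_mono fun a b c d e (h : Dist5 a b c d e) => M.local_ineq h
  have g1 : S5 (fun a b c d e => M.G a b d c e) = S5 M.G := S5_sw2 _
  have g2 : S5 (fun a b c d e => M.G a b e c d) = S5 M.G :=
    (S5_sw3 fun a b c d e => M.G a b d c e).trans g1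
  have g3 : S5 (fun a b c d e => M.G a c d b e) = S5 M.G :=
    (S5_sw1 fun a b c d e => M.G a b d c e).trans g1
  have g4 : S5 (fun a b c d e => M.G a c e b d) = S5 M.G :=
    (S5_sw1 fun a b c d e => M.G a b e c d).trans g2
  have g5 : S5 (fun a b c d e => M.G a d e b c) = S5 M.G :=
    (S5_sw2 fun a b c d e => M.G a c e b d).trans g4
  have g6 : S5 (fun a b c d e => M.G b c d a e) = S5 M.G :=
    (S5_sw0 fun a b c d e => M.G a c d b e).trans g3
  have g7 : S5 (fun a b c d e => M.G b c e a d) = S5 M.G :=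
    (S5_sw0 fun a b c d e => M.G a c e b d).trans g4
  have g8 : S5 (fun a b c d e => M.G b d e a c) = S5 M.G :=
    (S5_sw0 fun a b c d e => M.G a d e b c).trans g5
  have g9 : S5 (fun a b c d e => M.G c d e a b) = S5 M.G :=
    (S5_sw1 fun a b c d e => M.G b d e a c).trans g8
  have w1 : S5 (fun a b c _ e => (M.w a b c e : ℤ)) = S5 fun a b c d _ => (M.w a b c d : ℤ) :=
    S5_sw3 fun a b c d _ => (M.w a b c d : ℤ)
  have w2 : S5 (fun a b _ d e => (M.w a b d e : ℤ)) = S5 fun a b c d _ => (M.w a b c d : ℤ) :=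
    (S5_sw2 fun a b c _ e => (M.w a b c e : ℤ)).trans w1
  have w3 : S5 (fun a _ c d e => (M.w a c d e : ℤ)) = S5 fun a b c d _ => (M.w a b c d : ℤ) :=
    (S5_sw1 fun a b _ d e => (M.w a b d e : ℤ)).trans w2
  have w4 : S5 (fun _ b c d e => (M.w b c d e : ℤ)) = S5 fun a b c d _ => (M.w a b c d : ℤ) :=
    (S5_sw0 fun a _ c d e => (M.w a c d e : ℤ)).trans w3
  have x1 : S4 (fun a b c d => (M.x a c b d : ℤ)) = S4 fun a b c d => (M.x a b c d : ℤ) :=
    S4_sw1 fun a b c d => (M.x a b c d : ℤ)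
  have x2 : S4 (fun a b c d => (M.x a d b c : ℤ)) = S4 fun a b c d => (M.x a b c d : ℤ) :=
    (S4_sw2 fun a b c d => (M.x a c b d : ℤ)).trans x1
  have c1 : S5 (fun _ _ _ _ _ : V => (2500 * 54577 : ℤ)) =
      2500 * 54577 * S5 fun _ _ _ _ _ : V => 1 := by
    rw [← S5_mul]; simp
  have u1 := S5_le_S4 (f := fun a b c d => (M.w a b c d : ℤ)) fun _ _ _ _ => by positivity
  have u2 := S4_mono (f := fun a b c d => (M.w a b c d : ℤ))
    (g := fun a b c d => (M.x a b c d : ℤ) + M.x a c b d + M.x a d b c)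
    fun a b c d h => by exact_mod_cast M.wt_le h
  rw [S4_add, S4_add, x1, x2] at u2
  have u3 := mul_le_mul_of_nonneg_left u2 (Nat.cast_nonneg (α := ℤ) (Fintype.card V))
  have u4 := M.G_sum
  have u5 := S5_one (V := V)
  rw [S5_mul, S5_add, S5_add, S5_add, S5_add, S5_add, S5_add, S5_add, S5_add, S5_add, S5_add,
    S5_add, S5_add, S5_add, S5_add, g1, g2, g3, g4, g5, g6, g7, g8, g9, w1, w2, w3, w4, c1] at h
  have e : S5 (fun a b c d e => M.G a b c d e) = S5 M.G := rfl
  rw [e] at h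
  linarith

end RModel

end Pool.Agent.MP_d7736f_co.LB

end
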