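import Pool.Agent.Mg.Fd7736fq.G6690aa

set_option linter.all false

namespace Pool.Agent.MP_d7736f_co.TB

theorem chk70 : chk true true true false false false = true := by decide +kernel

theorem chk71 : chk true true true false false true = true := by decide +kernel

theorem chk72 : chk true true true false true false = true := by decide +kernel

theorem chk73 : chk true true true false true true = true := by decide +kernel

theorem chk74 : chk true true true true false false = true := by decide +kernel

theorem chk75 : chk true true true true false true = true := by decide +kernel

theorem chk76 : chk true true true true true false = true := by decide +kernel

theorem chk77 : chk true true true true true true = true := by decide +kernel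

theorem chk7 (d e f : Bool) : chk true true true d e f = true := by
  cases d <;> cases e <;> cases f
  exacts [chk70, chk71, chk72, chk73, chk74, chk75, chk76, chk77]

end Pool.Agent.MP_d7736f_co.TB
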