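import Pool.Agent.Mg.Fd7736fq.Gfaf854

set_option linter.all false

section

/-!
Lower bound on the torus: shared definitions.
-/

namespace Pool.Agent.MP_d7736f_co.TB

open Complex Set Topology unitInterval LB
open scoped Real

/-- The lattice point with given coordinates. -/
noncomputable def lat (x : ℤ × ℤ) : ℂ := x.1 + x.2 * Complex.I

/-- The projection of the plane to the torus. -/
noncomputable def prj (z : ℂ) : Torus := ((z.re : AddCircle (1 : ℝ)), (z.im : AddCircle (1 : ℝ)))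

/-- The determinant of two lattice vectors. -/
def om (x y : ℤ × ℤ) : ℤ := x.1 * y.2 - x.2 * y.1

/-- A continuous function with the zeros and the periods of the odd theta function. -/
structure IsTheta (θ : ℂ → ℂ) : Prop where
  cont : Continuous θ
  zero : ∀ z, θ z = 0 → ∃ x, z = lat x
  odd : ∀ z, θ (-z) = -θ z
  per1 : ∀ z, θ (z + 1) = -θ z
  perI : ∀ z, θ (z + Complex.I) = -exp (-(2 * π * z.re) * Complex.I) * θ z
  loc : ∀ z, z ≠ 0 → ‖z‖ < 1 / 2 → 0 < (θ z / z).re

/-- The variation of the argument of `θ (f s - g t)` along the boundary of the square. -/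
noncomputable def bdT (θ : ℂ → ℂ) (f g : I → ℂ) : ℝ :=
  var (fun s => θ (f s - g 0)) - var (fun s => θ (f s - g 1)) + var (fun t => θ (g t - f 1)) -
    var (fun t => θ (g t - f 0))

/-- The pairing of the edges `u v` and `w z`. -/
def tpair {V : Type} (h : V → V → ℤ × ℤ) (a : V → V → V → ℝ) (u v w z : V) : ℝ :=
  a u v w - a u v z + a w z v - a w z u - 2 * om (h u v) (h w z)

/-- The model: displacements of edges, directions at vertices, variations of arguments. -/
structure TModel (V : Type) where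
  h : V → V → ℤ × ℤ
  ang : V → V → ℝ
  a : V → V → V → ℝ
  h_rev : ∀ u v, h v u = -h u v
  ang_ne : ∀ u v w, u ≠ v → u ≠ w → v ≠ w → ang u v ≠ ang u w
  rev : ∀ u v w, u ≠ v → a v u w = -a u v w
  adj : ∀ u v w, u ≠ v → u ≠ w → v ≠ w →
    tpair h a u v u w = if ang u w < ang u v then 1 else -1
  even : ∀ u v w z, Dist4 u v w z → ∃ n : ℤ, tpair h a u v w z = 2 * n

namespace TModel

variable {V : Type} (M : TModel V)

/-- The pairing of the model. -/
def D (u v w z : V) : ℝ := tpair M.h M.a u v w z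

open Classical in
/-- One if the two edges are forced to meet. -/
noncomputable def x (u v w z : V) : ℕ := if M.D u v w z = 0 then 0 else 1

end TModel

/-- Lifted arcs for ordered pairs of vertices. -/
structure Lifts (V : Type) where
  z : V → ℂ
  h : V → V → ℤ × ℤ
  G : V → V → I → ℂ
  h_rev : ∀ u v, h v u = -h u v
  cont : ∀ u v, u ≠ v → Continuous (G u v)
  G0 : ∀ u v, u ≠ v → G u v 0 = z u
  G1 : ∀ u v, u ≠ v → G u v 1 = z v + lat (h u v)
  rev : ∀ u v s, u ≠ v → G v u s = G u v (σ s) - lat (h u v)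
  vert : ∀ u v w s x, u ≠ v → G u v s - z w = lat x → (w = u ∧ s = 0) ∨ (w = v ∧ s = 1)
  adj : ∀ u v w s t x, u ≠ v → u ≠ w → v ≠ w → G u v s - G u w t = lat x → s = 0 ∧ t = 0

end Pool.Agent.MP_d7736f_co.TB

end

section

/-!
An elementary substitute for the odd theta function.
-/

namespace Pool.Agent.MP_d7736f_co.TB

open Complex Set Topology unitInterval LB
open scoped Real

/-- The formula on the `n`-th strip. -/
noncomputable def thF (n : ℤ) (z : ℂ) : ℂ :=
  (-1) ^ n * exp (-(2 * π * z.re * n) * Complex.I) *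
    (Real.sin (π * z.re) + 2 * Complex.I * (z.im - n) * Real.cos (π * z.re))

/-- The function. -/
noncomputable def thE (z : ℂ) : ℂ := thF ⌊z.im + 1 / 2⌋ z

theorem thF_cont (n : ℤ) : Continuous (thF n) := by
  unfold thF
  fun_prop

theorem thF_succ (n : ℤ) (z w : ℂ) (h1 : w.re = z.re) (h2 : w.im = z.im + 1) :
    thF (n + 1) w = -exp (-(2 * π * z.re) * Complex.I) * thF n z := by
  have e : exp (-(2 * π * z.re * (n + 1 : ℤ)) * Complex.I) =
      exp (-(2 * π * z.re) * Complex.I) * exp (-(2 * π * z.re * n) * Complex.I) := by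
    rw [← Complex.exp_add]
    push_cast
    ring_nf
  unfold thF
  rw [h1, h2, e, zpow_add_one₀ (by norm_num)]
  push_cast
  ring

theorem thF_agree (n : ℤ) {z : ℂ} (h : z.im = n + 1 / 2) : thF (n + 1) z = thF n z := by
  have e : exp (-(2 * π * z.re * (n + 1 : ℤ)) * Complex.I) =
      exp (-(π * z.re) * Complex.I) ^ 2 * exp (-(2 * π * z.re * n) * Complex.I) := by
    rw [← Complex.exp_nat_mul, ← Complex.exp_add]
    push_cast
    ring_nf
  have e2 : exp (-(π * z.re) * Complex.I) =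
      Complex.cos (π * z.re) - Complex.sin (π * z.re) * Complex.I := by
    rw [Complex.exp_mul_I, Complex.cos_neg, Complex.sin_neg]
    ring
  have e3 := Complex.cos_sq_add_sin_sq (π * z.re)
  unfold thF
  rw [h, e, e2, zpow_add_one₀ (by norm_num)]
  push_cast
  generalize Complex.cos (π * z.re) = c at *
  generalize Complex.sin (π * z.re) = s at *
  generalize exp (-(2 * π * z.re * n) * Complex.I) = u
  generalize ((-1 : ℂ) ^ n) = v
  linear_combination v * u * ((s + c * Complex.I) * e3 +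
    (-s ^ 3 - 2 * c ^ 2 * s + c * s ^ 2 * Complex.I) * Complex.I_mul_I)

theorem thE_eq (n : ℤ) {z : ℂ} (h1 : n - 1 / 2 ≤ z.im) (h2 : z.im ≤ n + 1 / 2) :
    thE z = thF n z := by
  unfold thE
  rcases h2.lt_or_eq with h | h
  · rw [(Int.floor_eq_iff (z := n)).2 ⟨by linarith, by linarith⟩]
  · rw [← thF_agree n h, (Int.floor_eq_iff (z := n + 1)).2 ⟨by push_cast; linarith,
      by push_cast; linarith⟩]

theorem thE_strip (z : ℂ) : ∃ n : ℤ, n - 1 / 2 ≤ z.im ∧ z.im < n + 1 / 2 :=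
  ⟨⌊z.im + 1 / 2⌋, by linarith [Int.floor_le (z.im + 1 / 2)],
    by linarith [Int.lt_floor_add_one (z.im + 1 / 2)]⟩

theorem thE_cont : Continuous thE := by
  have key : ∀ n : ℤ, IsClosed {z : ℂ | n - 1 / 2 ≤ z.im ∧ z.im ≤ n + 1 / 2} ∧
      ContinuousOn thE {z : ℂ | n - 1 / 2 ≤ z.im ∧ z.im ≤ n + 1 / 2} := fun n =>
    ⟨(isClosed_le continuous_const continuous_im).inter
      (isClosed_le continuous_im continuous_const),
      (thF_cont n).continuousOn.congr fun z hz => thE_eq n hz.1 hz.2⟩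
  refine continuous_iff_continuousAt.2 fun z => ?_
  obtain ⟨n, h1, h2⟩ := thE_strip z
  refine ((key n).2.union_of_isClosed (key (n - 1)).2 (key n).1 (key (n - 1)).1).continuousAt ?_
  have h3 : {w : ℂ | n - 3 / 2 < w.im ∧ w.im < n + 1 / 2} ∈ 𝓝 z :=
    ((isOpen_lt continuous_const continuous_im).inter
      (isOpen_lt continuous_im continuous_const)).mem_nhds ⟨by
        show (n : ℝ) - 3 / 2 < z.im
        linarith, h2⟩
  filter_upwards [h3] with w hw
  rcases le_total (n - 1 / 2 : ℝ) w.im with h | h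
  · exact Or.inl ⟨h, hw.2.le⟩
  · exact Or.inr ⟨by push_cast; linarith [hw.1], by push_cast; linarith⟩

theorem exists_theta : ∃ θ : ℂ → ℂ, IsTheta θ := by
  refine ⟨thE, thE_cont, fun z hz => ?_, fun z => ?_, fun z => ?_, fun z => ?_, fun z h0 hz => ?_⟩
  · obtain ⟨n, h1, h2⟩ := thE_strip z
    rw [thE_eq n h1 h2.le, thF] at hz
    have h3 := (mul_eq_zero.1 hz).resolve_left
      (mul_ne_zero (zpow_ne_zero _ (by norm_num)) (exp_ne_zero _))
    have h4 : Real.sin (π * z.re) = 0 := by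
      simpa [-ofReal_sin, -ofReal_cos] using congrArg re h3
    have h5 : z.im - n = 0 ∨ Real.cos (π * z.re) = 0 := by
      simpa [-ofReal_sin, -ofReal_cos] using congrArg im h3
    have h6 : z.im = n := by
      rcases h5 with h | h
      · linarith
      · have := Real.sin_sq_add_cos_sq (π * z.re)
        rw [h4, h] at this
        norm_num at this
    obtain ⟨m, hm⟩ := Real.sin_eq_zero_iff.1 h4
    have h7 : z.re = m := by
      rw [mul_comm] at hm
      exact (mul_left_cancel₀ Real.pi_ne_zero hm).symm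
    exact ⟨(m, n), Complex.ext (by simp [lat, h7]) (by simp [lat, h6])⟩
  · obtain ⟨n, h1, h2⟩ := thE_strip z
    rw [thE_eq n h1 h2.le, thE_eq (-n) (by simp only [neg_im]; push_cast; linarith)
      (by simp only [neg_im]; push_cast; linarith)]
    have e : (-1 : ℂ) ^ (-n) = (-1) ^ n := by rw [zpow_neg, ← inv_zpow, inv_neg, inv_one]
    unfold thF
    rw [e, neg_re, neg_im, mul_neg, Real.sin_neg, Real.cos_neg]
    push_cast
    rw [show -(2 * (π : ℂ) * -z.re * -n) = -(2 * π * z.re * n) by ring]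
    ring
  · obtain ⟨n, h1, h2⟩ := thE_strip z
    rw [thE_eq n h1 h2.le, thE_eq n (by simpa using h1) (by simpa using h2.le)]
    have e : exp (-(2 * π * ((z.re + 1 : ℝ) : ℂ) * n) * Complex.I) =
        exp (-(2 * π * z.re * n) * Complex.I) := by
      rw [← mul_one (exp (-(2 * π * z.re * n) * Complex.I)), ← exp_int_mul_two_pi_mul_I (-n),
        ← Complex.exp_add]
      push_cast
      ring_nf
    unfold thF
    rw [add_re, add_im, one_re, one_im, add_zero, e, mul_add π, mul_one, Real.sin_add_pi,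
      Real.cos_add_pi]
    push_cast
    ring
  · obtain ⟨n, h1, h2⟩ := thE_strip z
    rw [thE_eq n h1 h2.le, thE_eq (n + 1) (by simp only [add_im, I_im]; push_cast; linarith)
      (by simp only [add_im, I_im]; push_cast; linarith)]
    exact thF_succ n z _ (by simp) (by simp)
  · have hx := abs_lt.1 ((abs_re_le_norm z).trans_lt hz)
    have hy := abs_lt.1 ((abs_im_le_norm z).trans_lt hz)
    rw [thE_eq 0 (by push_cast; linarith) (by push_cast; linarith), div_re, ← add_div]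
    refine div_pos ?_ (normSq_pos.2 h0)
    have e : (thF 0 z).re * z.re + (thF 0 z).im * z.im =
        Real.sin (π * z.re) * z.re + 2 * z.im ^ 2 * Real.cos (π * z.re) := by
      simp [thF, -ofReal_sin, -ofReal_cos]
      ring
    have hp := Real.pi_pos
    have hc : 0 < Real.cos (π * z.re) := Real.cos_pos_of_mem_Ioo ⟨by nlinarith, by nlinarith⟩
    rw [e]
    rcases lt_trichotomy z.re 0 with h | h | h
    · have := Real.sin_neg_of_neg_of_neg_pi_lt (x := π * z.re) (by nlinarith) (by nlinarith)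
      have := mul_pos_of_neg_of_neg this h
      positivity
    · have h1 : z.im ≠ 0 := fun h' => h0 (Complex.ext h h')
      rw [h, mul_zero (Real.sin _), zero_add]
      rw [h] at hc
      positivity
    · have := Real.sin_pos_of_pos_of_lt_pi (x := π * z.re) (by nlinarith) (by nlinarith)
      positivity

end Pool.Agent.MP_d7736f_co.TB

end

section

/-!
Charts of the torus and lifts of a clean drawing to the plane.
-/

namespace Pool.Agent.MP_d7736f_co.TB

open Complex Set Topology unitInterval LB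
open scoped Real

theorem top_chart (q : AddCircle (1 : ℝ)) :
    ∃ φ : ℝ → AddCircle (1 : ℝ), IsOpenEmbedding φ ∧ φ 0 = q := by
  have h1 : IsOpenEmbedding Real.arctan :=
    isOpen_Ioo.isOpenEmbedding_subtypeVal.comp Real.tanOrderIso.symm.toHomeomorph.isOpenEmbedding
  have h2 : IsOpenEmbedding fun x => Real.arctan x * π⁻¹ :=
    (Homeomorph.mulRight₀ π⁻¹ (inv_ne_zero Real.pi_ne_zero)).isOpenEmbedding.comp h1
  have h3 : IsOpenEmbedding fun x => ((Real.arctan x * π⁻¹ : ℝ) : AddCircle (1 : ℝ)) := by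
    refine IsOpenEmbedding.of_continuous_injective_isOpenMap
      ((AddCircle.continuous_mk' 1).comp h2.continuous) (fun x y h => ?_)
      (QuotientAddGroup.isOpenMap_coe.comp h2.isOpenMap)
    have hm : ∀ x, Real.arctan x * π⁻¹ ∈ Ico (-(1 / 2) : ℝ) (-(1 / 2) + 1) := fun x => by
      have a1 := Real.arctan_lt_pi_div_two x
      have a2 := Real.neg_pi_div_two_lt_arctan x
      have hp := Real.pi_pos
      rw [← div_eq_mul_inv]
      constructor
      · rw [le_div_iff₀ hp]; linarith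
      · rw [div_lt_iff₀ hp]; linarith
    exact h2.injective ((AddCircle.coe_eq_coe_iff_of_mem_Ico (hm x) (hm y)).1 h)
  exact ⟨_, (Homeomorph.addLeft q).isOpenEmbedding.comp h3, by simp⟩

theorem charts_torus : HasCharts Torus := by
  intro q
  obtain ⟨φ₁, h1, e1⟩ := top_chart q.1
  obtain ⟨φ₂, h2, e2⟩ := top_chart q.2
  refine ⟨_, (h1.prodMap h2).comp equivRealProdCLM.toHomeomorph.isOpenEmbedding, ?_⟩
  simp [e1, e2]

theorem top_coe_eq {x y : ℝ} :
    (x : AddCircle (1 : ℝ)) = (y : AddCircle (1 : ℝ)) ↔ ∃ n : ℤ, x - y = n := by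
  rw [← sub_eq_zero, ← AddCircle.coe_sub, AddCircle.coe_eq_zero_iff]
  simp [eq_comm]

theorem prj_eq_iff {z w : ℂ} : prj z = prj w ↔ ∃ x, z - w = lat x := by
  rw [prj, prj, Prod.mk.injEq, top_coe_eq, top_coe_eq]
  constructor
  · rintro ⟨⟨m, hm⟩, ⟨n, hn⟩⟩
    exact ⟨(m, n), Complex.ext (by simpa [lat] using hm) (by simpa [lat] using hn)⟩
  · rintro ⟨x, hx⟩
    exact ⟨⟨x.1, by simpa [lat] using congrArg re hx⟩, ⟨x.2, by simpa [lat] using congrArg im hx⟩⟩

theorem top_lat_neg (x : ℤ × ℤ) : lat (-x) = -lat x := by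
  simp only [lat, Prod.fst_neg, Prod.snd_neg]
  push_cast
  ring

theorem top_prj_sub (z : ℂ) (x : ℤ × ℤ) : prj (z - lat x) = prj z :=
  prj_eq_iff.2 ⟨-x, by rw [top_lat_neg]; ring⟩

theorem top_prj_add (z : ℂ) (x : ℤ × ℤ) : prj (z + lat x) = prj z :=
  prj_eq_iff.2 ⟨x, by ring⟩

theorem top_prj_surj (q : Torus) : ∃ z, prj z = q := by
  obtain ⟨a, ha⟩ := QuotientAddGroup.mk_surjective q.1
  obtain ⟨b, hb⟩ := QuotientAddGroup.mk_surjective q.2
  exact ⟨⟨a, b⟩, Prod.ext ha hb⟩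

theorem top_lift {p q : Torus} (γ : Path p q) {z : ℂ} (hz : prj z = p) :
    ∃ Γ : I → ℂ, Continuous Γ ∧ (∀ s, prj (Γ s) = γ s) ∧ Γ 0 = z := by
  obtain ⟨A, hA, hA0⟩ := (AddCircle.isCoveringMap_coe (1 : ℝ)).exists_path_lifts
    ⟨fun s => (γ s).1, by fun_prop⟩ z.re (by simp [← hz, prj])
  obtain ⟨B, hB, hB0⟩ := (AddCircle.isCoveringMap_coe (1 : ℝ)).exists_path_lifts
    ⟨fun s => (γ s).2, by fun_prop⟩ z.im (by simp [← hz, prj])
  refine ⟨fun s => A s + B s * Complex.I, by fun_prop, fun s => Prod.ext ?_ ?_, ?_⟩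
  · simpa [prj] using congrFun hA s
  · simpa [prj] using congrFun hB s
  · simp [hA0, hB0]

theorem exists_lifts {v : ℕ} (D : Drawing Torus v) (hD : Clean D) :
    ∃ L : Lifts (Fin v), ∀ u w s, u ≠ w → prj (L.G u w s) ∈ tr D u w := by
  choose z hPz using fun u => top_prj_surj (D.pt u)
  choose Γ hc hPΓ Γ0 using fun e : Edge v => top_lift (D.arc e) (hPz e.1.1)
  choose sg hsg using fun e : Edge v =>
    (prj_eq_iff (z := Γ e 1) (w := z e.1.2)).1 (by rw [hPΓ, hPz, Path.target])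
  have Γ1 : ∀ e, Γ e 1 = z e.1.2 + lat (sg e) := fun e => by rw [← hsg]; ring
  let sg' : Fin v → Fin v → ℤ × ℤ := fun u w =>
    if h : u < w then sg ⟨(u, w), h⟩ else if h : w < u then -sg ⟨(w, u), h⟩ else 0
  let G : Fin v → Fin v → I → ℂ := fun u w s =>
    if h : u < w then Γ ⟨(u, w), h⟩ s else
      if h : w < u then Γ ⟨(w, u), h⟩ (σ s) - lat (sg ⟨(w, u), h⟩) else 0
  have s1 : ∀ u w (h : u < w), sg' u w = sg ⟨(u, w), h⟩ := fun u w h => dif_pos h
  have s2 : ∀ u w (h : w < u), sg' u w = -sg ⟨(w, u), h⟩ := fun u w h =>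
    (dif_neg h.not_gt).trans (dif_pos h)
  have g1 : ∀ u w (h : u < w), G u w = Γ ⟨(u, w), h⟩ := fun u w h => funext fun s => dif_pos h
  have g2 : ∀ u w (h : w < u),
      G u w = fun s => Γ ⟨(w, u), h⟩ (σ s) - lat (sg ⟨(w, u), h⟩) :=
    fun u w h => funext fun s => (dif_neg h.not_gt).trans (dif_pos h)
  have key : ∀ u w, u ≠ w → ∃ (e : Edge v) (ρ : I → I), Function.Injective ρ ∧
      (e.1 = (u, w) ∨ e.1 = (w, u)) ∧ (∀ s, prj (G u w s) = D.arc e (ρ s)) := fun u w h => by
    rcases lt_or_gt_of_ne h with h | h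
    · exact ⟨⟨(u, w), h⟩, id, Function.injective_id, Or.inl rfl, fun s => by
        rw [g1 _ _ h, hPΓ]; rfl⟩
    · exact ⟨⟨(w, u), h⟩, σ, symm_bijective.1, Or.inr rfl, fun s => by
        rw [g2 _ _ h, top_prj_sub, hPΓ]⟩
  have hG0 : ∀ u w, u ≠ w → G u w 0 = z u := fun u w h => by
    rcases lt_or_gt_of_ne h with h | h
    · rw [g1 _ _ h, Γ0]
    · rw [g2 _ _ h]; simp [Γ1]
  have hG1 : ∀ u w, u ≠ w → G u w 1 = z w + lat (sg' u w) := fun u w h => by
    rcases lt_or_gt_of_ne h with h | h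
    · rw [g1 _ _ h, Γ1, s1 _ _ h]
    · rw [g2 _ _ h, s2 _ _ h, top_lat_neg]; simp [Γ0, sub_eq_add_neg]
  have hinj : ∀ u w s s', u ≠ w → prj (G u w s) = prj (G u w s') → s = s' :=
    fun u w s s' h e => by
      obtain ⟨g, ρ, hρ, -, hg⟩ := key u w h
      rw [hg, hg] at e
      exact hρ (D.arc_inj g e)
  have hv : ∀ u w y s, u ≠ w → prj (G u w s) = D.pt y → (y = u ∧ s = 0) ∨ (y = w ∧ s = 1) :=
    fun u w y s h e => by
      obtain ⟨g, ρ, hρ, hg, hg'⟩ := key u w h
      have h1 := D.arc_avoid g y ⟨_, (hg' s).symm.trans e⟩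
      have h2 : y = u ∨ y = w := by
        rcases hg with hg | hg <;> rw [hg] at h1
        · exact h1
        · exact h1.symm
      refine h2.imp (fun h2 => ⟨h2, hinj u w _ _ h ?_⟩) (fun h2 => ⟨h2, hinj u w _ _ h ?_⟩)
      · rw [e, hG0 _ _ h, hPz, h2]
      · rw [e, hG1 _ _ h, top_prj_add, hPz, h2]
  refine ⟨⟨z, sg', G, fun u w => ?_, fun u w h => ?_, hG0, hG1,
    fun u w s h => ?_, fun u w y s b h e => ?_, fun u w y s t b h h' hw e => ?_⟩,
    fun u w s h => ?_⟩
  · rcases lt_trichotomy u w with h | rfl | h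
    · rw [s1 _ _ h, s2 _ _ h]
    · simp [sg']
    · rw [s1 _ _ h, s2 _ _ h, neg_neg]
  · rcases lt_or_gt_of_ne h with h | h
    · rw [g1 _ _ h]; exact hc _
    · rw [g2 _ _ h]
      exact ((hc _).comp continuous_symm).sub continuous_const
  · rcases lt_or_gt_of_ne h with h | h
    · rw [g2 _ _ h, g1 _ _ h, s1 _ _ h]
    · rw [g1 _ _ h, g2 _ _ h, s2 _ _ h, top_lat_neg]; simp
  · exact hv u w y s h (by rw [prj_eq_iff.2 ⟨b, e⟩, hPz])
  · have e' : prj (G u w s) = prj (G u y t) := prj_eq_iff.2 ⟨b, e⟩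
    obtain ⟨g, ρ, -, hg, hg'⟩ := key u w h
    obtain ⟨g', ρ', -, hk, hk'⟩ := key u y h'
    have hgg : g ≠ g' := by
      rintro rfl
      rcases hg with hg | hg <;> rcases hk with hk | hk <;> rw [hg] at hk <;>
        simp only [Prod.mk.injEq] at hk
      · exact hw hk.2
      · exact h' hk.1
      · exact h' hk.2
      · exact hw hk.1
    have hadj : Adj g g' := by
      rcases hg with hg | hg <;> rcases hk with hk | hk <;> simp [Adj, hg, hk]
    obtain ⟨p, hp⟩ := hD g g' hgg hadj _ ⟨_, (hg' s).symm⟩ ⟨_, (hk' t).symm.trans e'.symm⟩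
    rcases hv u w p s h hp.symm with ⟨rfl, rfl⟩ | ⟨rfl, rfl⟩ <;>
      rcases hv _ y _ t h' (e'.symm.trans hp.symm) with ⟨k, rfl⟩ | ⟨k, rfl⟩
    · exact ⟨rfl, rfl⟩
    · exact absurd k h'
    · exact absurd k.symm h
    · exact absurd k hw
  · obtain ⟨g, ρ, -, hg, hg'⟩ := key u w h
    exact ⟨g, hg, _, (hg' s).symm⟩

end Pool.Agent.MP_d7736f_co.TB

end

section

/-!
The variation of the argument of the theta function along paths.
-/

namespace Pool.Agent.MP_d7736f_co.TB

open Complex Set Topology unitInterval LB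
open scoped Real

variable {θ : ℂ → ℂ} {f g : I → ℂ}

theorem wind_ne (hθ : IsTheta θ) {z : ℂ} (h : ∀ x, z ≠ lat x) : θ z ≠ 0 := fun e =>
  (hθ.zero z e).elim h

theorem wind_swap (hθ : IsTheta θ) (z w : ℂ) : θ (z - w) = -θ (w - z) := by
  rw [← hθ.odd, neg_sub]

theorem wind_lat_neg (x : ℤ × ℤ) : lat (-x) = -lat x := by
  simp only [lat, Prod.fst_neg, Prod.snd_neg, Int.cast_neg]
  ring

theorem wind_lat_zero : lat 0 = 0 := by simp [lat]

theorem wind_shift1 (hθ : IsTheta θ) (m : ℤ) : ∃ c : ℂ, c ≠ 0 ∧ ∀ z, θ (z - m) = c * θ z := by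
  induction m using Int.induction_on with
  | zero => exact ⟨1, one_ne_zero, fun z => by simp⟩
  | succ n ih =>
    obtain ⟨c, hc, h⟩ := ih
    refine ⟨-c, neg_ne_zero.2 hc, fun z => ?_⟩
    have h1 := hθ.per1 (z - ((n : ℤ) + 1 : ℤ))
    rw [show z - ((n : ℤ) + 1 : ℤ) + 1 = z - (n : ℤ) by push_cast; ring, h] at h1
    linear_combination h1
  | pred n ih =>
    obtain ⟨c, hc, h⟩ := ih
    refine ⟨-c, neg_ne_zero.2 hc, fun z => ?_⟩
    rw [show z - (-(n : ℤ) - 1 : ℤ) = z - (-(n : ℤ) : ℤ) + 1 by push_cast; ring, hθ.per1, h]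
    ring

theorem wind_shiftI (hθ : IsTheta θ) (m : ℤ) : ∃ c : ℂ, c ≠ 0 ∧ ∀ z, θ (z - m * Complex.I) =
    c * (exp (2 * π * m * z.re * Complex.I) * θ z) := by
  have step : ∀ (n : ℤ) (z : ℂ), θ (z - n * Complex.I + Complex.I) =
      -exp (-(2 * π * z.re) * Complex.I) * θ (z - n * Complex.I) := fun n z => by
    rw [hθ.perI]
    simp
  induction m using Int.induction_on with
  | zero => exact ⟨1, one_ne_zero, fun z => by simp⟩
  | succ n ih =>
    obtain ⟨c, hc, h⟩ := ih
    refine ⟨-c, neg_ne_zero.2 hc, fun z => ?_⟩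
    have h1 := step ((n : ℤ) + 1) z
    rw [show z - ((n : ℤ) + 1 : ℤ) * Complex.I + Complex.I = z - (n : ℤ) * Complex.I by
      push_cast; ring, h] at h1
    have h2 : exp (2 * π * z.re * Complex.I) * exp (-(2 * π * z.re) * Complex.I) = 1 := by
      rw [← exp_add]; simp
    have h3 : exp (2 * π * ((n : ℤ) + 1 : ℤ) * z.re * Complex.I) =
        exp (2 * π * z.re * Complex.I) * exp (2 * π * (n : ℤ) * z.re * Complex.I) := by
      rw [← exp_add]; congr 1; push_cast; ring
    rw [h3]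
    linear_combination exp (2 * π * z.re * Complex.I) * h1 -
      θ (z - ((n : ℤ) + 1 : ℤ) * Complex.I) * h2
  | pred n ih =>
    obtain ⟨c, hc, h⟩ := ih
    refine ⟨-c, neg_ne_zero.2 hc, fun z => ?_⟩
    have h3 : exp (2 * π * (-(n : ℤ) - 1 : ℤ) * z.re * Complex.I) =
        exp (-(2 * π * z.re) * Complex.I) * exp (2 * π * (-(n : ℤ) : ℤ) * z.re * Complex.I) := by
      rw [← exp_add]; congr 1; push_cast; ring
    rw [show z - (-(n : ℤ) - 1 : ℤ) * Complex.I = z - (-(n : ℤ) : ℤ) * Complex.I + Complex.I by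
      push_cast; ring, step, h, h3]
    ring

theorem wind_square {A B C D : I → ℂ} (hA : Continuous A) (hB : Continuous B) (hC : Continuous C)
    (hD : Continuous D) (a0 : ∀ s, A s ≠ 0) (b0 : ∀ s, B s ≠ 0) (c0 : ∀ s, C s ≠ 0)
    (d0 : ∀ s, D s ≠ 0) (q1 : C 0 = -A 1) (q2 : C 1 = -B 1) (q3 : D 0 = -A 0) (q4 : D 1 = -B 0) :
    ∃ n : ℤ, var A - var B + var C - var D = 2 * π * n := by
  obtain ⟨r1, p1, e1⟩ := exp_var hA a0
  obtain ⟨r2, p2, e2⟩ := exp_var hB b0
  obtain ⟨r3, p3, e3⟩ := exp_var hC c0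
  obtain ⟨r4, p4, e4⟩ := exp_var hD d0
  rw [q1, q2] at e3
  rw [q3, q4] at e4
  have key : ((r1 * r3 / (r2 * r4) : ℝ) : ℂ) *
      exp ((var A - var B + var C - var D : ℝ) * Complex.I) = 1 := by
    have c2 : (r2 : ℂ) ≠ 0 := ofReal_ne_zero.2 p2.ne'
    have c4 : (r4 : ℂ) ≠ 0 := ofReal_ne_zero.2 p4.ne'
    push_cast
    rw [sub_mul, add_mul, sub_mul, exp_sub, exp_add, exp_sub]
    set E1 := exp (var A * Complex.I)
    set E2 := exp (var B * Complex.I)
    set E3 := exp (var C * Complex.I)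
    set E4 := exp (var D * Complex.I)
    have d2 : E2 ≠ 0 := exp_ne_zero _
    have d4 : E4 ≠ 0 := exp_ne_zero _
    field_simp
    apply mul_left_cancel₀ (a0 0)
    linear_combination (-(r3 : ℂ) * E3) * e1 + e3 + e2 - (r2 * E2) * e4
  have hn := congrArg norm key
  rw [norm_mul, norm_exp_ofReal_mul_I, norm_real, mul_one, norm_one, Real.norm_eq_abs,
    abs_of_pos (by positivity)] at hn
  rw [hn, ofReal_one, one_mul, exp_eq_one_iff] at key
  obtain ⟨n, hn⟩ := key
  refine ⟨n, ?_⟩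
  have := congrArg im hn
  simp at this
  linarith

theorem wind_head (hθ : IsTheta θ) (hf : Continuous f) (h0 : ∀ s, f s ≠ 0)
    (hn : ∀ s, ‖f s‖ < 1 / 2) :
    var (fun s => θ (f s)) = var f + (arg (θ (f 1) / f 1) - arg (θ (f 0) / f 0)) := by
  have hU : Continuous fun s => θ (f s) / f s := (hθ.cont.comp hf).div hf h0
  have hp : ∀ s, 0 < (θ (f s) / f s).re := fun s => hθ.loc _ (h0 s) (hn s)
  rw [← var_half hU hp, ← var_mul hf h0 hU fun s e => (hp s).ne' (by rw [e, zero_re])]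
  congr 1
  funext s
  rw [mul_div_cancel₀ _ (h0 s)]

theorem wind_quot (hθ : IsTheta θ) (z w : ℂ) : θ (z - w) / (z - w) = θ (w - z) / (w - z) := by
  rw [wind_swap hθ, ← neg_sub w z, neg_div_neg_eq]

theorem var_shift (hθ : IsTheta θ) (hf : Continuous f) (h : ∀ s x, f s ≠ lat x) (x : ℤ × ℤ) :
    var (fun s => θ (f s - lat x)) =
      var (fun s => θ (f s)) + 2 * π * x.2 * ((f 1).re - (f 0).re) := by
  obtain ⟨c, hc, h1⟩ := wind_shift1 hθ x.1
  obtain ⟨d, hd, h2⟩ := wind_shiftI hθ x.2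
  have e : ∀ s, θ (f s - lat x) =
      c * d * (exp (2 * π * x.2 * (f s).re * Complex.I) * θ (f s)) := fun s => by
    rw [show f s - lat x = f s - x.2 * Complex.I - x.1 by rw [lat]; ring, h1, h2, mul_assoc c]
  have hL : Continuous fun s => (2 * π * x.2 * (f s).re * Complex.I : ℂ) := by fun_prop
  have hc1 : Continuous fun s => θ (f s) := hθ.cont.comp hf
  have hn : ∀ s, θ (f s) ≠ 0 := fun s => wind_ne hθ (h s)
  simp only [e]
  rw [var_const_mul (f := fun s => exp (2 * π * x.2 * (f s).re * Complex.I) * θ (f s))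
    (hL.cexp.mul hc1) (fun s => mul_ne_zero (exp_ne_zero _) (hn s))
    (mul_ne_zero hc hd), var_mul hL.cexp (fun s => exp_ne_zero _) hc1 hn,
    var_eq hL fun _ => rfl]
  simp
  ring

theorem bdT_zero (hθ : IsTheta θ) (hf : Continuous f) (hg : Continuous g)
    (h : ∀ s t x, f s - g t ≠ lat x) : bdT θ f g = 0 := by
  have hc := hθ.cont
  obtain ⟨L, hL, hL'⟩ := exists_log2 (f := fun p => θ (f p.1 - g p.2)) (by fun_prop)
    (fun p => wind_ne hθ (h _ _))
  have k : ∀ a : I, var (fun t => θ (g t - f a)) = (L (a, 1)).im - (L (a, 0)).im := fun a => by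
    rw [var_eq (L := fun t => L (a, t) + π * Complex.I) (by fun_prop)
      (fun t => by rw [exp_add, hL', exp_pi_mul_I, wind_swap hθ (g t)]; ring)]
    simp
  rw [bdT, k, k, var_eq (L := fun s => L (s, 0)) (by fun_prop) (fun s => hL' _),
    var_eq (L := fun s => L (s, 1)) (by fun_prop) (fun s => hL' _)]
  ring

theorem bdT_int (hθ : IsTheta θ) (hf : Continuous f) (hg : Continuous g)
    (h0 : ∀ s x, f s - g 0 ≠ lat x) (h1 : ∀ s x, f s - g 1 ≠ lat x)
    (k0 : ∀ t x, g t - f 0 ≠ lat x) (k1 : ∀ t x, g t - f 1 ≠ lat x) :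
    ∃ n : ℤ, bdT θ f g = 2 * π * n := by
  have hc := hθ.cont
  exact wind_square (by fun_prop) (by fun_prop) (by fun_prop) (by fun_prop)
    (fun s => wind_ne hθ (h0 s)) (fun s => wind_ne hθ (h1 s)) (fun s => wind_ne hθ (k1 s))
    (fun s => wind_ne hθ (k0 s)) (wind_swap hθ _ _) (wind_swap hθ _ _) (wind_swap hθ _ _)
    (wind_swap hθ _ _)

/-- Two paths from a common start that meet nowhere else on the torus. -/
theorem cornerT (hθ : IsTheta θ) (hf : Continuous f) (hg : Continuous g) {u : ℂ} {ε : ℝ}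
    (hε : 0 < ε) (hε' : ε < 1 / 4) {a b : I} (f0 : f 0 = u) (g0 : g 0 = u)
    (h : ∀ s t x, f s - g t = lat x → s = 0 ∧ t = 0)
    (ha : ‖f a - u‖ = ε) (hb : ‖g b - u‖ = ε) (ha' : ∀ s, s ≤ a → ‖f s - u‖ ≤ ε)
    (hb' : ∀ t, t ≤ b → ‖g t - u‖ ≤ ε) :
    arg (f a - u) ≠ arg (g b - u) ∧
    (var (fun s => θ (f (max s a) - u)) + arg (f a - u) + arg (θ (f a - u) / (f a - u))) -
      var (fun s => θ (f s - g 1)) + var (fun t => θ (g t - f 1)) -
      (var (fun t => θ (g (max t b) - u)) + arg (g b - u) + arg (θ (g b - u) / (g b - u))) =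
      if arg (g b - u) < arg (f a - u) then π else -π := by
  have hc := hθ.cont
  have h' : ∀ s t, f s = g t → s = 0 ∧ t = 0 := fun s t e =>
    h s t 0 (by rw [e, sub_self, wind_lat_zero])
  have h'' : ∀ s t x, g t - f s = lat x → s = 0 ∧ t = 0 := fun s t x e =>
    h s t (-x) (by rw [wind_lat_neg, ← e, neg_sub])
  have a0 : a ≠ 0 := by rintro rfl; rw [f0, sub_self, norm_zero] at ha; exact hε.ne ha
  have b0 : b ≠ 0 := by rintro rfl; rw [g0, sub_self, norm_zero] at hb; exact hε.ne hb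
  have ma : ∀ s : I, max s a ≠ 0 := fun s e => a0 (le_antisymm (e ▸ le_max_right s a) nonneg')
  have mb : ∀ s : I, max s b ≠ 0 := fun s e => b0 (le_antisymm (e ▸ le_max_right s b) nonneg')
  have z1 := bdT_zero hθ (f := fun s => f (max s a)) (g := g) (by fun_prop) hg
    fun s t x e => ma s (h _ _ _ e).1
  have z2 := bdT_zero hθ (f := fun s => f (min s a)) (g := fun t => g (max t b)) (by fun_prop)
    (by fun_prop) fun s t x e => mb t (h _ _ _ e).2
  simp only [bdT, min_eq_right (le_one' (t := a)), min_eq_left (nonneg' (t := a)),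
    max_eq_left (le_one' (t := a)), max_eq_right (nonneg' (t := a)),
    max_eq_left (le_one' (t := b)), max_eq_right (nonneg' (t := b)), f0, g0] at z1 z2
  have s1 := var_split (f := fun s => θ (f s - g 1)) (by fun_prop)
    (fun s => wind_ne hθ fun x e => one_ne_zero (h _ _ _ e).2) a
  have s2 := var_split (f := fun t => θ (g t - f a)) (by fun_prop)
    (fun t => wind_ne hθ fun x e => a0 (h'' _ _ _ e).1) b
  have h1 := head_var (f := fun s => f (min s a)) (p := f a) (by fun_prop) hb hε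
    (fun s => ha' _ (min_le_right _ _)) (fun s e => b0 (h' _ _ e).2)
    (by rw [min_eq_left nonneg', f0]) (by rw [min_eq_right le_one'])
  have h2 := head_var (f := fun t => g (min t b)) (p := g b) (by fun_prop) ha hε
    (fun s => hb' _ (min_le_right _ _)) (fun s e => a0 (h' _ _ e.symm).1)
    (by rw [min_eq_left nonneg', g0]) (by rw [min_eq_right le_one'])
  have tri : ∀ p q : ℂ, ‖p - u‖ ≤ ε → ‖q - u‖ = ε → ‖p - q‖ < 1 / 2 := fun p q hp hq => by
    have := norm_sub_le (p - u) (q - u)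
    rw [sub_sub_sub_cancel_right] at this
    linarith
  have t1 := wind_head hθ (f := fun s => f (min s a) - g b) (by fun_prop)
    (fun s e => b0 (h' _ _ (sub_eq_zero.1 e)).2) fun s => tri _ _ (ha' _ (min_le_right _ _)) hb
  have t2 := wind_head hθ (f := fun t => g (min t b) - f a) (by fun_prop)
    (fun s e => a0 (h' _ _ (sub_eq_zero.1 e).symm).1)
    fun s => tri _ _ (hb' _ (min_le_right _ _)) ha
  simp only [min_eq_right (le_one' (t := a)), min_eq_left (nonneg' (t := a)),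
    min_eq_right (le_one' (t := b)), min_eq_left (nonneg' (t := b)), f0, g0] at t1 t2
  rw [wind_quot hθ u] at t1 t2
  rw [wind_quot hθ (g b) (f a)] at t2
  have hx : f a - u ≠ 0 := by rw [← norm_pos_iff, ha]; exact hε
  have hy : g b - u ≠ 0 := by rw [← norm_pos_iff, hb]; exact hε
  have hne : arg (f a - u) ≠ arg (g b - u) := fun e =>
    a0 (h' a b (sub_left_inj.1 (ext_norm_arg (ha.trans hb.symm) e))).1
  refine ⟨hne, ?_⟩
  split_ifs with c
  · have := arg_corner hx (ha.trans hb.symm) c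
    linarith
  · have := arg_corner hy (hb.trans ha.symm) (lt_of_le_of_ne (not_lt.1 c) hne)
    linarith

end Pool.Agent.MP_d7736f_co.TB

end

section

/-!
From a clean drawing on the torus to the algebraic model.
-/

namespace Pool.Agent.MP_d7736f_co.TB

open Complex Set Topology unitInterval LB
open scoped Real

theorem first_exit {f : I → ℂ} (hf : Continuous f) {u : ℂ} {ε : ℝ} (hε : 0 < ε) (f0 : f 0 = u)
    (f1 : ε < ‖f 1 - u‖) : ∃ a : I, ‖f a - u‖ = ε ∧ ∀ s, s ≤ a → ‖f s - u‖ ≤ ε := by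
  have hc : Continuous fun s => ‖f s - u‖ := by fun_prop
  obtain ⟨a, ha, hmin⟩ := (isClosed_le continuous_const hc (f := fun _ => ε)).isCompact.exists_isLeast
    ⟨1, f1.le⟩
  have h2 : ∀ s, s ≤ a → ‖f s - u‖ ≤ ε := fun s hs => by
    by_contra hlt
    obtain ⟨t, ht, e⟩ := intermediate_value_Icc (nonneg' (t := s)) hc.continuousOn
      (show ε ∈ Icc ‖f 0 - u‖ ‖f s - u‖ from ⟨by simp [f0, hε.le], (not_le.1 hlt).le⟩)
    have h3 : a ≤ t := hmin (show ε ≤ ‖f t - u‖ from e.ge)
    have h4 : t = s := le_antisymm ht.2 (hs.trans h3)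
    rw [h4] at e
    exact hlt e.le
  exact ⟨a, le_antisymm (h2 a le_rfl) ha, h2⟩

theorem lat_add_mo (x y : ℤ × ℤ) : lat (x + y) = lat x + lat y := by
  simp only [lat, Prod.fst_add, Prod.snd_add]
  push_cast
  ring

namespace Lifts

variable {V : Type} (L : Lifts V)

theorem exists_exit [Finite V] : ∃ (ε : V → ℝ) (t : V → V → I), (∀ u, 0 < ε u ∧ ε u < 1 / 4) ∧
    ∀ u v, u ≠ v → ‖L.G u v (t u v) - L.z u‖ = ε u ∧
      ∀ s, s ≤ t u v → ‖L.G u v s - L.z u‖ ≤ ε u := by
  have h1 : ∀ u, ∃ ε : ℝ, (0 < ε ∧ ε < 1 / 4) ∧ ∀ v, u ≠ v → ε < ‖L.G u v 1 - L.z u‖ := fun u => by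
    have : ∀ᶠ ε in 𝓝[>] (0 : ℝ), ∀ v, u ≠ v → ε < ‖L.G u v 1 - L.z u‖ := by
      rw [Filter.eventually_all]
      intro v
      by_cases h : u = v
      · exact Filter.Eventually.of_forall fun _ h' => absurd h h'
      have hp : 0 < ‖L.G u v 1 - L.z u‖ := by
        rw [norm_pos_iff]
        intro e
        rcases L.vert u v u 1 0 h (by rw [e]; simp [lat]) with h' | h'
        · exact one_ne_zero h'.2
        · exact h h'.1
      exact (Filter.Eventually.filter_mono nhdsWithin_le_nhds (gt_mem_nhds hp)).mono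
        fun _ h' _ => h'
    obtain ⟨ε, h, h'⟩ := (this.and (Ioo_mem_nhdsGT (show (0 : ℝ) < 1 / 4 by norm_num))).exists
    exact ⟨ε, h', h⟩
  choose ε hε hε' using h1
  have h2 : ∀ u v, ∃ t : I, u ≠ v → ‖L.G u v t - L.z u‖ = ε u ∧
      ∀ s, s ≤ t → ‖L.G u v s - L.z u‖ ≤ ε u := fun u v => by
    by_cases h : u = v
    · exact ⟨0, fun h' => absurd h h'⟩
    obtain ⟨a, ha⟩ := first_exit (L.cont u v h) (hε u).1 (L.G0 u v h) (hε' u v h)
    exact ⟨a, fun _ => ha⟩
  choose t ht using h2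
  exact ⟨ε, t, hε, ht⟩

variable (θ : ℂ → ℂ) (t : V → V → I)

/-- The horizontal displacement of an edge. -/
noncomputable def dx (u v : V) : ℝ := (L.z v).re + (L.h u v).1 - (L.z u).re

/-- The correction term. -/
noncomputable def cor (u v w : V) : ℝ := (L.h u v).2 * L.dx u v - 2 * (L.h u v).2 * (L.z w).re

/-- The term of an edge at its own start. -/
noncomputable def own (u v : V) : ℝ :=
  (var (fun s => θ (L.G u v (max s (t u v)) - L.z u)) + arg (L.G u v (t u v) - L.z u) +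
    arg (θ (L.G u v (t u v) - L.z u) / (L.G u v (t u v) - L.z u))) / π + L.cor u v u

/-- The term of an edge at another point. -/
noncomputable def gen (u v w : V) : ℝ := var (fun s => θ (L.G u v s - L.z w)) / π + L.cor u v w

open Classical in
/-- All terms. -/
noncomputable def a (u v w : V) : ℝ :=
  if w = u then L.own θ t u v else if w = v then -L.own θ t v u else L.gen θ u v w

variable {θ} {u v w y : V}

theorem off (h : u ≠ v) (h1 : u ≠ w) (h2 : v ≠ w) (s : I) (x : ℤ × ℤ) :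
    L.G u v s - L.z w ≠ lat x := fun e =>
  (L.vert u v w s x h e).elim (fun k => h1 k.1.symm) fun k => h2 k.1.symm

theorem off' (h : u ≠ v) (h1 : u ≠ w) (h2 : v ≠ w) (c : ℤ × ℤ) (s : I) (x : ℤ × ℤ) :
    L.G u v s - (L.z w + lat c) ≠ lat x := fun e =>
  L.off h h1 h2 s (x + c) (by rw [lat_add_mo, ← e]; ring)

theorem a_gen (h1 : u ≠ w) (h2 : v ≠ w) : L.a θ t u v w = L.gen θ u v w := by
  rw [a, if_neg h1.symm, if_neg h2.symm]

theorem shift (hθ : IsTheta θ) (h : u ≠ v) (h1 : u ≠ w) (h2 : v ≠ w) (x : ℤ × ℤ) :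
    var (fun s => θ (L.G u v s - (L.z w + lat x))) =
      var (fun s => θ (L.G u v s - L.z w)) + 2 * π * x.2 * L.dx u v := by
  have := var_shift hθ (f := fun s => L.G u v s - L.z w) ((L.cont u v h).sub continuous_const)
    (L.off h h1 h2) x
  simp only [sub_sub] at this
  rw [this, L.G0 u v h, L.G1 u v h, dx]
  simp only [lat, sub_re, add_re, mul_re, intCast_re, intCast_im, I_re, I_im]
  ring

theorem a_rev (hθ : IsTheta θ) (u v w : V) (h : u ≠ v) : L.a θ t v u w = -L.a θ t u v w := by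
  by_cases h1 : v = w
  · subst h1
    rw [a, a, if_pos rfl, if_neg h.symm, if_pos rfl, neg_neg]
  by_cases h2 : u = w
  · subst h2
    rw [a, a, if_neg h, if_pos rfl, if_pos rfl]
  have e : (fun s => θ (L.G v u s - L.z w)) =
      fun s => (fun s => θ (L.G u v s - (L.z w + lat (L.h u v)))) (σ s) :=
    funext fun s => by rw [L.rev u v s h, sub_sub, add_comm]
  rw [L.a_gen t h1 h2, L.a_gen t h2 h1, gen, gen, e,
    var_rev (f := fun s => θ (L.G u v s - (L.z w + lat (L.h u v))))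
      (hθ.cont.comp ((L.cont u v h).sub continuous_const))
      (fun s k => (hθ.zero _ k).elim fun x hx => L.off' h h2 h1 _ s x hx), L.shift hθ h h2 h1]
  simp only [cor, dx, L.h_rev u v, Prod.fst_neg, Prod.snd_neg]
  push_cast
  field_simp
  ring

theorem tpair_eq (hθ : IsTheta θ) (h : Dist4 u v w y) :
    tpair L.h (L.a θ t) u v w y = bdT θ (L.G u v) (L.G w y) / π := by
  obtain ⟨h1, h2, h3, h4, h5, h6⟩ := h
  rw [tpair, bdT, L.a_gen t h2 h4, L.a_gen t h3 h5, L.a_gen t h4.symm h5.symm,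
    L.a_gen t h2.symm h3.symm, L.G0 _ _ h1, L.G0 _ _ h6, L.G1 _ _ h1, L.G1 _ _ h6,
    L.shift hθ h1 h3 h5, L.shift hθ h6 h4.symm h5.symm]
  simp only [gen, cor, dx, om]
  push_cast
  field_simp
  ring

end Lifts

theorem Lifts.exists_model {V : Type} [Finite V] (L : Lifts V) : ∃ M : TModel V,
    ∀ u v w y, Dist4 u v w y → M.D u v w y ≠ 0 → ∃ s t x, L.G u v s - L.G w y t = lat x := by
  obtain ⟨θ, hθ⟩ := exists_theta
  obtain ⟨ε, t, hε, ht⟩ := L.exists_exit
  have hc := fun u v w (h : u ≠ v) (h' : u ≠ w) (h'' : v ≠ w) =>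
    cornerT hθ (L.cont u v h) (L.cont u w h') (hε u).1 (hε u).2 (L.G0 u v h) (L.G0 u w h')
      (fun s s' x e => L.adj u v w s s' x h h' h'' e) (ht u v h).1 (ht u w h').1
      (ht u v h).2 (ht u w h').2
  refine ⟨⟨L.h, fun u v => arg (L.G u v (t u v) - L.z u), L.a θ t, L.h_rev,
    fun u v w h h' h'' => (hc u v w h h' h'').1, L.a_rev t hθ, fun u v w h h' h'' => ?_,
    fun u v w y h => ?_⟩, fun u v w y h hD => ?_⟩
  · have := (hc u v w h h' h'').2
    rw [L.G1 _ _ h, L.G1 _ _ h', L.shift hθ h h' h'', L.shift hθ h' h h''.symm] at this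
    rw [tpair, L.a_gen t h' h'', L.a_gen t h h''.symm, a, a, if_pos rfl, if_pos rfl]
    simp only [own, gen, cor, dx, om] at this ⊢
    push_cast
    have hp := Real.pi_ne_zero
    split_ifs at this ⊢ with c
    · field_simp; linarith
    · field_simp; linarith
  · rw [L.tpair_eq t hθ h]
    obtain ⟨h1, h2, h3, h4, h5, h6⟩ := h
    obtain ⟨n, hn⟩ := bdT_int hθ (L.cont u v h1) (L.cont w y h6)
      (by rw [L.G0 _ _ h6]; exact L.off h1 h2 h4) (by rw [L.G1 _ _ h6]; exact L.off' h1 h3 h5 _)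
      (by rw [L.G0 _ _ h1]; exact L.off h6 h2.symm h3.symm)
      (by rw [L.G1 _ _ h1]; exact L.off' h6 h4.symm h5.symm _)
    exact ⟨n, by rw [hn]; field_simp⟩
  · by_contra hn
    push Not at hn
    apply hD
    rw [TModel.D, L.tpair_eq t hθ h, bdT_zero hθ (L.cont u v h.1) (L.cont w y h.2.2.2.2.2) hn,
      zero_div]

theorem model_of_clean {v : ℕ} (D : Drawing Torus v) (hD : Clean D) :
    ∃ M : TModel (Fin v), ∀ a b c d, Dist4 a b c d →
      (M.x a b c d : ℕ∞) ≤ (tr D a b ∩ tr D c d).encard := by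
  obtain ⟨L, htr⟩ := exists_lifts D hD
  obtain ⟨M, hM⟩ := L.exists_model
  refine ⟨M, fun a b c d h => ?_⟩
  rw [TModel.x]
  split_ifs with c0
  · simp
  · obtain ⟨s, t, x, k⟩ := hM a b c d h c0
    have h1 := htr a b s h.1
    have h2 := htr c d t h.2.2.2.2.2
    rw [← prj_eq_iff.2 ⟨x, k⟩] at h2
    simpa using Set.one_le_encard_iff_nonempty.2 (⟨_, h1, h2⟩ : (tr D a b ∩ tr D c d).Nonempty)

end Pool.Agent.MP_d7736f_co.TB

end
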