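import Pool.Agent.Mg.Fd7736fq.Gfaf854

set_option linter.all false

section

/-!
Injective paths inside sets, and chords of a circle.
-/

namespace Pool.Agent.MP_d7736f_co.LB

open Set Topology unitInterval

variable {S : Type} [TopologicalSpace S] {x y z : S} {A B : Set S}

theorem ArcIn.mono (h : ArcIn x y A) (hAB : A ⊆ B) : ArcIn x y B := by
  obtain ⟨γ, h1, h2⟩ := h
  exact ⟨γ, h1, h2.trans hAB⟩

theorem ArcIn.symm (h : ArcIn x y A) : ArcIn y x A := by
  obtain ⟨γ, h1, h2⟩ := h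
  refine ⟨γ.symm, fun s t hst => ?_, by rwa [Path.symm_range]⟩
  exact unitInterval.symm_bijective.1 (h1 hst)

theorem arc_of_fun {g : I → S} (hc : Continuous g) (hi : Function.Injective g) (h0 : g 0 = x)
    (h1 : g 1 = y) (hA : range g ⊆ A) : ArcIn x y A :=
  ⟨⟨⟨g, hc⟩, h0, h1⟩, hi, hA⟩

theorem arc_join (h1 : ArcIn x y A) (h2 : ArcIn y z B) (h : ∀ w ∈ A, w ∈ B → w = y) :
    ArcIn x z (A ∪ B) := by
  obtain ⟨a, ha, hA⟩ := h1
  obtain ⟨b, hb, hB⟩ := h2
  have key : ∀ u v : I, a u = b v → v = 0 := by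
    intro u v huv
    apply hb
    rw [b.source]
    exact h _ (huv ▸ hA (mem_range_self u)) (hB (mem_range_self v))
  refine ⟨a.trans b, fun u v huv => ?_, by
    rw [Path.trans_range]
    exact union_subset_union hA hB⟩
  rw [Path.trans_apply, Path.trans_apply] at huv
  apply Subtype.ext
  split_ifs at huv with h3 h4 h4
  · have : 2 * (u : ℝ) = 2 * v := congrArg Subtype.val (ha huv)
    linarith
  · have : 2 * (v : ℝ) - 1 = 0 := congrArg Subtype.val (key _ _ huv)
    exact absurd (by linarith) h4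
  · have : 2 * (u : ℝ) - 1 = 0 := congrArg Subtype.val (key _ _ huv.symm)
    exact absurd (by linarith) h3
  · have : 2 * (u : ℝ) - 1 = 2 * v - 1 := congrArg Subtype.val (hb huv)
    linarith

theorem arc_sub_aux (γ : Path x y) (hγ : Function.Injective γ) {s t : I} (h : s < t) :
    ArcIn (γ s) (γ t) (γ '' Icc s t) := by
  have hst : (0 : ℝ) < t - s := sub_pos.2 h
  have h1 : ∀ u : I, (s : ℝ) ≤ s + u * (t - s) := fun u =>
    le_add_of_nonneg_right (mul_nonneg u.2.1 hst.le)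
  have h2 : ∀ u : I, (s : ℝ) + u * (t - s) ≤ t := fun u => by
    have := mul_le_mul_of_nonneg_right u.2.2 hst.le
    linarith
  let k : I → I := fun u => ⟨s + u * (t - s), s.2.1.trans (h1 u), (h2 u).trans t.2.2⟩
  have hk : Continuous k := by
    apply Continuous.subtype_mk
    fun_prop
  refine arc_of_fun (g := fun u => γ (k u)) (γ.continuous.comp hk) (fun u v huv => ?_) ?_ ?_ ?_
  · have h3 : (s : ℝ) + u * (t - s) = s + v * (t - s) := congrArg Subtype.val (hγ huv)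
    exact Subtype.ext (mul_right_cancel₀ hst.ne' (add_left_cancel h3))
  · congr 1
    apply Subtype.ext
    simp [k]
  · congr 1
    apply Subtype.ext
    simp [k]
  · rintro _ ⟨u, rfl⟩
    exact ⟨k u, ⟨h1 u, h2 u⟩, rfl⟩

theorem ArcIn.trans [T2Space S] (h1 : ArcIn x y A) (h2 : ArcIn y z B) (hxz : x ≠ z) :
    ArcIn x z (A ∪ B) := by
  obtain ⟨a, ha, hA⟩ := h1
  obtain ⟨b, hb, hB⟩ := h2
  have hK : IsClosed (a ⁻¹' range b) :=
    (isCompact_range b.continuous).isClosed.preimage a.continuous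
  obtain ⟨s, ⟨t, hst⟩, hs⟩ := hK.isCompact.exists_isLeast ⟨1, 0, by rw [a.target, b.source]⟩
  have hA' : a '' Icc 0 s ⊆ A := (image_subset_range _ _).trans hA
  have hB' : b '' Icc t 1 ⊆ B := (image_subset_range _ _).trans hB
  rcases (le_one' (t := t)).lt_or_eq with ht | ht
  · have e2 := arc_sub_aux b hb ht
    rw [b.target, hst] at e2
    rcases (nonneg' (t := s)).lt_or_eq with hs0 | hs0
    · have e1 := arc_sub_aux a ha hs0
      rw [a.source] at e1
      refine (arc_join e1 e2 ?_).mono (union_subset_union hA' hB')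
      rintro _ ⟨u, hu, rfl⟩ ⟨v, -, hv⟩
      rw [le_antisymm hu.2 (hs ⟨v, hv⟩)]
    · rw [← hs0, a.source] at e2
      exact e2.mono (hB'.trans subset_union_right)
  · rw [ht, b.target] at hst
    rcases (nonneg' (t := s)).lt_or_eq with hs0 | hs0
    · have e1 := arc_sub_aux a ha hs0
      rw [a.source, ← hst] at e1
      exact e1.mono (hA'.trans subset_union_left)
    · rw [← hs0, a.source] at hst
      exact absurd hst.symm hxz

theorem arcIn_sub (γ : Path x y) (hγ : Function.Injective γ) {s t : I} (h : s < t) :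
    ArcIn (γ s) (γ t) (γ '' Icc s t) := by
  exact arc_sub_aux γ hγ h

theorem arcIn_chord {ψ : ℂ → S} (hc : Continuous ψ) (hi : Function.Injective ψ) {p q : ℂ}
    (h : p ≠ q) : ArcIn (ψ p) (ψ q) (ψ '' segment ℝ p q) := by
  refine arc_of_fun (g := fun u : I => ψ (p + (u : ℝ) • (q - p))) (hc.comp (by fun_prop))
    (fun u v huv => ?_) (by simp) (by simp) ?_
  · have h3 : (u : ℝ) • (q - p) = (v : ℝ) • (q - p) := add_left_cancel (hi huv)
    exact Subtype.ext (smul_left_injective ℝ (sub_ne_zero.2 h.symm) h3)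
  · rintro _ ⟨u, rfl⟩
    refine ⟨_, ?_, rfl⟩
    rw [segment_eq_image']
    exact ⟨u, u.2, rfl⟩

theorem chord_norm {r : ℝ} {p q w : ℂ} (hp : ‖p‖ = r) (hq : ‖q‖ = r) (hw : w ∈ segment ℝ p q) :
    ‖w‖ ≤ r := by
  have := (convex_closedBall (0 : ℂ) r).segment_subset (mem_closedBall_zero_iff.2 hp.le)
    (mem_closedBall_zero_iff.2 hq.le) hw
  exact mem_closedBall_zero_iff.1 this

/-- The signed area of a triangle (doubled). -/
def arcDet (p q w : ℂ) : ℝ := (q.re - p.re) * (w.im - p.im) - (q.im - p.im) * (w.re - p.re)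

theorem arcDet_left (p q : ℂ) : arcDet p q p = 0 := by
  simp [arcDet]

theorem arcDet_right (p q : ℂ) : arcDet p q q = 0 := by
  unfold arcDet
  ring

theorem arcDet_aff (p q u w : ℂ) {a b : ℝ} (h : a + b = 1) :
    arcDet p q (a • u + b • w) = a * arcDet p q u + b * arcDet p q w := by
  have hb : b = 1 - a := by linarith
  subst hb
  simp only [arcDet, Complex.add_re, Complex.add_im, Complex.smul_re, Complex.smul_im, smul_eq_mul]
  ring

theorem arcDet_seg {p q w : ℂ} (h : w ∈ segment ℝ p q) : arcDet p q w = 0 := by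
  obtain ⟨a, b, -, -, hab, rfl⟩ := h
  rw [arcDet_aff _ _ _ _ hab, arcDet_left, arcDet_right]
  ring

theorem arcDet_ne {r : ℝ} {p q w : ℂ} (hp : ‖p‖ = r) (hq : ‖q‖ = r) (hw : ‖w‖ = r) (hpq : p ≠ q)
    (hpw : p ≠ w) (hqw : q ≠ w) : arcDet p q w ≠ 0 := by
  intro h
  have e : ∀ u : ℂ, ‖u‖ = r → u.re ^ 2 + u.im ^ 2 = r ^ 2 := by
    intro u hu
    rw [← hu, Complex.sq_norm, Complex.normSq_apply]
    ring
  have e1 := e p hp
  have e2 := e q hq
  have e3 := e w hw
  unfold arcDet at h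
  have hD : 0 < (q.re - p.re) ^ 2 + (q.im - p.im) ^ 2 := by
    by_contra hn
    rw [not_lt] at hn
    have a1 : (q.re - p.re) ^ 2 = 0 := by nlinarith [sq_nonneg (q.re - p.re), sq_nonneg (q.im - p.im)]
    have a2 : (q.im - p.im) ^ 2 = 0 := by nlinarith [sq_nonneg (q.re - p.re), sq_nonneg (q.im - p.im)]
    apply hpq
    apply Complex.ext
    · have := pow_eq_zero_iff (two_ne_zero) |>.1 a1
      linarith
    · have := pow_eq_zero_iff (two_ne_zero) |>.1 a2
      linarith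
  obtain ⟨D, hDe⟩ : ∃ D, D = (q.re - p.re) ^ 2 + (q.im - p.im) ^ 2 := ⟨_, rfl⟩
  rw [← hDe] at hD
  obtain ⟨t, ht⟩ : ∃ t, t * D = (q.re - p.re) * (w.re - p.re) + (q.im - p.im) * (w.im - p.im) :=
    ⟨_, div_mul_cancel₀ _ hD.ne'⟩
  have hx : w.re = p.re + t * (q.re - p.re) := by
    apply mul_right_cancel₀ hD.ne'
    linear_combination (-(q.re - p.re)) * ht - (q.im - p.im) * h + (w.re - p.re) * hDe
  have hy : w.im = p.im + t * (q.im - p.im) := by
    apply mul_right_cancel₀ hD.ne'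
    linear_combination (-(q.im - p.im)) * ht + (q.re - p.re) * h + (w.im - p.im) * hDe
  have h4 : t * (t - 1) * D = 0 := by
    rw [hx, hy] at e3
    linear_combination e3 - (1 - t) * e1 - t * e2 + t * (t - 1) * hDe
  rcases mul_eq_zero.1 ((mul_eq_zero.1 h4).resolve_right hD.ne') with h5 | h5
  · apply hpw
    apply Complex.ext
    · rw [hx, h5]; ring
    · rw [hy, h5]; ring
  · have h6 : t = 1 := by linarith
    apply hqw
    apply Complex.ext
    · rw [hx, h6]; ring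
    · rw [hy, h6]; ring

theorem chord_subsingleton {r : ℝ} {p1 p2 p3 p4 : ℂ} (h1 : ‖p1‖ = r) (h2 : ‖p2‖ = r)
    (h3 : ‖p3‖ = r) (h4 : ‖p4‖ = r) (hd : Dist4 p1 p2 p3 p4) :
    (segment ℝ p1 p2 ∩ segment ℝ p3 p4).Subsingleton := by
  have _ := h4
  obtain ⟨d12, d13, -, d23, -, -⟩ := hd
  have n3 := arcDet_ne h1 h2 h3 d12 d13 d23
  rintro _ ⟨hx, a, b, -, -, hab, rfl⟩ _ ⟨hy, a', b', -, -, hab', rfl⟩
  have e1 := arcDet_seg hx
  have e2 := arcDet_seg hy
  rw [arcDet_aff _ _ _ _ hab] at e1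
  rw [arcDet_aff _ _ _ _ hab'] at e2
  have ha : a = 1 - b := by linarith
  have ha' : a' = 1 - b' := by linarith
  subst ha ha'
  have h5 : (b' - b) * arcDet p1 p2 p3 = 0 := by linear_combination b' * e1 - b * e2
  have h6 : b' = b := by
    have := (mul_eq_zero.1 h5).resolve_right n3
    linarith
  rw [h6]

theorem chord_swap {r : ℝ} {p1 p2 p3 p4 : ℂ} (h1 : ‖p1‖ = r) (h2 : ‖p2‖ = r)
    (h3 : ‖p3‖ = r) (h4 : ‖p4‖ = r) (hd : Dist4 p1 p2 p3 p4) :
    Disjoint (segment ℝ p1 p2) (segment ℝ p3 p4) ∨ Disjoint (segment ℝ p3 p2) (segment ℝ p1 p4) := by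
  obtain ⟨d12, d13, d14, d23, d24, -⟩ := hd
  have n3 := arcDet_ne h1 h2 h3 d12 d13 d23
  have n4 := arcDet_ne h1 h2 h4 d12 d14 d24
  by_contra hn
  rw [not_or, not_disjoint_iff, not_disjoint_iff] at hn
  obtain ⟨⟨_, hx, a, b, ha, hb, hab, rfl⟩, _, ⟨c, c', hc, -, hcc, rfl⟩, d', d, -, hd, hdd, hy⟩ := hn
  have e1 := arcDet_seg hx
  have e2 := congrArg (arcDet p1 p2) hy
  rw [arcDet_aff _ _ _ _ hab] at e1
  rw [arcDet_aff _ _ _ _ hcc, arcDet_aff _ _ _ _ hdd, arcDet_left, arcDet_right] at e2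
  generalize arcDet p1 p2 p3 = l3 at n3 e1 e2
  generalize arcDet p1 p2 p4 = l4 at n4 e1 e2
  have s3 : 0 < l3 ^ 2 := by positivity
  have s4 : 0 < l4 ^ 2 := by positivity
  have h5 : l3 * l4 ≤ 0 := by
    have : l3 * l4 = -(a * l4 ^ 2 * 0 + b * l4 ^ 2 + a * l3 ^ 2) + (a + b) * (l3 * l4) * 0 +
        (l3 + l4) * (a * l3 + b * l4) := by
      have ha' : a = 1 - b := by linarith
      subst ha'
      ring
    rw [this, e1]
    nlinarith [mul_nonneg ha s3.le, mul_nonneg hb s4.le]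
  have h6 : c = 0 := by
    have a1 : c * l3 ^ 2 = d * (l3 * l4) := by linear_combination (-l3) * e2
    have a2 : c * l3 ^ 2 ≤ 0 := by
      rw [a1]
      exact mul_nonpos_of_nonneg_of_nonpos hd h5
    exact le_antisymm (by
      by_contra h7
      rw [not_le] at h7
      exact absurd (mul_pos h7 s3) (not_lt.2 a2)) hc
  have h7 : d = 0 := by
    have : d * l4 = 0 := by
      rw [h6] at e2
      linarith
    exact (mul_eq_zero.1 this).resolve_right n4
  have h8 : c' = 1 := by linarith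
  have h9 : d' = 1 := by linarith
  rw [h6, h7, h8, h9] at hy
  apply d12
  simpa using hy

end Pool.Agent.MP_d7736f_co.LB

end

section

/-!
In a drawing with the least number of crossings, edges with a common end meet only in vertices.
-/

namespace Pool.Agent.MP_d7736f_co.LB

open Set Topology Metric unitInterval

variable {S : Type} [TopologicalSpace S] {v : ℕ}

theorem ArcIn.left_mem {x y : S} {A : Set S} (h : ArcIn x y A) : x ∈ A := by
  obtain ⟨γ, -, h⟩ := h
  exact h γ.source_mem_range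

theorem ArcIn.right_mem {x y : S} {A : Set S} (h : ArcIn x y A) : y ∈ A := by
  obtain ⟨γ, -, h⟩ := h
  exact h γ.target_mem_range

/-- The two outer pieces of an arc through the centre of a disc. -/
theorem surg_halves [T2Space S] {ψ : ℂ → S} (hψ : IsOpenEmbedding ψ) {r : ℝ} (hr : 0 < r)
    {x y : S} (γ : Path x y) (hγ : Function.Injective γ) (hx : x ∉ ψ '' closedBall 0 r)
    (hy : y ∉ ψ '' closedBall 0 r) (hq : ψ 0 ∈ range γ) :
    ∃ (H : Bool → Set S) (p : Bool → ℂ), (∀ b, ‖p b‖ = r) ∧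
      (∀ b, ArcIn (cond b y x) (ψ (p b)) (H b)) ∧ (∀ b, H b ⊆ range γ) ∧
      (∀ b, ∀ z ∈ H b, z ∈ ψ '' closedBall 0 r → z = ψ (p b)) ∧ Disjoint (H false) (H true) := by
  obtain ⟨s, t, p, p', hs, hst, ht, hp, hp', -, es, et, hout⟩ := cut_disc hψ hr γ hγ hx hy hq
  refine ⟨fun b => cond b (γ '' Icc t 1) (γ '' Icc 0 s), fun b => cond b p' p, ?_, ?_, ?_, ?_, ?_⟩
  · rintro (_ | _)
    · exact hp
    · exact hp'
  · rintro (_ | _)
    · have := arcIn_sub γ hγ hs
      rwa [γ.source, es] at this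
    · have := (arcIn_sub γ hγ ht).symm
      rwa [γ.target, et] at this
  · rintro (_ | _) <;> exact image_subset_range _ _
  · rintro (_ | _) z ⟨u, hu, rfl⟩ hz
    · rcases hu.2.eq_or_lt with rfl | h
      · exact es
      · exact absurd hz (hout u (Or.inl h))
    · rcases hu.1.eq_or_lt with rfl | h
      · exact et
      · exact absurd hz (hout u (Or.inr h))
  · refine disjoint_left.2 ?_
    rintro z ⟨u, hu, rfl⟩ ⟨u', hu', e⟩
    have := hγ e
    subst this
    exact absurd (hu'.1.trans hu.2) (not_le.2 hst)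

/-- The ends of an edge. -/
def surg_en (k : Edge v × Bool) : Fin v := cond k.2 k.1.1.2 k.1.1.1

theorem surg_core [T2Space S] (D : Drawing S v) (hfin : D.crossings ≠ ⊤) {ψ : ℂ → S}
    (hψ : IsOpenEmbedding ψ) (hq : ψ 0 ∉ range D.pt) {r : ℝ} (hr : 0 < r)
    (d1 : ∀ w, D.pt w ∉ ψ '' closedBall 0 r)
    (d2 : ∀ e, ψ 0 ∉ range (D.arc e) → ∀ x ∈ range (D.arc e), x ∉ ψ '' closedBall 0 r)
    (H : Edge v × Bool → Set S) (p : Edge v × Bool → ℂ)
    (h1 : ∀ k, ψ 0 ∈ range (D.arc k.1) → ‖p k‖ = r)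
    (h2 : ∀ k, ψ 0 ∈ range (D.arc k.1) → ArcIn (D.pt (surg_en k)) (ψ (p k)) (H k))
    (h3 : ∀ k, ψ 0 ∈ range (D.arc k.1) → H k ⊆ range (D.arc k.1))
    (h4 : ∀ k, ψ 0 ∈ range (D.arc k.1) → ∀ z ∈ H k, z ∈ ψ '' closedBall 0 r → z = ψ (p k))
    (h5 : ∀ k k', ψ 0 ∈ range (D.arc k.1) → k.1 = k'.1 → ∀ z ∈ H k, z ∈ H k' → k = k')
    (h6 : ∀ k k', ψ 0 ∈ range (D.arc k.1) → ψ 0 ∈ range (D.arc k'.1) → p k = p k' → k = k')
    (π : Equiv.Perm (Edge v × Bool))
    (hT : ∀ k, ψ 0 ∈ range (D.arc k.1) → ψ 0 ∈ range (D.arc (π k).1))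
    (hen : ∀ k, surg_en (π k) = surg_en k) {e f : Edge v} (hef : e ≠ f)
    (hqe : ψ 0 ∈ range (D.arc e)) (hqf : ψ 0 ∈ range (D.arc f))
    (hd : Disjoint (segment ℝ (p (π (e, false))) (p (π (e, true))))
      (segment ℝ (p (π (f, false))) (p (π (f, true))))) :
    ∃ D' : Drawing S v, D'.crossings < D.crossings := by
  classical
  set B := ψ '' closedBall 0 r with hB
  let T : Edge v → Prop := fun g => ψ 0 ∈ range (D.arc g)
  let C : Edge v → Set ℂ := fun g => segment ℝ (p (π (g, false))) (p (π (g, true)))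
  let A : Edge v → Set S := fun g =>
    if T g then (H (π (g, false)) ∪ ψ '' C g) ∪ H (π (g, true)) else range (D.arc g)
  let o : S → Edge v → Edge v := fun x g =>
    if T g then (if x ∈ H (π (g, false)) then (π (g, false)).1 else (π (g, true)).1) else g
  have hA1 : ∀ g, T g → A g = (H (π (g, false)) ∪ ψ '' C g) ∪ H (π (g, true)) := fun g hg =>
    if_pos hg
  have hA0 : ∀ g, ¬ T g → A g = range (D.arc g) := fun g hg => if_neg hg
  have hT' : ∀ g b, T g → T (π (g, b)).1 := fun g b hg => hT (g, b) hg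
  have hpB : ∀ k, T k.1 → ψ (p k) ∈ B := fun k hk =>
    ⟨p k, by rw [mem_closedBall_zero_iff, h1 k hk], rfl⟩
  have hCB : ∀ g, T g → ψ '' C g ⊆ B := by
    rintro g hg _ ⟨w, hw, rfl⟩
    exact ⟨w, mem_closedBall_zero_iff.2
      (chord_norm (h1 _ (hT' g _ hg)) (h1 _ (hT' g _ hg)) hw), rfl⟩
  have hpne : ∀ g b g' b', T g → T g' → (g, b) ≠ (g', b') → p (π (g, b)) ≠ p (π (g', b')) :=
    fun g b g' b' hg hg' hne e => hne (π.injective (h6 _ _ (hT' g b hg) (hT' g' b' hg') e))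
  have hAB : ∀ g, T g → ∀ x ∈ A g, x ∈ B → x ∈ ψ '' C g := fun g hg x hx hxB => by
    rw [hA1 g hg] at hx
    rcases hx with (hx | hx) | hx
    · exact ⟨_, left_mem_segment _ _ _, (h4 _ (hT' g _ hg) x hx hxB).symm⟩
    · exact hx
    · exact ⟨_, right_mem_segment _ _ _, (h4 _ (hT' g _ hg) x hx hxB).symm⟩
  have hB1 : ∀ g, (A g ∩ B).Nonempty → T g := by
    rintro g ⟨x, hx, hxB⟩
    by_contra hg
    rw [hA0 g hg] at hx
    exact d2 g hg x hx hxB
  have hout : ∀ g, T g → ∀ x ∈ A g, x ∉ B → ∃ b, x ∈ H (π (g, b)) ∧ o x g = (π (g, b)).1 :=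
    fun g hg x hx hxB => by
      by_cases h : x ∈ H (π (g, false))
      · exact ⟨false, h, by simp only [o, if_pos hg, if_pos h]⟩
      · rw [hA1 g hg] at hx
        rcases hx with (hx | hx) | hx
        · exact absurd hx h
        · exact absurd (hCB g hg hx) hxB
        · exact ⟨true, hx, by simp only [o, if_pos hg, if_neg h]⟩
  have ho0 : ∀ x g, ¬ T g → o x g = g := fun x g hg => if_neg hg
  have hv : ∀ k, T k.1 → ∀ w, D.pt w ∈ H k → w = surg_en k := by
    rintro ⟨g, b⟩ hk w hw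
    rcases D.arc_avoid g w (h3 _ hk hw) with rfl | rfl
    · have := h5 (g, b) (g, false) hk rfl _ hw (h2 (g, false) hk).left_mem
      rw [this]
      rfl
    · have := h5 (g, b) (g, true) hk rfl _ hw (h2 (g, true) hk).left_mem
      rw [this]
      rfl
  refine redraw D hfin A B (ψ 0) o e f (fun g => ?_) (fun g w hw => ?_)
    ⟨0, mem_closedBall_self hr.le, rfl⟩ hq (fun x hxB _ g hx => ?_)
    (fun x hxB _ g g' hx hx' hoo => ?_) hB1 (fun g g' hne => ?_) hef hqe hqf ?_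
  · by_cases hg : T g
    · rw [hA1 g hg]
      have a1 := h2 _ (hT' g false hg)
      have a2 := h2 _ (hT' g true hg)
      rw [hen] at a1 a2
      have a3 : ArcIn (ψ (p (π (g, false)))) (ψ (p (π (g, true)))) (ψ '' C g) :=
        arcIn_chord hψ.continuous hψ.injective (hpne g false g true hg hg (by simp))
      refine (a1.trans a3 fun e' => d1 _ (e' ▸ hpB _ (hT' g true hg))).trans a2.symm ?_
      exact fun e' => g.2.ne (D.pt_inj e')
    · rw [hA0 g hg]
      exact ⟨D.arc g, D.arc_inj g, Subset.rfl⟩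
  · by_cases hg : T g
    · obtain ⟨b, hb, -⟩ := hout g hg _ hw (d1 w)
      have := hv _ (hT' g b hg) w hb
      rw [hen] at this
      cases b
      · exact Or.inl this
      · exact Or.inr this
    · rw [hA0 g hg] at hw
      exact D.arc_avoid g w hw
  · by_cases hg : T g
    · obtain ⟨b, hb, e'⟩ := hout g hg _ hx hxB
      rw [e']
      exact h3 _ (hT' g b hg) hb
    · rw [ho0 x g hg, ← hA0 g hg]
      exact hx
  · by_cases hg : T g <;> by_cases hg' : T g'
    · obtain ⟨b, hb, e1⟩ := hout g hg _ hx hxB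
      obtain ⟨b', hb', e2⟩ := hout g' hg' _ hx' hxB
      have := π.injective (h5 _ _ (hT' g b hg) (by rw [← e1, ← e2, hoo]) x hb hb')
      exact congrArg Prod.fst this
    · obtain ⟨b, -, e1⟩ := hout g hg _ hx hxB
      rw [ho0 x g' hg', e1] at hoo
      exact absurd (hoo ▸ hT' g b hg) hg'
    · obtain ⟨b, -, e1⟩ := hout g' hg' _ hx' hxB
      rw [ho0 x g hg, e1] at hoo
      exact absurd (hoo ▸ hT' g' b hg') hg
    · rwa [ho0 x g hg, ho0 x g' hg'] at hoo
  · rintro x ⟨⟨hx, hx'⟩, hxB⟩ y ⟨⟨hy, hy'⟩, hyB⟩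
    have hg := hB1 g ⟨x, hx, hxB⟩
    have hg' := hB1 g' ⟨x, hx', hxB⟩
    obtain ⟨a, ha, rfl⟩ := hAB g hg x hx hxB
    obtain ⟨a', ha', e1⟩ := hAB g' hg' _ hx' hxB
    obtain ⟨c, hc, rfl⟩ := hAB g hg y hy hyB
    obtain ⟨c', hc', e2⟩ := hAB g' hg' _ hy' hyB
    rw [hψ.injective e1] at ha'
    rw [hψ.injective e2] at hc'
    have hs := chord_subsingleton (h1 _ (hT' g false hg)) (h1 _ (hT' g true hg))
      (h1 _ (hT' g' false hg')) (h1 _ (hT' g' true hg'))
      ⟨hpne _ _ _ _ hg hg (by simp), hpne _ _ _ _ hg hg' (by simp [hne]),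
        hpne _ _ _ _ hg hg' (by simp), hpne _ _ _ _ hg hg' (by simp),
        hpne _ _ _ _ hg hg' (by simp [hne]), hpne _ _ _ _ hg' hg' (by simp)⟩
    rw [hs ⟨ha, ha'⟩ ⟨hc, hc'⟩]
  · refine eq_empty_of_forall_notMem ?_
    rintro x ⟨⟨hx, hx'⟩, hxB⟩
    obtain ⟨a, ha, rfl⟩ := hAB e hqe x hx hxB
    obtain ⟨a', ha', e1⟩ := hAB f hqf _ hx' hxB
    rw [hψ.injective e1] at ha'
    exact disjoint_left.1 hd ha ha'

theorem surg_seg (c : Bool → ℂ) (b : Bool) :
    segment ℝ (c false) (c true) = segment ℝ (c b) (c (!b)) := by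
  cases b
  · rfl
  · exact segment_symm _ _ _

theorem step [T2Space S] (hS : HasCharts S) (D : Drawing S v) (hfin : D.crossings ≠ ⊤)
    (h : ¬ Clean D) : ∃ D' : Drawing S v, D'.crossings < D.crossings := by
  classical
  unfold Clean at h
  push Not at h
  obtain ⟨e, f, hef, hadj, q, hqe, hqf, hq⟩ := h
  obtain ⟨ψ, hψ, rfl⟩ := hS q
  obtain ⟨r, hr, d1, d2, d3⟩ := local_disc D hfin hψ hq
  have key : ∀ g : Edge v, ∃ (H : Bool → Set S) (p : Bool → ℂ), ψ 0 ∈ range (D.arc g) →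
      (∀ b, ‖p b‖ = r) ∧ (∀ b, ArcIn (cond b (D.pt g.1.2) (D.pt g.1.1)) (ψ (p b)) (H b)) ∧
      (∀ b, H b ⊆ range (D.arc g)) ∧
      (∀ b, ∀ z ∈ H b, z ∈ ψ '' closedBall 0 r → z = ψ (p b)) ∧ Disjoint (H false) (H true) := by
    intro g
    by_cases hg : ψ 0 ∈ range (D.arc g)
    · obtain ⟨H, p, h⟩ := surg_halves hψ hr (D.arc g) (D.arc_inj g) (d1 _) (d1 _) hg
      exact ⟨H, p, fun _ => h⟩
    · exact ⟨fun _ => ∅, fun _ => 0, fun h => absurd h hg⟩
  choose H p hH using key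
  have h2 : ∀ k : Edge v × Bool, ψ 0 ∈ range (D.arc k.1) →
      ArcIn (D.pt (surg_en k)) (ψ (p k.1 k.2)) (H k.1 k.2) := by
    rintro ⟨g, _ | _⟩ hk
    · exact (hH g hk).2.1 false
    · exact (hH g hk).2.1 true
  have h5 : ∀ k k' : Edge v × Bool, ψ 0 ∈ range (D.arc k.1) → k.1 = k'.1 →
      ∀ z ∈ H k.1 k.2, z ∈ H k'.1 k'.2 → k = k' := by
    rintro ⟨g, b⟩ ⟨g', b'⟩ hk (rfl : g = g') z hz hz'
    have hd := disjoint_left.1 (hH g hk).2.2.2.2
    cases b <;> cases b'
    · rfl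
    · exact absurd hz' (hd hz)
    · exact absurd hz (hd hz')
    · rfl
  have h6 : ∀ k k' : Edge v × Bool, ψ 0 ∈ range (D.arc k.1) → ψ 0 ∈ range (D.arc k'.1) →
      p k.1 k.2 = p k'.1 k'.2 → k = k' := by
    intro k k' hk hk' e'
    have m1 := (h2 k hk).right_mem
    have m2 := (h2 k' hk').right_mem
    rw [← e'] at m2
    refine h5 k k' hk ?_ _ m1 m2
    by_contra hne
    have hn := (hH _ hk).1 k.2
    have := d3 _ _ hne _ ⟨_, by rw [mem_closedBall_zero_iff, hn], rfl⟩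
      ((hH _ hk).2.2.1 _ m1) ((hH _ hk').2.2.1 _ m2)
    rw [hψ.injective this, norm_zero] at hn
    exact hr.ne hn
  have core := surg_core D hfin hψ hq hr d1 d2 (fun k => H k.1 k.2) (fun k => p k.1 k.2)
    (fun k hk => (hH _ hk).1 _) h2 (fun k hk => (hH _ hk).2.2.1 _)
    (fun k hk => (hH _ hk).2.2.2.1 _) h5 h6
  obtain ⟨b, c, hbc⟩ : ∃ b c, surg_en (e, b) = surg_en (f, c) := by
    rcases hadj with h | h | h | h
    · exact ⟨false, false, h⟩
    · exact ⟨false, true, h⟩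
    · exact ⟨true, false, h⟩
    · exact ⟨true, true, h⟩
  have hne : ∀ g b g' b', ψ 0 ∈ range (D.arc g) → ψ 0 ∈ range (D.arc g') → (g, b) ≠ (g', b') →
      p g b ≠ p g' b' := fun g b g' b' hg hg' hne e' => hne (h6 (g, b) (g', b') hg hg' e')
  rcases chord_swap ((hH e hqe).1 b) ((hH e hqe).1 (!b)) ((hH f hqf).1 c) ((hH f hqf).1 (!c))
    ⟨hne _ _ _ _ hqe hqe (by simp), hne _ _ _ _ hqe hqf (by simp [hef]),
      hne _ _ _ _ hqe hqf (by simp [hef]), hne _ _ _ _ hqe hqf (by simp [hef]),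
      hne _ _ _ _ hqe hqf (by simp [hef]), hne _ _ _ _ hqf hqf (by simp)⟩ with hd | hd
  · refine core 1 (fun k hk => hk) (fun k => rfl) hef hqe hqf ?_
    rw [← surg_seg (p e) b, ← surg_seg (p f) c] at hd
    exact hd
  · refine core (Equiv.swap (e, b) (f, c)) (fun k hk => ?_) (fun k => ?_) hef hqe hqf ?_
    · by_cases k1 : k = (e, b)
      · rw [k1, Equiv.swap_apply_left]
        exact hqf
      by_cases k2 : k = (f, c)
      · rw [k2, Equiv.swap_apply_right]
        exact hqe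
      · rw [Equiv.swap_apply_of_ne_of_ne k1 k2]
        exact hk
    · rw [Equiv.swap_apply_def]
      split_ifs with h1 h2
      · rw [h1, hbc]
      · rw [h2, hbc]
      · rfl
    · rw [surg_seg (fun x => p (Equiv.swap (e, b) (f, c) (e, x)).1
          (Equiv.swap (e, b) (f, c) (e, x)).2) b,
        surg_seg (fun x => p (Equiv.swap (e, b) (f, c) (f, x)).1
          (Equiv.swap (e, b) (f, c) (f, x)).2) c,
        Equiv.swap_apply_left, Equiv.swap_apply_right,
        Equiv.swap_apply_of_ne_of_ne (x := (e, !b)) (by simp) (by simp [hef]),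
        Equiv.swap_apply_of_ne_of_ne (x := (f, !c)) (by simp [hef.symm]) (by simp)]
      exact hd

theorem exists_clean [T2Space S] (hS : HasCharts S) (hfin : crossingNumber S v ≠ ⊤) :
    ∃ D : Drawing S v, D.crossings = crossingNumber S v ∧ Clean D := by
  have hne : Nonempty (Drawing S v) := by
    by_contra h
    rw [not_nonempty_iff] at h
    exact hfin (iInf_of_empty _)
  obtain ⟨D, hD⟩ := ENat.exists_eq_iInf fun D : Drawing S v => D.crossings
  refine ⟨D, hD, ?_⟩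
  by_contra h
  obtain ⟨D', hD'⟩ := step hS D (by rw [hD]; exact hfin) h
  rw [hD] at hD'
  exact absurd (iInf_le (fun D : Drawing S v => D.crossings) D') (not_le.2 hD')

end Pool.Agent.MP_d7736f_co.LB

end
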