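import Pool.Agent.Mg.Fd7736fq.Gfaf854

set_option linter.all false

section

/-!
The algebraic model of a drawing on the projective plane.
-/

namespace Pool.Agent.MP_d7736f_co.LB

/-- The sign attached to a bit. -/
def pm (b : Bool) : ℝ := if b then -1 else 1

@[simp] theorem pm_true : pm true = -1 := rfl
@[simp] theorem pm_false : pm false = 1 := rfl

/-- The pairing of the lift of `u v` starting on the first sheet with the lift of `w z` starting
on sheet `b`. -/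
def pairing {V : Type} (sg : V → V → Bool) (a : V → V → V → Bool → ℝ) (u v w z : V) (b : Bool) :
    ℝ :=
  a u v w b - a u v z (xor b (sg w z)) + pm b * a w z v (xor (sg u v) b) - pm b * a w z u b

/-- The model: signs of edges, directions at vertices, variations of arguments. -/
structure RModel (V : Type) where
  sg : V → V → Bool
  ang : V → V → ℝ
  a : V → V → V → Bool → ℝ
  sg_symm : ∀ u v, sg u v = sg v u
  sg_self : ∀ u, sg u u = false
  ang_ne : ∀ u v w, u ≠ v → u ≠ w → v ≠ w → ang u v ≠ ang u w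
  rev : ∀ u v w b, u ≠ v → a v u w b = -pm (sg u v) * a u v w (xor b (sg u v))
  adj0 : ∀ u v w, u ≠ v → u ≠ w → v ≠ w →
    pairing sg a u v u w false = if ang u w < ang u v then 1 else -1
  adj1 : ∀ u v w, u ≠ v → u ≠ w → pairing sg a u v u w true = 0
  even : ∀ u v w z b, Dist4 u v w z → ∃ n : ℤ, pairing sg a u v w z b = 2 * n

namespace RModel

variable {V W : Type} (M : RModel V)

/-- The pairing of the model. -/
def D (u v w z : V) (b : Bool) : ℝ := pairing M.sg M.a u v w z b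

open Classical in
/-- The number of pairs of lifts that are forced to meet. -/
noncomputable def x (u v w z : V) : ℕ :=
  (if M.D u v w z false = 0 then 0 else 1) + (if M.D u v w z true = 0 then 0 else 1)

end RModel

end Pool.Agent.MP_d7736f_co.LB

end

section

/-!
The topology of the projective plane.
-/

namespace Pool.Agent.MP_d7736f_co.LB

open Set Topology

/-- The affine chart. -/
noncomputable def aff (c : ℂ) : ProjPlane := Quotient.mk _ ⟨(c.re, c.im, 1), by simp⟩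

/-- The coordinates of a vector. -/
def co (u : ℝ × ℝ × ℝ) : Fin 3 → ℝ := ![u.1, u.2.1, u.2.2]

theorem rpt_eq {u w : ℝ × ℝ × ℝ} {hu : u ≠ 0} {hw : w ≠ 0}
    (h : (Quotient.mk _ ⟨u, hu⟩ : ProjPlane) = Quotient.mk _ ⟨w, hw⟩) :
    ∃ r : ℝ, r ≠ 0 ∧ u = r • w := by
  obtain ⟨r, hr⟩ := Quotient.exact h
  exact ⟨r, r.ne_zero, hr.symm⟩

theorem rpt_smul {u w : ℝ × ℝ × ℝ} {hu : u ≠ 0} {hw : w ≠ 0} {r : ℝ} (hr : r ≠ 0)
    (h : u = r • w) : (Quotient.mk _ ⟨u, hu⟩ : ProjPlane) = Quotient.mk _ ⟨w, hw⟩ :=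
  Quotient.sound ⟨Units.mk0 r hr, h.symm⟩

theorem rpt_pos {u : ℝ × ℝ × ℝ} (hu : u ≠ 0) : 0 < u.1 ^ 2 + u.2.1 ^ 2 + u.2.2 ^ 2 := by
  by_contra h
  refine hu (Prod.ext ?_ (Prod.ext ?_ ?_))
  · change u.1 = 0
    nlinarith [sq_nonneg u.1, sq_nonneg u.2.1, sq_nonneg u.2.2, pow_eq_zero_iff (a := u.1) two_ne_zero]
  · change u.2.1 = 0
    nlinarith [sq_nonneg u.1, sq_nonneg u.2.1, sq_nonneg u.2.2]
  · change u.2.2 = 0
    nlinarith [sq_nonneg u.1, sq_nonneg u.2.1, sq_nonneg u.2.2]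

theorem rpt_co_smul (r : ℝ) (u : ℝ × ℝ × ℝ) (i : Fin 3) : co (r • u) i = r * co u i := by
  fin_cases i <;> simp [co]

theorem rpt_co_cont (i : Fin 3) : Continuous fun u => co u i := by
  fin_cases i <;> simp only [co] <;> fun_prop

theorem rpt_co_ext {u w : ℝ × ℝ × ℝ} (h : ∀ i, co u i = co w i) : u = w :=
  Prod.ext (h 0) (Prod.ext (h 1) (h 2))

/-- There is a continuous map sending the class of `u` to the matrix `u uᵀ / |u|²`. -/
theorem exists_veronese : ∃ M : ProjPlane → Fin 3 → Fin 3 → ℝ, Continuous M ∧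
    ∀ (u : ℝ × ℝ × ℝ) (hu : u ≠ 0) i j, M (Quotient.mk _ ⟨u, hu⟩) i j =
      co u i * co u j / (u.1 ^ 2 + u.2.1 ^ 2 + u.2.2 ^ 2) := by
  refine ⟨Quotient.lift (fun (u : {u : ℝ × ℝ × ℝ // u ≠ 0}) i j =>
    co u.1 i * co u.1 j / (u.1.1 ^ 2 + u.1.2.1 ^ 2 + u.1.2.2 ^ 2)) ?_, ?_, fun _ _ _ _ => rfl⟩
  · rintro ⟨u, hu⟩ ⟨w, hw⟩ h
    obtain ⟨r, hr, rfl⟩ := rpt_eq (Quotient.sound h)
    funext i j
    have := (rpt_pos hw).ne'
    have h2 : (r * w.1) ^ 2 + (r * w.2.1) ^ 2 + (r * w.2.2) ^ 2 =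
        r ^ 2 * (w.1 ^ 2 + w.2.1 ^ 2 + w.2.2 ^ 2) := by ring
    simp only [rpt_co_smul, Prod.smul_fst, Prod.smul_snd, smul_eq_mul, h2]
    field_simp
  · refine Continuous.quotient_lift (continuous_pi fun i => continuous_pi fun j => ?_) _
    refine Continuous.div (((rpt_co_cont i).comp continuous_subtype_val).mul
      ((rpt_co_cont j).comp continuous_subtype_val)) (by fun_prop) fun u => (rpt_pos u.2).ne'

theorem t2_proj : T2Space ProjPlane := by
  obtain ⟨M, hM, h⟩ := exists_veronese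
  refine T2Space.of_injective_continuous (f := M) (fun x y e => ?_) hM
  obtain ⟨⟨u, hu⟩, rfl⟩ := Quotient.exists_rep x
  obtain ⟨⟨w, hw⟩, rfl⟩ := Quotient.exists_rep y
  have pu := (rpt_pos hu).ne'
  have pw := (rpt_pos hw).ne'
  obtain ⟨j, hj⟩ : ∃ j, co u j ≠ 0 := by
    by_contra hc
    push Not at hc
    exact hu (rpt_co_ext fun i => (hc i).trans (by fin_cases i <;> rfl))
  have key : u = (co w j * (u.1 ^ 2 + u.2.1 ^ 2 + u.2.2 ^ 2) /
      (co u j * (w.1 ^ 2 + w.2.1 ^ 2 + w.2.2 ^ 2))) • w := by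
    refine rpt_co_ext fun i => ?_
    have := congrFun (congrFun e i) j
    rw [h, h, div_eq_div_iff pu pw] at this
    rw [rpt_co_smul]
    field_simp
    linarith
  refine rpt_smul (fun h0 => hu ?_) key
  rw [key, h0, zero_smul]

theorem rpt_ne (L : (ℝ × ℝ × ℝ) ≃L[ℝ] (ℝ × ℝ × ℝ)) (c : ℂ) : L (c.re, c.im, 1) ≠ 0 := by
  simp

theorem rpt_open (L : (ℝ × ℝ × ℝ) ≃L[ℝ] (ℝ × ℝ × ℝ)) :
    IsOpenEmbedding fun c : ℂ => (Quotient.mk _ ⟨L (c.re, c.im, 1), rpt_ne L c⟩ : ProjPlane) := by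
  refine IsOpenEmbedding.of_continuous_injective_isOpenMap
    (continuous_quotient_mk'.comp (Continuous.subtype_mk (by fun_prop) _)) (fun c c' h => ?_)
    fun U hU => ?_
  · obtain ⟨r, -, e⟩ := rpt_eq h
    rw [← map_smul, L.injective.eq_iff] at e
    simp only [Prod.smul_mk, smul_eq_mul, mul_one, Prod.mk.injEq] at e
    obtain ⟨e1, e2, rfl⟩ := e
    exact Complex.ext (by simpa using e1) (by simpa using e2)
  · refine isQuotientMap_quotient_mk'.isOpen_preimage.1 ?_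
    have h1 : IsOpen {u : {u : ℝ × ℝ × ℝ // u ≠ 0} | (L.symm u.1).2.2 ≠ 0} :=
      isOpen_ne_fun (by fun_prop) continuous_const
    have h2 : ContinuousOn (fun u : {u : ℝ × ℝ × ℝ // u ≠ 0} =>
        ((L.symm u.1).1 / (L.symm u.1).2.2 : ℝ) + ((L.symm u.1).2.1 / (L.symm u.1).2.2 : ℝ) *
          Complex.I) {u | (L.symm u.1).2.2 ≠ 0} := by
      refine ContinuousOn.add (Complex.continuous_ofReal.comp_continuousOn ?_)
        (ContinuousOn.mul (Complex.continuous_ofReal.comp_continuousOn ?_) continuousOn_const)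
      · exact ContinuousOn.div (by fun_prop) (by fun_prop) fun u hu => hu
      · exact ContinuousOn.div (by fun_prop) (by fun_prop) fun u hu => hu
    convert h2.isOpen_inter_preimage h1 hU using 1
    ext ⟨u, hu⟩
    constructor
    · rintro ⟨c, hc, e⟩
      obtain ⟨r, hr, rfl⟩ := rpt_eq e.symm
      refine ⟨by simpa using hr, ?_⟩
      simp only [mem_preimage, map_smul, ContinuousLinearEquiv.symm_apply_apply, Prod.smul_mk,
        smul_eq_mul, mul_one, mul_div_cancel_left₀ _ hr, Complex.re_add_im]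
      exact hc
    · rintro ⟨k1, k2⟩
      refine ⟨_, k2, (rpt_smul k1 ?_).symm⟩
      have k3 : (L.symm u).2.2 ≠ 0 := k1
      rw [← map_smul, ← ContinuousLinearEquiv.symm_apply_eq]
      refine Prod.ext ?_ (Prod.ext ?_ ?_) <;> simp <;> field_simp

theorem aff_open : IsOpenEmbedding aff :=
  rpt_open (ContinuousLinearEquiv.refl ℝ _)

theorem rpt_equiv (a b q : ℝ × ℝ × ℝ)
    (h : ∀ x y z : ℝ, x • a + y • b + z • q = 0 → x = 0 ∧ y = 0 ∧ z = 0) :
    ∃ L : (ℝ × ℝ × ℝ) ≃L[ℝ] (ℝ × ℝ × ℝ), L (0, 0, 1) = q := by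
  let f : (ℝ × ℝ × ℝ) →ₗ[ℝ] (ℝ × ℝ × ℝ) := (LinearMap.fst ℝ _ _).smulRight a +
    ((LinearMap.fst ℝ _ _).comp (LinearMap.snd ℝ _ _)).smulRight b +
    ((LinearMap.snd ℝ _ _).comp (LinearMap.snd ℝ _ _)).smulRight q
  have hf : Function.Injective f := (injective_iff_map_eq_zero _).2 fun v hv => by
    obtain ⟨h1, h2, h3⟩ := h v.1 v.2.1 v.2.2 hv
    exact Prod.ext h1 (Prod.ext h2 h3)
  refine ⟨(LinearEquiv.ofInjectiveEndo f hf).toContinuousLinearEquiv, ?_⟩
  change f (0, 0, 1) = q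
  simp [f]

theorem charts_proj : HasCharts ProjPlane := by
  intro x
  obtain ⟨⟨q, hq⟩, rfl⟩ := Quotient.exists_rep x
  obtain ⟨L, rfl⟩ : ∃ L : (ℝ × ℝ × ℝ) ≃L[ℝ] (ℝ × ℝ × ℝ), L (0, 0, 1) = q := by
    obtain ⟨q1, q2, q3⟩ := q
    by_cases h1 : q1 = 0
    · by_cases h2 : q2 = 0
      · have h3 : q3 ≠ 0 := fun h3 => hq (by simp [h1, h2, h3])
        refine rpt_equiv (1, 0, 0) (0, 1, 0) _ fun x y z h => ?_
        simpa [h1, h2, h3] using h
      · refine rpt_equiv (1, 0, 0) (0, 0, 1) _ fun x y z h => ?_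
        simp only [Prod.smul_mk, smul_eq_mul, Prod.mk_add_mk, Prod.mk_eq_zero] at h
        have hz : z = 0 := (mul_eq_zero.1 (by linarith [h.2.1] : z * q2 = 0)).resolve_right h2
        subst hz
        exact ⟨by linarith [h.1], by linarith [h.2.2], rfl⟩
    · refine rpt_equiv (0, 1, 0) (0, 0, 1) _ fun x y z h => ?_
      simp only [Prod.smul_mk, smul_eq_mul, Prod.mk_add_mk, Prod.mk_eq_zero] at h
      have hz : z = 0 := (mul_eq_zero.1 (by linarith [h.1] : z * q1 = 0)).resolve_right h1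
      subst hz
      exact ⟨by linarith [h.2.1], by linarith [h.2.2], rfl⟩
  exact ⟨_, rpt_open L, rfl⟩

end Pool.Agent.MP_d7736f_co.LB

end

section

/-!
Lifting a drawing on the projective plane to the punctured complex plane.
-/

namespace Pool.Agent.MP_d7736f_co.LB

open Set Topology unitInterval

/-- The height function. -/
noncomputable def lfH (x : ℂ) : ℝ := ‖x‖ * Real.log ‖x‖

/-- The vector attached to a complex number. -/
noncomputable def lfV (c x : ℂ) : ℝ × ℝ × ℝ := (x.re + c.re * lfH x, x.im + c.im * lfH x, lfH x)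

theorem lfV_ne (c : ℂ) {x : ℂ} (hx : x ≠ 0) : lfV c x ≠ 0 := by
  intro h
  simp only [lfV, Prod.mk_eq_zero] at h
  obtain ⟨h1, h2, h3⟩ := h
  rw [h3] at h1 h2
  exact hx (Complex.ext (by simpa using h1) (by simpa using h2))

open Classical in
/-- The two to one map onto the complement of a point. -/
noncomputable def lfP (c x : ℂ) : ProjPlane :=
  if h : x ≠ 0 then Quotient.mk _ ⟨lfV c x, lfV_ne c h⟩ else aff c

theorem lf_mk_eq {u w : ℝ × ℝ × ℝ} (hu : u ≠ 0) (hw : w ≠ 0) :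
    (Quotient.mk _ ⟨u, hu⟩ : ProjPlane) = Quotient.mk _ ⟨w, hw⟩ ↔ ∃ k : ℝ, k • w = u :=
  Projectivization.mk_eq_mk_iff' ℝ u w hu hw

theorem lf_tau_eq {x : ℂ} (hx : x ≠ 0) : tau x = ((-(‖x‖ ^ 2)⁻¹ : ℝ) : ℂ) * x := by
  have h1 : (starRingEnd ℂ) x ≠ 0 := by simpa using hx
  have h2 : ((‖x‖ : ℝ) : ℂ) ^ 2 = x * (starRingEnd ℂ) x := by
    rw [Complex.mul_conj, Complex.normSq_eq_norm_sq]
    push_cast
    rfl
  unfold tau
  push_cast
  rw [h2]
  field_simp

theorem lf_tau_ne {x : ℂ} (hx : x ≠ 0) : tau x ≠ 0 := by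
  simpa [tau] using hx

theorem lf_tau_tau (x : ℂ) : tau (tau x) = x := by
  simp [tau]

theorem lfV_smul (c : ℂ) {x : ℂ} {k : ℝ} (h : lfH ((k : ℂ) * x) = k * lfH x) :
    k • lfV c x = lfV c ((k : ℂ) * x) := by
  simp only [lfV, h, Prod.smul_mk, smul_eq_mul, Complex.re_ofReal_mul, Complex.im_ofReal_mul]
  refine Prod.ext ?_ (Prod.ext ?_ rfl) <;> simp only <;> ring

theorem lfP_tau (c : ℂ) {x : ℂ} (hx : x ≠ 0) : lfP c (tau x) = lfP c x := by
  have hn : ‖x‖ ≠ 0 := norm_ne_zero_iff.2 hx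
  unfold lfP
  rw [dif_pos (lf_tau_ne hx), dif_pos hx, lf_mk_eq]
  refine ⟨-(‖x‖ ^ 2)⁻¹, ?_⟩
  rw [lf_tau_eq hx]
  apply lfV_smul
  rw [← lf_tau_eq hx]
  have : ‖tau x‖ = ‖x‖⁻¹ := by simp [tau]
  unfold lfH
  rw [this, Real.log_inv]
  field_simp

theorem lfP_fibre (c : ℂ) {x y : ℂ} (hx : x ≠ 0) (hy : y ≠ 0) (h : lfP c y = lfP c x) :
    y = x ∨ y = tau x := by
  unfold lfP at h
  rw [dif_pos hy, dif_pos hx, lf_mk_eq] at h
  obtain ⟨k, h⟩ := h
  simp only [lfV, Prod.smul_mk, smul_eq_mul, Prod.mk.injEq] at h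
  obtain ⟨h1, h2, h3⟩ := h
  have e : y = (k : ℂ) * x := by
    apply Complex.ext
    · rw [Complex.re_ofReal_mul]
      rw [← h3] at h1
      linear_combination -h1
    · rw [Complex.im_ofReal_mul]
      rw [← h3] at h2
      linear_combination -h2
  have hn : 0 < ‖x‖ := norm_pos_iff.2 hx
  have hk : k ≠ 0 := by
    rintro rfl
    exact hy (by simpa using e)
  have e2 : ‖y‖ = |k| * ‖x‖ := by rw [e, norm_mul, Complex.norm_real, Real.norm_eq_abs]
  unfold lfH at h3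
  rw [e2] at h3
  rcases lt_or_gt_of_ne hk with g | g
  · right
    rw [abs_of_neg g] at h3
    have h4 : Real.log (-k * ‖x‖) = Real.log ‖x‖⁻¹ := by
      rw [Real.log_inv]
      apply mul_left_cancel₀ (mul_ne_zero hk hn.ne')
      linear_combination h3
    have h5 := Real.log_injOn_pos (mul_pos (neg_pos.2 g) hn) (inv_pos.2 hn) h4
    rw [lf_tau_eq hx, e]
    congr 2
    field_simp at h5 ⊢
    linear_combination -h5
  · left
    rw [abs_of_pos g] at h3
    have h4 : Real.log (k * ‖x‖) = Real.log ‖x‖ := by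
      apply mul_left_cancel₀ (mul_ne_zero hk hn.ne')
      linear_combination -h3
    have h5 := Real.log_injOn_pos (mul_pos g hn) hn h4
    have h6 : k = 1 := mul_right_cancel₀ hn.ne' (by rw [h5, one_mul])
    rw [e, h6]
    simp

/-- The complex coordinate of a vector. -/
noncomputable def lfX (c : ℂ) (u : ℝ × ℝ × ℝ) : ℂ := ⟨u.1 - c.re * u.2.2, u.2.1 - c.im * u.2.2⟩

theorem lfX_ne (c : ℂ) {u : ℝ × ℝ × ℝ} (hu : u ≠ 0)
    (h : (Quotient.mk _ ⟨u, hu⟩ : ProjPlane) ≠ aff c) : lfX c u ≠ 0 := by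
  intro h0
  apply h
  unfold aff
  rw [lf_mk_eq]
  have h1 := congrArg Complex.re h0
  have h2 := congrArg Complex.im h0
  simp only [lfX, Complex.zero_re, Complex.zero_im] at h1 h2
  refine ⟨u.2.2, Prod.ext ?_ (Prod.ext ?_ ?_)⟩
  · simp only [Prod.smul_mk, smul_eq_mul]
    linear_combination -h1
  · simp only [Prod.smul_mk, smul_eq_mul]
    linear_combination -h2
  · simp

theorem lf_point (c : ℂ) {u : ℝ × ℝ × ℝ} (hu : u ≠ 0) (hX : lfX c u ≠ 0) {w H : ℂ}
    (hw : w ^ 2 = lfX c u ^ 2 / ((‖lfX c u‖ : ℝ) : ℂ) ^ 2)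
    (hH : H = (u.2.2 : ℂ) * lfX c u / ((‖lfX c u‖ : ℝ) : ℂ) ^ 2) :
    lfP c (w * (Real.exp ((starRingEnd ℂ) w * H).re : ℝ)) = Quotient.mk _ ⟨u, hu⟩ := by
  set X := lfX c u with hXd
  have hn : 0 < ‖X‖ := norm_pos_iff.2 hX
  have hn' : ((‖X‖ : ℝ) : ℂ) ≠ 0 := by exact_mod_cast hn.ne'
  obtain ⟨ε, hε, hw'⟩ : ∃ ε : ℝ, |ε| = 1 ∧ w = ((ε / ‖X‖ : ℝ) : ℂ) * X := by
    rw [← div_pow, sq_eq_sq_iff_eq_or_eq_neg] at hw
    rcases hw with h | h
    · exact ⟨1, by simp, by rw [h]; push_cast; ring⟩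
    · exact ⟨-1, by simp, by rw [h]; push_cast; ring⟩
  have h2 : (starRingEnd ℂ) X * X = ((‖X‖ : ℝ) : ℂ) ^ 2 := by
    rw [mul_comm, Complex.mul_conj, Complex.normSq_eq_norm_sq]
    push_cast
    rfl
  have hr : ((starRingEnd ℂ) w * H).re = ε / ‖X‖ * u.2.2 := by
    have : (starRingEnd ℂ) w * H = ((ε / ‖X‖ * u.2.2 : ℝ) : ℂ) := by
      rw [hw', hH, map_mul, Complex.conj_ofReal]
      have e : ((ε / ‖X‖ : ℝ) : ℂ) * (starRingEnd ℂ) X * ((u.2.2 : ℂ) * X / ((‖X‖ : ℝ) : ℂ) ^ 2) =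
          ((ε / ‖X‖ : ℝ) : ℂ) * (u.2.2 : ℂ) * ((starRingEnd ℂ) X * X / ((‖X‖ : ℝ) : ℂ) ^ 2) := by
        ring
      rw [e, h2, div_self (pow_ne_zero 2 hn')]
      push_cast
      ring
    rw [this, Complex.ofReal_re]
  rw [hr]
  set r := ε / ‖X‖ * u.2.2 with hrd
  have e : w * (Real.exp r : ℝ) = ((Real.exp r * (ε / ‖X‖) : ℝ) : ℂ) * X := by
    rw [hw']
    push_cast
    ring
  have hnorm : ‖w * (Real.exp r : ℝ)‖ = Real.exp r := by
    rw [e, norm_mul, Complex.norm_real, Real.norm_eq_abs, abs_mul, abs_div, hε,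
      abs_of_pos (Real.exp_pos r), abs_of_pos hn]
    field_simp
  have h0 : w * (Real.exp r : ℝ) ≠ 0 := by
    rw [← norm_pos_iff, hnorm]
    exact Real.exp_pos r
  have hL : lfH (w * (Real.exp r : ℝ)) = Real.exp r * (ε / ‖X‖) * u.2.2 := by
    unfold lfH
    rw [hnorm, Real.log_exp, hrd]
    ring
  unfold lfP
  rw [dif_pos h0, lf_mk_eq]
  refine ⟨Real.exp r * (ε / ‖X‖), ?_⟩
  unfold lfV
  rw [hL, e, Complex.re_ofReal_mul, Complex.im_ofReal_mul]
  have e1 : X.re = u.1 - c.re * u.2.2 := rfl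
  have e2 : X.im = u.2.1 - c.im * u.2.2 := rfl
  rw [e1, e2]
  refine Prod.ext ?_ (Prod.ext ?_ rfl)
  · simp only [Prod.smul_fst, smul_eq_mul]
    ring
  · simp only [Prod.smul_snd, Prod.smul_fst, smul_eq_mul]
    ring

theorem lf_forms (c : ℂ) : ∃ A B G : ProjPlane → ℂ, Continuous A ∧ Continuous B ∧ Continuous G ∧
    ∀ (u : ℝ × ℝ × ℝ) (hu : u ≠ 0), ∃ N : ℂ, N ≠ 0 ∧
      A (Quotient.mk _ ⟨u, hu⟩) = lfX c u ^ 2 / N ∧
      B (Quotient.mk _ ⟨u, hu⟩) = ((‖lfX c u‖ : ℝ) : ℂ) ^ 2 / N ∧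
      G (Quotient.mk _ ⟨u, hu⟩) = (u.2.2 : ℂ) * lfX c u / N := by
  obtain ⟨M, hM, hM'⟩ := exists_veronese
  have hc : ∀ i j, Continuous fun q => ((M q i j : ℝ) : ℂ) := fun i j =>
    Complex.continuous_ofReal.comp ((continuous_apply j).comp ((continuous_apply i).comp hM))
  let m : Fin 3 → Fin 3 → ProjPlane → ℂ := fun i j q => ((M q i j : ℝ) : ℂ)
  have hm : ∀ i j, Continuous (m i j) := hc
  refine ⟨fun q => m 0 0 q - m 1 1 q + 2 * Complex.I * m 0 1 q - 2 * c * m 0 2 q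
      - 2 * c * Complex.I * m 1 2 q + c ^ 2 * m 2 2 q,
    fun q => m 0 0 q + m 1 1 q - 2 * c.re * m 0 2 q - 2 * c.im * m 1 2 q
      + ((c.re : ℂ) ^ 2 + (c.im : ℂ) ^ 2) * m 2 2 q,
    fun q => m 0 2 q + Complex.I * m 1 2 q - c * m 2 2 q, by fun_prop, by fun_prop, by fun_prop,
    fun u hu => ⟨((u.1 ^ 2 + u.2.1 ^ 2 + u.2.2 ^ 2 : ℝ) : ℂ), ?_, ?_⟩⟩
  · rw [Complex.ofReal_ne_zero]
    intro h
    apply hu
    have h1 : u.1 = 0 := by nlinarith [sq_nonneg u.1, sq_nonneg u.2.1, sq_nonneg u.2.2]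
    have h2 : u.2.1 = 0 := by nlinarith [sq_nonneg u.1, sq_nonneg u.2.1, sq_nonneg u.2.2]
    have h3 : u.2.2 = 0 := by nlinarith [sq_nonneg u.1, sq_nonneg u.2.1, sq_nonneg u.2.2]
    exact Prod.ext h1 (Prod.ext h2 h3)
  · have eX : lfX c u = (u.1 : ℂ) + (u.2.1 : ℂ) * Complex.I - c * (u.2.2 : ℂ) := by
      apply Complex.ext <;> simp [lfX]
    have eN : ((‖lfX c u‖ : ℝ) : ℂ) ^ 2 =
        ((u.1 : ℂ) - c.re * u.2.2) ^ 2 + ((u.2.1 : ℂ) - c.im * u.2.2) ^ 2 := by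
      have : ‖lfX c u‖ ^ 2 = (u.1 - c.re * u.2.2) ^ 2 + (u.2.1 - c.im * u.2.2) ^ 2 := by
        rw [← Complex.normSq_eq_norm_sq, Complex.normSq_apply]
        simp only [lfX]
        ring
      exact_mod_cast congrArg (fun t : ℝ => (t : ℂ)) this
    simp only [m, hM' u hu, co, Matrix.cons_val_zero, Matrix.cons_val_one, Matrix.cons_val,
      Complex.ofReal_div, Complex.ofReal_mul]
    refine ⟨?_, ?_, ?_⟩
    · rw [eX]
      linear_combination
        (-((u.2.1 : ℂ) ^ 2 / ((u.1 ^ 2 + u.2.1 ^ 2 + u.2.2 ^ 2 : ℝ) : ℂ))) * Complex.I_sq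
    · rw [eN]
      ring
    · rw [eX]
      ring

theorem lf_path (c : ℂ) (γ : I → ProjPlane) (hγ : Continuous γ) (h : ∀ s, γ s ≠ aff c) :
    ∃ Γ : I → ℂ, Continuous Γ ∧ (∀ s, Γ s ≠ 0) ∧ ∀ s, lfP c (Γ s) = γ s := by
  obtain ⟨A, B, G, hA, hB, hG, hf⟩ := lf_forms c
  have key : ∀ q, q ≠ aff c → A q ≠ 0 ∧ B q ≠ 0 ∧ ∀ w, w ^ 2 = A q / B q →
      lfP c (w * (Real.exp ((starRingEnd ℂ) w * (G q / B q)).re : ℝ)) = q := by
    intro q hq
    induction q using Quotient.inductionOn with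
    | h u =>
      obtain ⟨u, hu⟩ := u
      obtain ⟨N, hN, h1, h2, h3⟩ := hf u hu
      have hX := lfX_ne c hu hq
      have hn : ((‖lfX c u‖ : ℝ) : ℂ) ≠ 0 := by exact_mod_cast norm_ne_zero_iff.2 hX
      rw [h1, h2, h3]
      refine ⟨div_ne_zero (pow_ne_zero 2 hX) hN, div_ne_zero (pow_ne_zero 2 hn) hN, fun w hw => ?_⟩
      rw [div_div_div_cancel_right₀ hN] at hw
      exact lf_point c hu hX hw (div_div_div_cancel_right₀ hN _ _)
  have hW : Continuous fun s => A (γ s) / B (γ s) :=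
    (hA.comp hγ).div (hB.comp hγ) fun s => (key _ (h s)).2.1
  have hH : Continuous fun s => G (γ s) / B (γ s) :=
    (hG.comp hγ).div (hB.comp hγ) fun s => (key _ (h s)).2.1
  have hW0 : ∀ s, A (γ s) / B (γ s) ≠ 0 := fun s => div_ne_zero (key _ (h s)).1 (key _ (h s)).2.1
  obtain ⟨L, hL, -⟩ := Complex.isCoveringMap_exp.exists_path_lifts
    (⟨fun s => ⟨A (γ s) / B (γ s), hW0 s⟩, hW.subtype_mk _⟩ : C(I, {z : ℂ // z ≠ 0}))
    (Complex.log (A (γ 0) / B (γ 0))) (Subtype.ext (Complex.exp_log (hW0 0)).symm)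
  have hL' : ∀ s, Complex.exp (L s / 2) ^ 2 = A (γ s) / B (γ s) := by
    intro s
    rw [sq, ← Complex.exp_add, add_halves]
    exact congrArg Subtype.val (congrFun hL s)
  refine ⟨fun s => Complex.exp (L s / 2) * (Real.exp ((starRingEnd ℂ) (Complex.exp (L s / 2)) *
    (G (γ s) / B (γ s))).re : ℝ), ?_, fun s => ?_, fun s => (key _ (h s)).2.2 _ (hL' s)⟩
  · have h1 : Continuous fun s => Complex.exp (L s / 2) := by fun_prop
    exact h1.mul (Complex.continuous_ofReal.comp (Real.continuous_exp.comp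
      (Complex.continuous_re.comp ((Complex.continuous_conj.comp h1).mul hH))))
  · exact mul_ne_zero (Complex.exp_ne_zero _) (Complex.ofReal_ne_zero.2 (Real.exp_pos _).ne')

theorem exists_lift {v : ℕ} (D : Drawing ProjPlane v) :
    ∃ (P : ℂ → ProjPlane) (z : Fin v → ℂ) (Γ : Edge v → I → ℂ) (sg : Edge v → Bool),
      (∀ x, x ≠ 0 → P (tau x) = P x) ∧ (∀ u, z u ≠ 0) ∧ (∀ u, P (z u) = D.pt u) ∧
      (∀ e, Continuous (Γ e)) ∧ (∀ e s, Γ e s ≠ 0) ∧ (∀ e s, P (Γ e s) = D.arc e s) ∧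
      (∀ e, Γ e 0 = z e.1.1) ∧ (∀ e, Γ e 1 = tw (sg e) (z e.1.2)) := by
  haveI := t2_proj
  obtain ⟨c, h1, h2⟩ := exists_off D aff_open
  have hz : ∀ u, ∃ z : ℂ, z ≠ 0 ∧ lfP c z = D.pt u := by
    intro u
    obtain ⟨Γ, -, g1, g2⟩ := lf_path c (fun _ => D.pt u) continuous_const fun _ h => h1 ⟨u, h⟩
    exact ⟨Γ 0, g1 0, g2 0⟩
  choose z hz0 hz using hz
  have hΓ : ∀ e : Edge v, ∃ (Γ : I → ℂ) (b : Bool), Continuous Γ ∧ (∀ s, Γ s ≠ 0) ∧
      (∀ s, lfP c (Γ s) = D.arc e s) ∧ Γ 0 = z e.1.1 ∧ Γ 1 = tw b (z e.1.2) := by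
    intro e
    obtain ⟨Γ, g0, g1, g2, g3⟩ : ∃ Γ : I → ℂ, Continuous Γ ∧ (∀ s, Γ s ≠ 0) ∧
        (∀ s, lfP c (Γ s) = D.arc e s) ∧ Γ 0 = z e.1.1 := by
      obtain ⟨Γ, g0, g1, g2⟩ := lf_path c (D.arc e) (D.arc e).continuous fun s h => h2 e ⟨s, h⟩
      rcases lfP_fibre c (hz0 e.1.1) (g1 0) (by rw [g2, hz, Path.source]) with h | h
      · exact ⟨Γ, g0, g1, g2, h⟩
      · refine ⟨fun s => tau (Γ s), ?_, fun s => lf_tau_ne (g1 s),
          fun s => by rw [lfP_tau c (g1 s), g2], by simp only [h, lf_tau_tau]⟩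
        exact ((Complex.continuous_conj.comp g0).inv₀ fun s => by simpa using g1 s).neg
    rcases lfP_fibre c (hz0 e.1.2) (g1 1) (by rw [g2, hz, Path.target]) with h | h
    · exact ⟨Γ, false, g0, g1, g2, g3, h⟩
    · exact ⟨Γ, true, g0, g1, g2, g3, h⟩
  choose Γ sg g0 g1 g2 g3 g4 using hΓ
  exact ⟨lfP c, z, Γ, sg, fun x hx => lfP_tau c hx, hz0, hz, g0, g1, g2, g3, g4⟩

end Pool.Agent.MP_d7736f_co.LB

end

section

/-!
From a clean drawing on the projective plane to the algebraic model.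
-/

namespace Pool.Agent.MP_d7736f_co.LB

open Complex Set Topology unitInterval
open scoped Real

theorem tau_ne {z : ℂ} (h : z ≠ 0) : tau z ≠ 0 := by simp [tau, h]

theorem tau_tau (z : ℂ) : tau (tau z) = z := by simp [tau]

theorem tau_eq {z : ℂ} (h : z ≠ 0) : z - tau z = ((1 + (normSq z)⁻¹ : ℝ) : ℂ) * z := by
  have h' : (starRingEnd ℂ) z ≠ 0 := by simpa using h
  rw [tau]
  push_cast
  rw [normSq_eq_conj_mul_self]
  field_simp
  ring

theorem ne_tau {z : ℂ} (h : z ≠ 0) : z ≠ tau z := by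
  rw [← sub_ne_zero, tau_eq h]
  have := normSq_pos.2 h
  exact mul_ne_zero (ofReal_ne_zero.2 (by positivity)) h

theorem tw_ne {z : ℂ} (h : z ≠ 0) (b : Bool) : tw b z ≠ 0 := by
  cases b
  · exact h
  · exact tau_ne h

theorem tw_tw (b c : Bool) (z : ℂ) : tw b (tw c z) = tw (xor b c) z := by
  cases b <;> cases c <;> simp [tw, tau_tau]

theorem tw_false (z : ℂ) : tw false z = z := rfl

theorem tw_inj {z : ℂ} (h : z ≠ 0) {b c : Bool} (e : tw b z = tw c z) : b = c := by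
  cases b <;> cases c
  · rfl
  · exact absurd e (ne_tau h)
  · exact absurd e.symm (ne_tau h)
  · rfl

variable {f : I → ℂ}

theorem tw_cont (hf : Continuous f) (h0 : ∀ s, f s ≠ 0) (b : Bool) :
    Continuous fun s => tw b (f s) := by
  cases b
  · exact hf
  · exact ((continuous_conj.comp hf).inv₀ fun s => by simpa using h0 s).neg

theorem var_tau0 (hf : Continuous f) (h0 : ∀ s, f s ≠ 0) : var (fun s => tau (f s)) = var f := by
  have hc : Continuous fun s => (starRingEnd ℂ) (f s) := continuous_conj.comp hf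
  have hc0 : ∀ s, (starRingEnd ℂ) (f s) ≠ 0 := fun s => by simpa using h0 s
  have := var_const_mul (f := fun s => ((starRingEnd ℂ) (f s))⁻¹) (hc.inv₀ hc0)
    (fun s => inv_ne_zero (hc0 s)) (c := -1) (by simp)
  rw [var_inv hc hc0, var_conj hf h0, neg_neg] at this
  rw [← this]
  simp [tau]

theorem var_tw0 (hf : Continuous f) (h0 : ∀ s, f s ≠ 0) (b : Bool) :
    var (fun s => tw b (f s)) = var f := by
  cases b
  · rfl
  · exact var_tau0 hf h0

theorem var_tau (hf : Continuous f) (h0 : ∀ s, f s ≠ 0) {y : ℂ} (hy : y ≠ 0)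
    (hne : ∀ s, f s ≠ y) : var (fun s => tau (f s) - tau y) = var f - var (fun s => f s - y) := by
  have hc : Continuous fun s => (starRingEnd ℂ) (f s) := continuous_conj.comp hf
  have hc0 : ∀ s, (starRingEnd ℂ) (f s) ≠ 0 := fun s => by simpa using h0 s
  have hy' : (starRingEnd ℂ) y ≠ 0 := by simpa using hy
  have hd : Continuous fun s => f s - y := by fun_prop
  have hd0 : ∀ s, f s - y ≠ 0 := fun s => sub_ne_zero.2 (hne s)
  have hcd : Continuous fun s => (starRingEnd ℂ) (f s - y) := continuous_conj.comp hd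
  have hcd0 : ∀ s, (starRingEnd ℂ) (f s - y) ≠ 0 := fun s => by
    rw [map_ne_zero]; exact hd0 s
  have e : (fun s => tau (f s) - tau y) = fun s => ((starRingEnd ℂ) y)⁻¹ *
      ((starRingEnd ℂ) (f s - y) * ((starRingEnd ℂ) (f s))⁻¹) := by
    funext s
    have := hc0 s
    simp only [tau, map_sub]
    field_simp
    ring
  rw [e, var_const_mul (f := fun s => (starRingEnd ℂ) (f s - y) * ((starRingEnd ℂ) (f s))⁻¹)
    (hcd.mul (hc.inv₀ hc0))
    (fun s => mul_ne_zero (hcd0 s) (inv_ne_zero (hc0 s))) (inv_ne_zero hy'),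
    var_mul (g := fun s => ((starRingEnd ℂ) (f s))⁻¹) hcd hcd0 (hc.inv₀ hc0)
      (fun s => inv_ne_zero (hc0 s)), var_inv hc hc0,
    var_conj hf h0, var_conj hd hd0]
  ring

theorem var_tw (hf : Continuous f) (h0 : ∀ s, f s ≠ 0) {y : ℂ} (hy : y ≠ 0) (b : Bool)
    (hne : ∀ s, f s ≠ tw b y) : var (fun s => tw b (f s) - y) - var f / 2 =
      pm b * (var (fun s => f s - tw b y) - var f / 2) := by
  cases b
  · simp [tw]
  · have := var_tau hf h0 (tau_ne hy) hne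
    rw [tau_tau] at this
    simp only [tw, if_true, pm_true, this]
    ring

/-- Lifted arcs for ordered pairs of vertices. -/
structure Lifts (V : Type) where
  z : V → ℂ
  sg : V → V → Bool
  G : V → V → I → ℂ
  z_ne : ∀ u, z u ≠ 0
  sg_symm : ∀ u v, sg u v = sg v u
  sg_self : ∀ u, sg u u = false
  cont : ∀ u v, u ≠ v → Continuous (G u v)
  ne : ∀ u v s, u ≠ v → G u v s ≠ 0
  G0 : ∀ u v, u ≠ v → G u v 0 = z u
  G1 : ∀ u v, u ≠ v → G u v 1 = tw (sg u v) (z v)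
  rev : ∀ u v s, u ≠ v → G v u s = tw (sg u v) (G u v (σ s))
  vert : ∀ u v w s b, u ≠ v → G u v s = tw b (z w) →
    (w = u ∧ s = 0 ∧ b = false) ∨ (w = v ∧ s = 1 ∧ b = sg u v)
  adj : ∀ u v w s t b, u ≠ v → u ≠ w → G u v s = tw b (G u w t) →
    b = false ∧ (v ≠ w → s = 0 ∧ t = 0)

theorem first_exit (hf : Continuous f) {u : ℂ} {ε : ℝ} (hε : 0 < ε) (f0 : f 0 = u)
    (f1 : ε < ‖f 1 - u‖) : ∃ a : I, ‖f a - u‖ = ε ∧ ∀ s, s ≤ a → ‖f s - u‖ ≤ ε := by
  have hc : Continuous fun s => ‖f s - u‖ := by fun_prop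
  obtain ⟨a, ha, hmin⟩ := (isClosed_le continuous_const hc (f := fun _ => ε)).isCompact.exists_isLeast
    ⟨1, f1.le⟩
  have h2 : ∀ s, s ≤ a → ‖f s - u‖ ≤ ε := fun s hs => by
    by_contra hlt
    obtain ⟨t, ht, e⟩ := intermediate_value_Icc (nonneg' (t := s)) hc.continuousOn
      (show ε ∈ Icc ‖f 0 - u‖ ‖f s - u‖ from ⟨by simp [f0, hε.le], (not_le.1 hlt).le⟩)
    have h3 : a ≤ t := hmin (show ε ≤ ‖f t - u‖ from e.ge)
    have h4 : t = s := le_antisymm ht.2 (hs.trans h3)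
    rw [h4] at e
    exact hlt e.le
  exact ⟨a, le_antisymm (h2 a le_rfl) ha, h2⟩

namespace Lifts

variable {V : Type} (L : Lifts V)

theorem exists_exit [Finite V] : ∃ (ε : V → ℝ) (t : V → V → I), (∀ u, 0 < ε u) ∧
    ∀ u v, u ≠ v → ‖L.G u v (t u v) - L.z u‖ = ε u ∧
      ∀ s, s ≤ t u v → ‖L.G u v s - L.z u‖ ≤ ε u := by
  have h1 : ∀ u, ∃ ε : ℝ, 0 < ε ∧ ∀ v, u ≠ v → ε < ‖L.G u v 1 - L.z u‖ := fun u => by
    have : ∀ᶠ ε in 𝓝[>] (0 : ℝ), ∀ v, u ≠ v → ε < ‖L.G u v 1 - L.z u‖ := by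
      rw [Filter.eventually_all]
      intro v
      by_cases h : u = v
      · exact Filter.Eventually.of_forall fun _ h' => absurd h h'
      have hp : 0 < ‖L.G u v 1 - L.z u‖ := by
        rw [norm_pos_iff, sub_ne_zero]
        intro e
        rcases L.vert u v u 1 false h e with h' | h'
        · exact one_ne_zero h'.2.1
        · exact h h'.1
      exact (Filter.Eventually.filter_mono nhdsWithin_le_nhds (gt_mem_nhds hp)).mono
        fun _ h' _ => h'
    obtain ⟨ε, h, h'⟩ := (this.and self_mem_nhdsWithin).exists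
    exact ⟨ε, h', h⟩
  choose ε hε hε' using h1
  have h2 : ∀ u v, ∃ t : I, u ≠ v → ‖L.G u v t - L.z u‖ = ε u ∧
      ∀ s, s ≤ t → ‖L.G u v s - L.z u‖ ≤ ε u := fun u v => by
    by_cases h : u = v
    · exact ⟨0, fun h' => absurd h h'⟩
    obtain ⟨a, ha⟩ := first_exit (L.cont u v h) (hε u) (L.G0 u v h) (hε' u v h)
    exact ⟨a, fun _ => ha⟩
  choose t ht using h2
  exact ⟨ε, t, hε, ht⟩

variable (t : V → V → I)

/-- The term of an edge at its own start. -/
noncomputable def own (u v : V) : ℝ :=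
  var (fun s => L.G u v (max s (t u v)) - L.z u) + arg (L.G u v (t u v) - L.z u) -
    var (L.G u v) / 2

/-- The term of an edge at another point. -/
noncomputable def gen (u v w : V) (b : Bool) : ℝ :=
  var (fun s => L.G u v s - tw b (L.z w)) - var (L.G u v) / 2

open Classical in
/-- All terms, divided by a half turn. -/
noncomputable def a (u v w : V) (b : Bool) : ℝ :=
  (if w = u ∧ b = false then L.own t u v else
    if w = v ∧ b = L.sg u v then -pm (L.sg u v) * L.own t v u else L.gen u v w b) / π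

theorem off {u v w : V} {b : Bool} (h : u ≠ v) (h1 : ¬(w = u ∧ b = false))
    (h2 : ¬(w = v ∧ b = L.sg u v)) (s : I) : L.G u v s ≠ tw b (L.z w) := fun e => by
  rcases L.vert u v w s b h e with h' | h'
  · exact h1 ⟨h'.1, h'.2.2⟩
  · exact h2 ⟨h'.1, h'.2.2⟩

theorem a_gen {u v w : V} {b : Bool} (h1 : ¬(w = u ∧ b = false))
    (h2 : ¬(w = v ∧ b = L.sg u v)) : L.a t u v w b = L.gen u v w b / π := by
  rw [a, if_neg h1, if_neg h2]

theorem var_G_rev {u v : V} (h : u ≠ v) : var (L.G v u) = -var (L.G u v) := by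
  have e : L.G v u = fun s => (fun s => tw (L.sg u v) (L.G u v s)) (σ s) :=
    funext fun s => L.rev u v s h
  rw [e, var_rev (tw_cont (L.cont u v h) (fun s => L.ne u v s h) _)
    (fun s => tw_ne (L.ne u v s h) _), var_tw0 (L.cont u v h) (fun s => L.ne u v s h)]

theorem twisted {u v : V} (h : u ≠ v) (c : Bool) {w : V} {b : Bool}
    (hne : ∀ s, L.G u v s ≠ tw (xor c b) (L.z w)) :
    var (fun s => tw c (L.G u v s) - tw b (L.z w)) =
      pm c * L.gen u v w (xor c b) + var (L.G u v) / 2 := by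
  have := var_tw (L.cont u v h) (fun s => L.ne u v s h) (tw_ne (L.z_ne w) b) c
    (by rw [tw_tw]; exact hne)
  rw [tw_tw] at this
  rw [gen]
  linarith

theorem a_rev (u v w : V) (b : Bool) (h : u ≠ v) :
    L.a t v u w b = -pm (L.sg u v) * L.a t u v w (xor b (L.sg u v)) := by
  by_cases h1 : w = v ∧ b = false
  · obtain ⟨rfl, rfl⟩ := h1
    rw [a, a, if_pos ⟨rfl, rfl⟩, if_neg (fun h' => h h'.1.symm), if_pos ⟨rfl, by simp⟩]
    cases L.sg u w <;> simp [neg_div]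
  by_cases h2 : w = u ∧ b = L.sg v u
  · obtain ⟨rfl, rfl⟩ := h2
    rw [a, a, if_neg h1, if_pos ⟨rfl, rfl⟩, if_pos ⟨rfl, by simp [L.sg_symm v w]⟩, L.sg_symm v w]
    ring
  have h3 : ¬(w = u ∧ xor b (L.sg u v) = false) := fun h' => h2 ⟨h'.1, by
    rw [L.sg_symm v u]; simpa using h'.2⟩
  have h4 : ¬(w = v ∧ xor b (L.sg u v) = L.sg u v) := fun h' => h1 ⟨h'.1, by
    have := h'.2; revert this; cases L.sg u v <;> cases b <;> simp⟩
  rw [L.a_gen t h1 h2, L.a_gen t h3 h4, gen, L.var_G_rev h]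
  have e : (fun s => L.G v u s - tw b (L.z w)) =
      fun s => (fun s => tw (L.sg u v) (L.G u v s) - tw b (L.z w)) (σ s) :=
    funext fun s => by rw [L.rev u v s h]
  have hne : ∀ s, L.G u v s ≠ tw (xor (L.sg u v) b) (L.z w) := fun s => by
    rw [Bool.xor_comm]; exact L.off h h3 h4 s
  rw [e, var_rev (f := fun s => tw (L.sg u v) (L.G u v s) - tw b (L.z w)) ((tw_cont (L.cont u v h) (fun s => L.ne u v s h) _).sub continuous_const)
    (fun s => sub_ne_zero.2 fun e' => hne s (by rw [← tw_tw, ← e', tw_tw]; simp [tw])),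
    L.twisted h _ hne, Bool.xor_comm]
  ring

/-- When no end lies on the other lift the pairing is the variation round the square. -/
theorem pairing_eq {u v w y : V} {b : Bool} (h : u ≠ v) (h' : w ≠ y)
    (h1 : ¬(w = u ∧ b = false)) (h2 : ¬(w = v ∧ b = L.sg u v))
    (h3 : ¬(y = u ∧ xor b (L.sg w y) = false)) (h4 : ¬(y = v ∧ xor b (L.sg w y) = L.sg u v)) :
    pairing L.sg (L.a t) u v w y b = bd (L.G u v) (fun s => tw b (L.G w y s)) / π := by
  have k1 : ¬(v = w ∧ xor (L.sg u v) b = false) := fun k => h2 ⟨k.1.symm, by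
    have := k.2; revert this; cases L.sg u v <;> cases b <;> simp⟩
  have k2 : ¬(v = y ∧ xor (L.sg u v) b = L.sg w y) := fun k => h4 ⟨k.1.symm, by
    have := k.2; revert this; cases L.sg u v <;> cases b <;> cases L.sg w y <;> simp⟩
  have k3 : ¬(u = w ∧ b = false) := fun k => h1 ⟨k.1.symm, k.2⟩
  have k4 : ¬(u = y ∧ b = L.sg w y) := fun k => h3 ⟨k.1.symm, by simp [k.2]⟩
  rw [pairing, L.a_gen t h1 h2, L.a_gen t h3 h4, L.a_gen t k1 k2, L.a_gen t k3 k4, bd]
  simp only [L.G0 _ _ h, L.G0 _ _ h', L.G1 _ _ h, L.G1 _ _ h', tw_tw]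
  have e1 := L.twisted h' b (w := v) (b := L.sg u v)
    (by rw [Bool.xor_comm]; exact L.off h' k1 k2)
  have e2 := L.twisted h' b (w := u) (b := false) (by rw [Bool.xor_false]; exact L.off h' k3 k4)
  rw [Bool.xor_false] at e2
  rw [show tw false (L.z u) = L.z u from rfl] at e2
  rw [e1, e2, Bool.xor_comm b (L.sg u v), gen, gen]
  ring

theorem exists_model [Finite V] : ∃ M : RModel V, ∀ u v w y b, Dist4 u v w y →
    M.D u v w y b ≠ 0 → ∃ s s', L.G u v s = tw b (L.G w y s') := by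
  obtain ⟨ε, t, hε, ht⟩ := L.exists_exit
  have hc := fun u v w (h : u ≠ v) (h' : u ≠ w) (h'' : v ≠ w) =>
    corner (L.cont u v h) (L.cont u w h') (hε u) (L.G0 u v h) (L.G0 u w h')
      (fun s s' e => (L.adj u v w s s' false h h' e).2 h'') (ht u v h).1 (ht u w h').1
      (ht u v h).2 (ht u w h').2
  refine ⟨⟨L.sg, fun u v => arg (L.G u v (t u v) - L.z u), L.a t, L.sg_symm, L.sg_self,
    fun u v w h h' h'' => (hc u v w h h' h'').1, L.a_rev t, fun u v w h h' h'' => ?_,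
    fun u v w h h' => ?_, fun u v w y b h => ?_⟩, fun u v w y b h hD => ?_⟩
  · have := (hc u v w h h' h'').2
    rw [pairing, L.a_gen t (w := w) (fun k => h' k.1.symm) (fun k => h'' k.1.symm),
      L.a_gen t (w := v) (fun k => h k.1.symm) (fun k => h'' k.1), a, a, if_pos ⟨rfl, rfl⟩,
      if_pos ⟨rfl, rfl⟩, own, own, gen, gen]
    rw [L.G1 _ _ h, L.G1 _ _ h'] at this
    simp only [Bool.false_xor, Bool.xor_false, pm_false, one_mul]
    have hp := Real.pi_ne_zero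
    split_ifs at this ⊢ with c
    · field_simp; linarith
    · field_simp; linarith
  · rw [L.pairing_eq t h h' (by simp) (fun k => h k.1) (fun k => h' k.1.symm)
      (by rintro ⟨rfl, k⟩; revert k; cases L.sg u w <;> simp), bd_zero (L.cont u v h)
      (tw_cont (L.cont u w h') (fun s => L.ne u w s h') _)
      (fun s s' e => by simpa using (L.adj u v w s s' true h h' e).1), zero_div]
  · obtain ⟨h1, h2, h3, h4, h5, h6⟩ := h
    rw [L.pairing_eq t h1 h6 (fun k => h2 k.1.symm) (fun k => h4 k.1.symm) (fun k => h3 k.1.symm)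
      (fun k => h5 k.1.symm)]
    have q : ∀ s p c, p = u ∨ p = v → tw b (L.G w y s) ≠ tw c (L.z p) := fun s p c hp e =>
      L.off (w := p) (b := xor b c) h6 (fun k => hp.elim (fun r => h2 (r.symm.trans k.1))
        fun r => h4 (r.symm.trans k.1)) (fun k => hp.elim (fun r => h3 (r.symm.trans k.1))
        fun r => h5 (r.symm.trans k.1)) s (by rw [← tw_tw, ← e, tw_tw]; simp [tw])
    obtain ⟨n, hn⟩ := bd_int (L.cont u v h1) (tw_cont (L.cont w y h6) (fun s => L.ne w y s h6) b)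
      (fun s => by
        rw [L.G0 _ _ h6]; exact L.off h1 (fun k => h2 k.1.symm) (fun k => h4 k.1.symm) s)
      (fun s => by
        rw [L.G1 _ _ h6, tw_tw]; exact L.off h1 (fun k => h3 k.1.symm) (fun k => h5 k.1.symm) s)
      (fun s => by rw [L.G0 _ _ h1]; exact q s u false (Or.inl rfl))
      (fun s => by rw [L.G1 _ _ h1]; exact q s v _ (Or.inr rfl))
    exact ⟨n, by rw [hn]; field_simp⟩
  · obtain ⟨h1, h2, h3, h4, h5, h6⟩ := h
    by_contra hn
    push Not at hn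
    apply hD
    rw [RModel.D, L.pairing_eq t h1 h6 (fun k => h2 k.1.symm) (fun k => h4 k.1.symm)
      (fun k => h3 k.1.symm) (fun k => h5 k.1.symm), bd_zero (L.cont u v h1)
      (tw_cont (L.cont w y h6) (fun s => L.ne w y s h6) b) hn, zero_div]

end Lifts

theorem exists_lifts {v : ℕ} (D : Drawing ProjPlane v) (hD : Clean D) :
    ∃ (L : Lifts (Fin v)) (P : ℂ → ProjPlane), (∀ x b, x ≠ 0 → P (tw b x) = P x) ∧
      (∀ u w s, u ≠ w → P (L.G u w s) ∈ tr D u w) ∧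
      ∀ u w s s', u ≠ w → P (L.G u w s) = P (L.G u w s') → s = s' := by
  obtain ⟨P, z, Γ, sg, hP, hz, hPz, hc, h0, hPΓ, Γ0, Γ1⟩ := exists_lift D
  have hP' : ∀ x b, x ≠ 0 → P (tw b x) = P x := fun x b hx => by
    cases b
    · rfl
    · exact hP x hx
  let sg' : Fin v → Fin v → Bool := fun u w =>
    if h : u < w then sg ⟨(u, w), h⟩ else if h : w < u then sg ⟨(w, u), h⟩ else false
  let G : Fin v → Fin v → I → ℂ := fun u w s =>
    if h : u < w then Γ ⟨(u, w), h⟩ s else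
      if h : w < u then tw (sg ⟨(w, u), h⟩) (Γ ⟨(w, u), h⟩ (σ s)) else 0
  have s1 : ∀ u w (h : u < w), sg' u w = sg ⟨(u, w), h⟩ := fun u w h => dif_pos h
  have s2 : ∀ u w (h : w < u), sg' u w = sg ⟨(w, u), h⟩ := fun u w h =>
    (dif_neg h.not_gt).trans (dif_pos h)
  have g1 : ∀ u w (h : u < w), G u w = Γ ⟨(u, w), h⟩ := fun u w h => funext fun s => dif_pos h
  have g2 : ∀ u w (h : w < u), G u w = fun s => tw (sg ⟨(w, u), h⟩) (Γ ⟨(w, u), h⟩ (σ s)) :=
    fun u w h => funext fun s => (dif_neg h.not_gt).trans (dif_pos h)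
  have key : ∀ u w, u ≠ w → ∃ (e : Edge v) (ρ : I → I), Function.Injective ρ ∧
      (e.1 = (u, w) ∨ e.1 = (w, u)) ∧ (∀ s, P (G u w s) = D.arc e (ρ s)) := fun u w h => by
    rcases lt_or_gt_of_ne h with h | h
    · exact ⟨⟨(u, w), h⟩, id, Function.injective_id, Or.inl rfl, fun s => by rw [g1 _ _ h, hPΓ]; rfl⟩
    · exact ⟨⟨(w, u), h⟩, σ, symm_bijective.1, Or.inr rfl, fun s => by
        rw [g2 _ _ h, hP' _ _ (h0 _ _), hPΓ]⟩
  have hne : ∀ u w s, u ≠ w → G u w s ≠ 0 := fun u w s h => by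
    rcases lt_or_gt_of_ne h with h | h
    · rw [g1 _ _ h]; exact h0 _ _
    · rw [g2 _ _ h]; exact tw_ne (h0 _ _) _
  have hG0 : ∀ u w, u ≠ w → G u w 0 = z u := fun u w h => by
    rcases lt_or_gt_of_ne h with h | h
    · rw [g1 _ _ h, Γ0]
    · rw [g2 _ _ h]; simp [Γ1, tw_tw, tw_false]
  have hG1 : ∀ u w, u ≠ w → G u w 1 = tw (sg' u w) (z w) := fun u w h => by
    rcases lt_or_gt_of_ne h with h | h
    · rw [g1 _ _ h, Γ1, s1 _ _ h]
    · rw [g2 _ _ h, s2 _ _ h]; simp [Γ0]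
  have hinj : ∀ u w s s', u ≠ w → P (G u w s) = P (G u w s') → s = s' := fun u w s s' h e => by
    obtain ⟨g, ρ, hρ, -, hg⟩ := key u w h
    rw [hg, hg] at e
    exact hρ (D.arc_inj g e)
  have hv : ∀ u w y s, u ≠ w → P (G u w s) = D.pt y → (y = u ∧ s = 0) ∨ (y = w ∧ s = 1) :=
    fun u w y s h e => by
      obtain ⟨g, ρ, hρ, hg, hg'⟩ := key u w h
      have h1 := D.arc_avoid g y ⟨_, (hg' s).symm.trans e⟩
      have h2 : y = u ∨ y = w := by
        rcases hg with hg | hg <;> rw [hg] at h1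
        · exact h1
        · exact h1.symm
      refine h2.imp (fun h2 => ⟨h2, hinj u w _ _ h ?_⟩) (fun h2 => ⟨h2, hinj u w _ _ h ?_⟩)
      · rw [e, hG0 _ _ h, hPz, h2]
      · rw [e, hG1 _ _ h, hP' _ _ (hz _), hPz, h2]
  refine ⟨⟨z, sg', G, hz, fun u w => ?_, fun u => by simp [sg'], fun u w h => ?_, hne, hG0, hG1,
    fun u w s h => ?_, fun u w y s b h e => ?_, fun u w y s t b h h' e => ?_⟩, P, hP',
    fun u w s h => ?_, hinj⟩
  · rcases lt_trichotomy u w with h | rfl | h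
    · rw [s1 _ _ h, s2 _ _ h]
    · rfl
    · rw [s1 _ _ h, s2 _ _ h]
  · rcases lt_or_gt_of_ne h with h | h
    · rw [g1 _ _ h]; exact hc _
    · rw [g2 _ _ h]
      exact tw_cont ((hc _).comp continuous_symm) (fun s => h0 _ _) _
  · rcases lt_or_gt_of_ne h with h | h
    · rw [g2 _ _ h, g1 _ _ h, s1 _ _ h]
    · rw [g1 _ _ h, g2 _ _ h, s2 _ _ h]; simp [tw_tw, tw_false]
  · rcases hv u w y s h (by rw [e, hP' _ _ (hz _), hPz]) with ⟨rfl, rfl⟩ | ⟨rfl, rfl⟩
    · rw [hG0 _ _ h] at e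
      exact Or.inl ⟨rfl, rfl, (tw_inj (hz _) (b := false) e).symm⟩
    · rw [hG1 _ _ h] at e
      exact Or.inr ⟨rfl, rfl, (tw_inj (hz _) e).symm⟩
  · have e' : P (G u w s) = P (G u y t) := by rw [e, hP' _ _ (hne _ _ _ h')]
    by_cases hw : w = y
    · subst hw
      obtain rfl := hinj _ _ _ _ h e'
      exact ⟨(tw_inj (hne _ _ _ h) (b := false) e).symm, fun k => absurd rfl k⟩
    obtain ⟨g, ρ, -, hg, hg'⟩ := key u w h
    obtain ⟨g', ρ', -, hk, hk'⟩ := key u y h'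
    have hgg : g ≠ g' := by
      rintro rfl
      rcases hg with hg | hg <;> rcases hk with hk | hk <;> rw [hg] at hk <;>
        simp only [Prod.mk.injEq] at hk
      · exact hw hk.2
      · exact h' hk.1
      · exact h' hk.2
      · exact hw hk.1
    have hadj : Adj g g' := by
      rcases hg with hg | hg <;> rcases hk with hk | hk <;> simp [Adj, hg, hk]
    obtain ⟨p, hp⟩ := hD g g' hgg hadj _ ⟨_, (hg' s).symm⟩ ⟨_, (hk' t).symm.trans e'.symm⟩
    rcases hv u w p s h hp.symm with ⟨rfl, rfl⟩ | ⟨rfl, rfl⟩ <;>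
      rcases hv _ y _ t h' (e'.symm.trans hp.symm) with ⟨k, rfl⟩ | ⟨k, rfl⟩
    · rw [hG0 _ _ h, hG0 _ _ h'] at e
      exact ⟨(tw_inj (hz _) (b := false) e).symm, fun _ => ⟨rfl, rfl⟩⟩
    · exact absurd k h'
    · exact absurd k.symm h
    · exact absurd k hw
  · obtain ⟨g, ρ, -, hg, hg'⟩ := key u w h
    exact ⟨g, hg, _, (hg' s).symm⟩

theorem model_of_clean {v : ℕ} (D : Drawing ProjPlane v) (hD : Clean D) :
    ∃ M : RModel (Fin v), ∀ a b c d, Dist4 a b c d →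
      (M.x a b c d : ℕ∞) ≤ (tr D a b ∩ tr D c d).encard := by
  obtain ⟨L, P, hP, htr, hinj⟩ := exists_lifts D hD
  obtain ⟨M, hM⟩ := L.exists_model
  refine ⟨M, fun a b c d h => ?_⟩
  have h1 := h.1
  have h6 := h.2.2.2.2.2
  have mem : ∀ e s s', L.G a b s = tw e (L.G c d s') → P (L.G a b s) ∈ tr D a b ∩ tr D c d :=
    fun e s s' k => ⟨htr _ _ _ h1, by rw [k, hP _ _ (L.ne _ _ _ h6)]; exact htr _ _ _ h6⟩
  rw [RModel.x]
  split_ifs with c0 c1 c1
  · simp
  · obtain ⟨s, s', k⟩ := hM a b c d true h c1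
    simpa using Set.one_le_encard_iff_nonempty.2 ⟨_, mem _ _ _ k⟩
  · obtain ⟨s, s', k⟩ := hM a b c d false h c0
    simpa using Set.one_le_encard_iff_nonempty.2 ⟨_, mem _ _ _ k⟩
  · obtain ⟨s, s', k⟩ := hM a b c d false h c0
    obtain ⟨t, t', k'⟩ := hM a b c d true h c1
    have hne : P (L.G a b s) ≠ P (L.G a b t) := fun e => by
      obtain rfl := hinj _ _ _ _ h1 e
      have e2 := k.symm.trans k'
      have e3 := congrArg P e2
      rw [hP _ _ (L.ne _ _ _ h6), hP _ _ (L.ne _ _ _ h6)] at e3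
      obtain rfl := hinj _ _ _ _ h6 e3
      simpa using tw_inj (L.ne _ _ _ h6) e2
    have := Set.encard_le_encard (s := {P (L.G a b s), P (L.G a b t)})
      (t := tr D a b ∩ tr D c d) (by
        rintro x (rfl | rfl)
        · exact mem _ _ _ k
        · exact mem _ _ _ k')
    rw [Set.encard_pair hne] at this
    exact_mod_cast this

end Pool.Agent.MP_d7736f_co.LB

end
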