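import Pool.Agent.Mg.Fd7736fq.G6690aa

set_option linter.all false

namespace Pool.Agent.MP_d7736f_co.TB

theorem chk60 : chk true true false false false false = true := by decide +kernel

theorem chk61 : chk true true false false false true = true := by decide +kernel

theorem chk62 : chk true true false false true false = true := by decide +kernel

theorem chk63 : chk true true false false true true = true := by decide +kernel

theorem chk64 : chk true true false true false false = true := by decide +kernel

theorem chk65 : chk true true false true false true = true := by decide +kernel

theorem chk66 : chk true true false true true false = true := by decide +kernel

theorem chk67 : chk true true false true true true = true := by decide +kernel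

theorem chk6 (d e f : Bool) : chk true true false d e f = true := by
  cases d <;> cases e <;> cases f
  exacts [chk60, chk61, chk62, chk63, chk64, chk65, chk66, chk67]

end Pool.Agent.MP_d7736f_co.TB
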