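import Pool.Agent.Mg.Fd7736fq.G762abb
import Pool.Agent.Mg.Fd7736fq.G6690aa
import Pool.Agent.Mg.Fd7736fq.G3a297f
import Pool.Agent.Mg.Fd7736fq.Gf03f35
import Pool.Agent.Mg.Fd7736fq.G194de9
import Pool.Agent.Mg.Fd7736fq.G075a1e
import Pool.Agent.Mg.Fd7736fq.G992d99
import Pool.Agent.Mg.Fd7736fq.G6d9926

set_option linter.all false

section

/-!
The bits attached to three and four vertices of a model, and their relations.
-/

namespace Pool.Agent.MP_d7736f_co.TB

open LB

/-- The sign of a bit. -/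
def si (b : Bool) : ℤ := if b then 1 else -1

theorem bodd_sub (m n : ℤ) : (m - n).bodd = xor m.bodd n.bodd := by
  rw [sub_eq_add_neg, Int.bodd_add, Int.bodd_neg]

theorem bodd_om (x y : ℤ × ℤ) : (om x y).bodd = omB x.1.bodd x.2.bodd y.1.bodd y.2.bodd := by
  rw [om, bodd_sub, Int.bodd_mul, Int.bodd_mul, omB]

theorem par_add {m k : ℤ} {s t : Bool} (h : 2 * m - si s - si t = -2 * k) :
    m.bodd = xor k.bodd (!(xor s t)) := by
  cases s <;> cases t <;> simp only [si, if_true, Bool.false_eq_true, if_false] at h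
  · obtain rfl : m = -k - 1 := by omega
    simp [bodd_sub]
  · obtain rfl : m = -k := by omega
    simp
  · obtain rfl : m = -k := by omega
    simp
  · obtain rfl : m = -k + 1 := by omega
    simp

theorem par_sub {m k : ℤ} {s t : Bool} (h : 2 * m - si s + si t = -2 * k) :
    m.bodd = xor k.bodd (xor s t) := by
  have := par_add (m := m) (k := k) (s := s) (t := !t) (by
    rw [← h]; cases t <;> simp [si, sub_eq_add_neg])
  rw [this]
  cases s <;> cases t <;> rfl

namespace TModel

variable {V : Type} (M : TModel V) {u a b c d e : V}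

/-- The class of a triangle. -/
def H (a b c : V) : ℤ × ℤ := M.h a b + M.h b c + M.h c a

/-- The first bit of the class of a triangle. -/
def P (a b c : V) : Bool := (M.H a b c).1.bodd

/-- The second bit of the class of a triangle. -/
def R (a b c : V) : Bool := (M.H a b c).2.bodd

theorem H_rot (a b c : V) : M.H b c a = M.H a b c := by simp only [H]; abel

theorem H_swap (a b c : V) : M.H a c b = -M.H a b c := by
  simp only [H, M.h_rev c a, M.h_rev b c, M.h_rev a b]; abel

theorem H_co (a b c d : V) : M.H b c d = M.H a b c - M.H a b d + M.H a c d := by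
  simp only [H, M.h_rev c a, M.h_rev b d]; abel

theorem P_rot (a b c : V) : M.P b c a = M.P a b c := by rw [P, H_rot, P]

theorem R_rot (a b c : V) : M.R b c a = M.R a b c := by rw [R, H_rot, R]

theorem P_swap (a b c : V) : M.P a c b = M.P a b c := by simp [P, M.H_swap a b c]

theorem R_swap (a b c : V) : M.R a c b = M.R a b c := by simp [R, M.H_swap a b c]

theorem P_co (a b c d : V) : x3 (M.P a b c) (M.P a b d) (M.P a c d) = M.P b c d := by
  simp [P, M.H_co a b c d, x3, bodd_sub]

theorem R_co (a b c d : V) : x3 (M.R a b c) (M.R a b d) (M.R a c d) = M.R b c d := by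
  simp [R, M.H_co a b c d, x3, bodd_sub]

/-- The rotation at `u` of three other vertices. -/
noncomputable def O (u a b c : V) : Bool :=
  xor (xor (decide (M.ang u a < M.ang u b)) (decide (M.ang u b < M.ang u c)))
    (decide (M.ang u c < M.ang u a))

theorem O_rot (u a b c : V) : M.O u b c a = M.O u a b c := by
  simp only [O]
  cases decide (M.ang u a < M.ang u b) <;> cases decide (M.ang u b < M.ang u c) <;>
    cases decide (M.ang u c < M.ang u a) <;> rfl

theorem dec_lt {x y : ℝ} (h : x ≠ y) : decide (y < x) = !decide (x < y) := by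
  rcases lt_or_gt_of_ne h with h | h <;> simp [h, h.not_gt]

theorem O_swap (h : Dist4 u a b c) : M.O u a c b = !M.O u a b c := by
  obtain ⟨h1, h2, h3, h4, h5, h6⟩ := h
  simp only [O]
  rw [dec_lt (M.ang_ne u c a h3 h1 h5.symm), dec_lt (M.ang_ne u b c h2 h3 h6),
    dec_lt (M.ang_ne u a b h1 h2 h4)]
  cases decide (M.ang u a < M.ang u b) <;> cases decide (M.ang u b < M.ang u c) <;>
    cases decide (M.ang u c < M.ang u a) <;> rfl

theorem tri (h : Dist4 u a b c) :
    M.D u a u b + M.D u b u c + M.D u c u a = si (M.O u a b c) := by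
  obtain ⟨h1, h2, h3, h4, h5, h6⟩ := h
  rw [D, D, D, M.adj u a b h1 h2 h4, M.adj u b c h2 h3 h6, M.adj u c a h3 h1 h5.symm, O]
  rcases lt_or_gt_of_ne (M.ang_ne u a b h1 h2 h4) with k1 | k1 <;>
    rcases lt_or_gt_of_ne (M.ang_ne u b c h2 h3 h6) with k2 | k2 <;>
    rcases lt_or_gt_of_ne (M.ang_ne u c a h3 h1 h5.symm) with k3 | k3 <;>
    first
      | (exfalso; linarith)
      | simp [si, k1, k2, k3, k1.not_gt, k2.not_gt, k3.not_gt]

theorem O_cyc (h : Dist4 a b c d) (h1 : u ≠ a) (h2 : u ≠ b) (h3 : u ≠ c) (h4 : u ≠ d) :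
    Cyc (M.O u a b c) (M.O u a b d) (M.O u a c d) (M.O u b c d) := by
  obtain ⟨k1, k2, k3, k4, k5, k6⟩ := h
  simp only [O]
  rcases lt_or_gt_of_ne (M.ang_ne u a b h1 h2 k1) with j1 | j1 <;>
    rcases lt_or_gt_of_ne (M.ang_ne u a c h1 h3 k2) with j2 | j2 <;>
    rcases lt_or_gt_of_ne (M.ang_ne u b c h2 h3 k4) with j4 | j4 <;>
    first
      | (exfalso; linarith)
      | (rcases lt_or_gt_of_ne (M.ang_ne u a d h1 h4 k3) with j3 | j3 <;>
          rcases lt_or_gt_of_ne (M.ang_ne u b d h2 h4 k5) with j5 | j5 <;>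
          rcases lt_or_gt_of_ne (M.ang_ne u c d h3 h4 k6) with j6 | j6 <;>
          first
            | (exfalso; linarith)
            | simp [Cyc, j1, j2, j3, j4, j5, j6, j1.not_gt, j2.not_gt, j3.not_gt, j4.not_gt,
                j5.not_gt, j6.not_gt])

theorem k4 (h : Dist4 a b c d) : ∃ n1 n2 n3 : ℤ, M.D a b c d = 2 * n1 ∧ M.D a c b d = 2 * n2 ∧
    M.D a d b c = 2 * n3 ∧
    2 * (n2 - n3) - si (M.O a b c d) - si (M.O b a c d) = -2 * -om (M.H a b c) (M.H a b d) ∧
    2 * (-n1 - n3) - si (M.O a b c d) + si (M.O c a b d) = -2 * -om (M.H a b c) (M.H a c d) ∧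
    2 * (n2 - n1) - si (M.O a b c d) - si (M.O d a b c) = -2 * -om (M.H a b d) (M.H a c d) := by
  obtain ⟨h1, h2, h3, h4, h5, h6⟩ := h
  obtain ⟨n1, e1⟩ := M.even a b c d ⟨h1, h2, h3, h4, h5, h6⟩
  obtain ⟨n2, e2⟩ := M.even a c b d ⟨h2, h1, h3, h4.symm, h6, h5⟩
  obtain ⟨n3, e3⟩ := M.even a d b c ⟨h3, h1, h2, h5.symm, h6.symm, h4⟩
  refine ⟨n1, n2, n3, e1, e2, e3, ?_⟩
  have t0 := M.tri (⟨h1, h2, h3, h4, h5, h6⟩ : Dist4 a b c d)
  have t1 := M.tri (⟨h1.symm, h4, h5, h2, h3, h6⟩ : Dist4 b a c d)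
  have t2 := M.tri (⟨h2.symm, h4.symm, h6, h1, h3, h5⟩ : Dist4 c a b d)
  have t3 := M.tri (⟨h3.symm, h5.symm, h6.symm, h1, h2, h4⟩ : Dist4 d a b c)
  simp only [D, tpair, H, om, M.rev a b _ h1, M.rev a c _ h2, M.rev a d _ h3, M.rev b c _ h4,
    M.rev b d _ h5, M.rev c d _ h6, M.h_rev a b, M.h_rev a c, M.h_rev a d, M.h_rev b c,
    M.h_rev b d, M.h_rev c d, Prod.fst_add, Prod.snd_add, Prod.fst_neg, Prod.snd_neg]
    at t0 t1 t2 t3 e1 e2 e3 ⊢
  push_cast at t0 t1 t2 t3 e1 e2 e3
  refine ⟨?_, ?_, ?_⟩ <;> apply Int.cast_injective (α := ℝ) <;> push_cast <;> linarith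

/-- The weight of four vertices. -/
noncomputable def w (a b c d : V) : ℕ :=
  wN (omB (M.P a b c) (M.R a b c) (M.P a b d) (M.R a b d))
    (omB (M.P a b c) (M.R a b c) (M.P a c d) (M.R a c d)) (M.O a b c d) (M.O b a c d) (M.O c a b d)

theorem cons (h : Dist4 a b c d) : M.O d a b c =
    fo (omS (M.P a b c) (M.R a b c) (M.P a b d) (M.R a b d) (M.P a c d) (M.R a c d))
      (M.O a b c d) (M.O b a c d) (M.O c a b d) := by
  obtain ⟨n1, n2, n3, -, -, -, k1, k2, k3⟩ := M.k4 h
  have j1 := par_add k1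
  have j2 := par_sub k2
  have j3 := par_add k3
  simp only [bodd_sub, Int.bodd_neg, bodd_om] at j1 j2 j3
  simp only [fo, omS, P, R]
  revert j1 j2 j3
  generalize omB (M.H a b c).1.bodd (M.H a b c).2.bodd (M.H a b d).1.bodd (M.H a b d).2.bodd = x
  generalize omB (M.H a b c).1.bodd (M.H a b c).2.bodd (M.H a c d).1.bodd (M.H a c d).2.bodd = y
  generalize omB (M.H a b d).1.bodd (M.H a b d).2.bodd (M.H a c d).1.bodd (M.H a c d).2.bodd = z
  generalize M.O a b c d = o0
  generalize M.O b a c d = o1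
  generalize M.O c a b d = o2
  generalize M.O d a b c = o3
  generalize n1.bodd = m1
  generalize n2.bodd = m2
  generalize n3.bodd = m3
  revert x y z o0 o1 o2 o3 m1 m2 m3
  decide

theorem wt_le (h : Dist4 a b c d) :
    M.w a b c d ≤ 25000 * (M.x a b c d + M.x a c b d + M.x a d b c) := by
  obtain ⟨n1, n2, n3, e1, e2, e3, k1, k2, -⟩ := M.k4 h
  have j1 := par_add k1
  have j2 := par_sub k2
  simp only [bodd_sub, Int.bodd_neg, bodd_om] at j1 j2
  have k : ∀ {p q r s : V} {n : ℤ}, M.D p q r s = 2 * n → n.bodd = true → M.x p q r s = 1 :=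
    fun {p q r s n} e hn => by
      rw [x, if_neg]
      rw [e]
      rintro h0
      obtain rfl : n = 0 := by
        have : (n : ℝ) = 0 := by linarith
        exact_mod_cast this
      simp at hn
  have k1 := k e1
  have k2 := k e2
  have k3 := k e3
  rw [w, wN, wB, P, P, P, R, R, R, ← j1, ← j2]
  revert k1 k2 k3
  cases n1.bodd <;> cases n2.bodd <;> cases n3.bodd <;> simp <;> omega

end TModel

end Pool.Agent.MP_d7736f_co.TB

end

section

namespace Pool.Agent.MP_d7736f_co.TB

theorem chk30 : chk false true true false false false = true := by decide +kernel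

theorem chk31 : chk false true true false false true = true := by decide +kernel

theorem chk32 : chk false true true false true false = true := by decide +kernel

theorem chk33 : chk false true true false true true = true := by decide +kernel

theorem chk34 : chk false true true true false false = true := by decide +kernel

theorem chk35 : chk false true true true false true = true := by decide +kernel

theorem chk36 : chk false true true true true false = true := by decide +kernel

theorem chk37 : chk false true true true true true = true := by decide +kernel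

theorem chk3 (d e f : Bool) : chk false true true d e f = true := by
  cases d <;> cases e <;> cases f
  exacts [chk30, chk31, chk32, chk33, chk34, chk35, chk36, chk37]

end Pool.Agent.MP_d7736f_co.TB

end

section

/-!
The inequality for five vertices of a model.
-/

namespace Pool.Agent.MP_d7736f_co.TB

open LB

theorem chk_all (a b c d e f : Bool) : chk a b c d e f = true := by
  cases a <;> cases b <;> cases c
  exacts [chk0 d e f, chk1 d e f, chk2 d e f, chk3 d e f, chk4 d e f, chk5 d e f, chk6 d e f,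
    chk7 d e f]

/-- Five different elements. -/
def Dist5 {V : Type} (a b c d e : V) : Prop := Dist4 a b c d ∧ a ≠ e ∧ b ≠ e ∧ c ≠ e ∧ d ≠ e

namespace TModel

variable {V : Type} (M : TModel V) {a b c d e : V}

/-- The vector of three labelled vertices and one more. -/
noncomputable def vec (a b c d : V) : ℕ :=
  vrow (M.P a b c) (M.R a b c) (M.P a b d) (M.P a c d) (M.R a b d) (M.R a c d) (M.O a b c d)
    (M.O b a c d) (M.O c a b d)

/-- The kernel for three labelled vertices and two more. -/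
noncomputable def G (a b c d e : V) : ℤ := dotI (M.vec a b c d) (M.vec a b c e)

/-- The tabulated bound for the kernel. -/
noncomputable def Q (a b c d e : V) : ℕ :=
  qe (row (cl (n5 (M.P a b c) (M.P a b d) (M.P a c d) (M.P a b e) (M.P a c e))
    (n5 (M.R a b c) (M.R a b d) (M.R a c d) (M.R a b e) (M.R a c e))))
    (M.O a b c d) (M.O a b c e) (M.O b a c d) (M.O b a c e) (M.O c a b d) (M.O c a b e)

theorem G_le_Q (a b c d e : V) : M.G a b c d e + 4000 * 24589 ≤ 4000 * (M.Q a b c d e : ℤ) :=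
  dot_le _ _ _ _ _ _ _ _ _ _ _ _ _ _ _ _

theorem G_le (a b c d e : V) : M.G a b c d e ≤ 4000 * 40947 := by
  have h1 := M.G_le_Q a b c d e
  have h2 : M.Q a b c d e < 65536 := qe_lt _ _ _ _ _ _ _
  omega

theorem Q_ineq (h : Dist5 a b c d e) :
    27989 + M.Q a b c d e + M.Q a b d c e + M.Q a b e c d + M.Q a c d b e + M.Q a c e b d +
      M.Q a d e b c + M.Q b c d a e + M.Q b c e a d + M.Q b d e a c + M.Q c d e a b ≤
      245890 + M.w a b c d + M.w a b c e + M.w a b d e + M.w a c d e + M.w b c d e := by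
  obtain ⟨⟨h1, h2, h3, h4, h5, h6⟩, h7, h8, h9, h10⟩ := h
  have q0 : Dist4 a b c d := ⟨h1, h2, h3, h4, h5, h6⟩
  have q1 : Dist4 a b c e := ⟨h1, h2, h7, h4, h8, h9⟩
  have q2 : Dist4 a b d e := ⟨h1, h3, h7, h5, h8, h10⟩
  have q3 : Dist4 a c d e := ⟨h2, h3, h7, h6, h9, h10⟩
  have q4 : Dist4 b c d e := ⟨h4, h5, h8, h6, h9, h10⟩
  have H := allB_sound (allB_sound (allB_sound (allB_sound (allB_sound (allB_sound
    (chk_all (M.P a b c) (M.P a b d) (M.P a b e) (M.P a c d) (M.P a c e) (M.P a d e))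
    (M.R a b c)) (M.R a b d)) (M.R a b e)) (M.R a c d)) (M.R a c e)) (M.R a d e)
  simp only [leaf, force_eq, forceB_eq, M.P_co, M.R_co] at H
  have K := rots_sound H (M.O_cyc q4 h1 h2 h3 h7) (M.O_cyc q3 h1.symm h4 h5 h8)
    (M.O_cyc q2 h2.symm h4.symm h6 h9) (M.O_cyc q1 h3.symm h5.symm h6.symm h10)
    (M.O_cyc q0 h7.symm h8.symm h9.symm h10.symm) (M.cons q0) (M.cons q1) (M.cons q2) (M.cons q3)
  have pacb : M.P a c b = M.P a b c := M.P_swap a b c
  have racb : M.R a c b = M.R a b c := M.R_swap a b c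
  have padb : M.P a d b = M.P a b d := M.P_swap a b d
  have radb : M.R a d b = M.R a b d := M.R_swap a b d
  have padc : M.P a d c = M.P a c d := M.P_swap a c d
  have radc : M.R a d c = M.R a c d := M.R_swap a c d
  have paeb : M.P a e b = M.P a b e := M.P_swap a b e
  have raeb : M.R a e b = M.R a b e := M.R_swap a b e
  have paec : M.P a e c = M.P a c e := M.P_swap a c e
  have raec : M.R a e c = M.R a c e := M.R_swap a c e
  have paed : M.P a e d = M.P a d e := M.P_swap a d e
  have raed : M.R a e d = M.R a d e := M.R_swap a d e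
  have pbca : M.P b c a = M.P a b c := M.P_rot a b c
  have rbca : M.R b c a = M.R a b c := M.R_rot a b c
  have pbda : M.P b d a = M.P a b d := M.P_rot a b d
  have rbda : M.R b d a = M.R a b d := M.R_rot a b d
  have pbdc : M.P b d c = M.P b c d := M.P_swap b c d
  have rbdc : M.R b d c = M.R b c d := M.R_swap b c d
  have pbea : M.P b e a = M.P a b e := M.P_rot a b e
  have rbea : M.R b e a = M.R a b e := M.R_rot a b e
  have pbec : M.P b e c = M.P b c e := M.P_swap b c e
  have rbec : M.R b e c = M.R b c e := M.R_swap b c e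
  have pbed : M.P b e d = M.P b d e := M.P_swap b d e
  have rbed : M.R b e d = M.R b d e := M.R_swap b d e
  have pcda : M.P c d a = M.P a c d := M.P_rot a c d
  have rcda : M.R c d a = M.R a c d := M.R_rot a c d
  have pcdb : M.P c d b = M.P b c d := M.P_rot b c d
  have rcdb : M.R c d b = M.R b c d := M.R_rot b c d
  have pcea : M.P c e a = M.P a c e := M.P_rot a c e
  have rcea : M.R c e a = M.R a c e := M.R_rot a c e
  have pceb : M.P c e b = M.P b c e := M.P_rot b c e
  have rceb : M.R c e b = M.R b c e := M.R_rot b c e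
  have oabdc : M.O a b d c = !M.O a b c d :=
    M.O_swap (⟨h1, h2, h3, h4, h5, h6⟩ : Dist4 a b c d)
  have oabec : M.O a b e c = !M.O a b c e :=
    M.O_swap (⟨h1, h2, h7, h4, h8, h9⟩ : Dist4 a b c e)
  have oabed : M.O a b e d = !M.O a b d e :=
    M.O_swap (⟨h1, h3, h7, h5, h8, h10⟩ : Dist4 a b d e)
  have oacdb : M.O a c d b = M.O a b c d :=
    M.O_rot a b c d
  have oaceb : M.O a c e b = M.O a b c e :=
    M.O_rot a b c e
  have oaced : M.O a c e d = !M.O a c d e :=
    M.O_swap (⟨h2, h3, h7, h6, h9, h10⟩ : Dist4 a c d e)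
  have oadeb : M.O a d e b = M.O a b d e :=
    M.O_rot a b d e
  have oadec : M.O a d e c = M.O a c d e :=
    M.O_rot a c d e
  have obadc : M.O b a d c = !M.O b a c d :=
    M.O_swap (⟨h1.symm, h4, h5, h2, h3, h6⟩ : Dist4 b a c d)
  have obaec : M.O b a e c = !M.O b a c e :=
    M.O_swap (⟨h1.symm, h4, h8, h2, h7, h9⟩ : Dist4 b a c e)
  have obaed : M.O b a e d = !M.O b a d e :=
    M.O_swap (⟨h1.symm, h5, h8, h3, h7, h10⟩ : Dist4 b a d e)
  have obcda : M.O b c d a = M.O b a c d :=
    M.O_rot b a c d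
  have obcea : M.O b c e a = M.O b a c e :=
    M.O_rot b a c e
  have obced : M.O b c e d = !M.O b c d e :=
    M.O_swap (⟨h4, h5, h8, h6, h9, h10⟩ : Dist4 b c d e)
  have obdea : M.O b d e a = M.O b a d e :=
    M.O_rot b a d e
  have obdec : M.O b d e c = M.O b c d e :=
    M.O_rot b c d e
  have ocadb : M.O c a d b = !M.O c a b d :=
    M.O_swap (⟨h2.symm, h4.symm, h6, h1, h3, h5⟩ : Dist4 c a b d)
  have ocaeb : M.O c a e b = !M.O c a b e :=
    M.O_swap (⟨h2.symm, h4.symm, h9, h1, h7, h8⟩ : Dist4 c a b e)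
  have ocaed : M.O c a e d = !M.O c a d e :=
    M.O_swap (⟨h2.symm, h6, h9, h3, h7, h10⟩ : Dist4 c a d e)
  have ocbda : M.O c b d a = M.O c a b d :=
    M.O_rot c a b d
  have ocbea : M.O c b e a = M.O c a b e :=
    M.O_rot c a b e
  have ocbed : M.O c b e d = !M.O c b d e :=
    M.O_swap (⟨h4.symm, h6, h9, h5, h8, h10⟩ : Dist4 c b d e)
  have ocdea : M.O c d e a = M.O c a d e :=
    M.O_rot c a d e
  have ocdeb : M.O c d e b = M.O c b d e :=
    M.O_rot c b d e
  have odacb : M.O d a c b = !M.O d a b c :=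
    M.O_swap (⟨h3.symm, h5.symm, h6.symm, h1, h2, h4⟩ : Dist4 d a b c)
  have odaeb : M.O d a e b = !M.O d a b e :=
    M.O_swap (⟨h3.symm, h5.symm, h10, h1, h7, h8⟩ : Dist4 d a b e)
  have odaec : M.O d a e c = !M.O d a c e :=
    M.O_swap (⟨h3.symm, h6.symm, h10, h2, h7, h9⟩ : Dist4 d a c e)
  have odbca : M.O d b c a = M.O d a b c :=
    M.O_rot d a b c
  have odbea : M.O d b e a = M.O d a b e :=
    M.O_rot d a b e
  have odbec : M.O d b e c = !M.O d b c e :=
    M.O_swap (⟨h5.symm, h6.symm, h10, h4, h8, h9⟩ : Dist4 d b c e)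
  have odcea : M.O d c e a = M.O d a c e :=
    M.O_rot d a c e
  have odceb : M.O d c e b = M.O d b c e :=
    M.O_rot d b c e
  have oeacb : M.O e a c b = !M.O e a b c :=
    M.O_swap (⟨h7.symm, h8.symm, h9.symm, h1, h2, h4⟩ : Dist4 e a b c)
  have oeadb : M.O e a d b = !M.O e a b d :=
    M.O_swap (⟨h7.symm, h8.symm, h10.symm, h1, h3, h5⟩ : Dist4 e a b d)
  have oeadc : M.O e a d c = !M.O e a c d :=
    M.O_swap (⟨h7.symm, h9.symm, h10.symm, h2, h3, h6⟩ : Dist4 e a c d)
  have oebca : M.O e b c a = M.O e a b c :=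
    M.O_rot e a b c
  have oebda : M.O e b d a = M.O e a b d :=
    M.O_rot e a b d
  have oebdc : M.O e b d c = !M.O e b c d :=
    M.O_swap (⟨h8.symm, h9.symm, h10.symm, h4, h5, h6⟩ : Dist4 e b c d)
  have oecda : M.O e c d a = M.O e a c d :=
    M.O_rot e a c d
  have oecdb : M.O e c d b = M.O e b c d :=
    M.O_rot e b c d
  simp only [Q, w, pacb, racb, padb, radb, padc, radc, paeb, raeb, paec, raec, paed, raed, pbca,
    rbca, pbda, rbda, pbdc, rbdc, pbea, rbea, pbec, rbec, pbed, rbed, pcda, rcda, pcdb, rcdb,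
    pcea, rcea, pceb, rceb, oabdc, oabec, oabed, oacdb, oaceb, oaced, oadeb, oadec, obadc,
    obaec, obaed, obcda, obcea, obced, obdea, obdec, ocadb, ocaeb, ocaed, ocbda, ocbea, ocbed,
    ocdea, ocdeb, odacb, odaeb, odaec, odbca, odbea, odbec, odcea, odceb, oeacb, oeadb, oeadc,
    oebca, oebda, oebdc, oecda, oecdb]
  exact K

theorem local_ineq (h : Dist5 a b c d e) :
    M.G a b c d e + M.G a b d c e + M.G a b e c d + M.G a c d b e + M.G a c e b d +
      M.G a d e b c + M.G b c d a e + M.G b c e a d + M.G b d e a c + M.G c d e a b +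
      4000 * 27989 ≤ 4000 *
        (M.w a b c d + M.w a b c e + M.w a b d e + M.w a c d e + M.w b c d e : ℤ) := by
  have k := M.Q_ineq h
  have b1 := M.G_le_Q a b c d e
  have b2 := M.G_le_Q a b d c e
  have b3 := M.G_le_Q a b e c d
  have b4 := M.G_le_Q a c d b e
  have b5 := M.G_le_Q a c e b d
  have b6 := M.G_le_Q a d e b c
  have b7 := M.G_le_Q b c d a e
  have b8 := M.G_le_Q b c e a d
  have b9 := M.G_le_Q b d e a c
  have b10 := M.G_le_Q c d e a b
  omega

end TModel

end Pool.Agent.MP_d7736f_co.TB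

end

section

/-!
Summation of the local inequality over all ordered five-tuples.
-/

namespace Pool.Agent.MP_d7736f_co.TB

open Finset LB

instance {V : Type} [DecidableEq V] (a b c d e : V) : Decidable (Dist5 a b c d e) := by
  unfold Dist5; infer_instance

variable {V : Type} [Fintype V] [DecidableEq V]

/-- The sum over ordered five-tuples of different elements. -/
def S5 (f : V → V → V → V → V → ℤ) : ℤ :=
  ∑ a, ∑ b, ∑ c, ∑ d, ∑ e, if Dist5 a b c d e then f a b c d e else 0

/-- The sum over ordered quadruples of different elements. -/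
def S4 (f : V → V → V → V → ℤ) : ℤ :=
  ∑ a, ∑ b, ∑ c, ∑ d, if Dist4 a b c d then f a b c d else 0

theorem ite_congr' {p q : Prop} [Decidable p] [Decidable q] (h : p ↔ q) (x : ℤ) :
    (if p then x else 0) = if q then x else 0 := by simp [h]

theorem S5_sw0 (f : V → V → V → V → V → ℤ) : S5 (fun a b c d e => f b a c d e) = S5 f := by
  rw [S5, sum_comm]
  refine sum_congr rfl fun _ _ => sum_congr rfl fun _ _ => sum_congr rfl fun _ _ =>
    sum_congr rfl fun _ _ => sum_congr rfl fun _ _ => ite_congr' ?_ _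
  simp only [Dist5, Dist4, ne_eq, @eq_comm V]; tauto

theorem S5_sw1 (f : V → V → V → V → V → ℤ) : S5 (fun a b c d e => f a c b d e) = S5 f := by
  refine sum_congr rfl fun _ _ => ?_
  rw [sum_comm]
  refine sum_congr rfl fun _ _ => sum_congr rfl fun _ _ =>
    sum_congr rfl fun _ _ => sum_congr rfl fun _ _ => ite_congr' ?_ _
  simp only [Dist5, Dist4, ne_eq, @eq_comm V]; tauto

theorem S5_sw2 (f : V → V → V → V → V → ℤ) : S5 (fun a b c d e => f a b d c e) = S5 f := by
  refine sum_congr rfl fun _ _ => sum_congr rfl fun _ _ => ?_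
  rw [sum_comm]
  refine sum_congr rfl fun _ _ => sum_congr rfl fun _ _ => sum_congr rfl fun _ _ =>
    ite_congr' ?_ _
  simp only [Dist5, Dist4, ne_eq, @eq_comm V]; tauto

theorem S5_sw3 (f : V → V → V → V → V → ℤ) : S5 (fun a b c d e => f a b c e d) = S5 f := by
  refine sum_congr rfl fun _ _ => sum_congr rfl fun _ _ => sum_congr rfl fun _ _ => ?_
  rw [sum_comm]
  refine sum_congr rfl fun _ _ => sum_congr rfl fun _ _ => ite_congr' ?_ _
  simp only [Dist5, Dist4, ne_eq, @eq_comm V]; tauto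

theorem S4_sw1 (f : V → V → V → V → ℤ) : S4 (fun a b c d => f a c b d) = S4 f := by
  refine sum_congr rfl fun _ _ => ?_
  rw [sum_comm]
  refine sum_congr rfl fun _ _ => sum_congr rfl fun _ _ =>
    sum_congr rfl fun _ _ => ite_congr' ?_ _
  simp only [Dist4, ne_eq, @eq_comm V]; tauto

theorem S4_sw2 (f : V → V → V → V → ℤ) : S4 (fun a b c d => f a b d c) = S4 f := by
  refine sum_congr rfl fun _ _ => sum_congr rfl fun _ _ => ?_
  rw [sum_comm]
  refine sum_congr rfl fun _ _ => sum_congr rfl fun _ _ => ite_congr' ?_ _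
  simp only [Dist4, ne_eq, @eq_comm V]; tauto

theorem S5_add (f g : V → V → V → V → V → ℤ) :
    S5 (fun a b c d e => f a b c d e + g a b c d e) = S5 f + S5 g := by
  simp only [S5, ← sum_add_distrib, ite_add_zero]

theorem S5_mul (k : ℤ) (f : V → V → V → V → V → ℤ) :
    S5 (fun a b c d e => k * f a b c d e) = k * S5 f := by
  simp only [S5, mul_sum, mul_ite, mul_zero]

theorem S4_mul (k : ℤ) (f : V → V → V → V → ℤ) :
    S4 (fun a b c d => k * f a b c d) = k * S4 f := by
  simp only [S4, mul_sum, mul_ite, mul_zero]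

theorem S4_add (f g : V → V → V → V → ℤ) :
    S4 (fun a b c d => f a b c d + g a b c d) = S4 f + S4 g := by
  simp only [S4, ← sum_add_distrib, ite_add_zero]

theorem S5_mono {f g : V → V → V → V → V → ℤ}
    (h : ∀ a b c d e, Dist5 a b c d e → f a b c d e ≤ g a b c d e) : S5 f ≤ S5 g := by
  refine sum_le_sum fun _ _ => sum_le_sum fun _ _ => sum_le_sum fun _ _ => sum_le_sum fun _ _ =>
    sum_le_sum fun _ _ => ?_
  split_ifs with k
  exacts [h _ _ _ _ _ k, le_rfl]

theorem S4_mono {f g : V → V → V → V → ℤ}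
    (h : ∀ a b c d, Dist4 a b c d → f a b c d ≤ g a b c d) : S4 f ≤ S4 g := by
  refine sum_le_sum fun _ _ => sum_le_sum fun _ _ => sum_le_sum fun _ _ => sum_le_sum fun _ _ => ?_
  split_ifs with k
  exacts [h _ _ _ _ k, le_rfl]

theorem S5_le_S4 {f : V → V → V → V → ℤ} (h : ∀ a b c d, 0 ≤ f a b c d) :
    S5 (fun a b c d _ => f a b c d) ≤ Fintype.card V * S4 f := by
  simp only [S5, S4, mul_sum]
  refine sum_le_sum fun a _ => sum_le_sum fun b _ => sum_le_sum fun c _ => sum_le_sum fun d _ => ?_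
  rw [← nsmul_eq_mul, ← card_univ]
  refine sum_le_card_nsmul _ _ _ fun e _ => ?_
  split_ifs with k1 k2 k2
  exacts [le_rfl, absurd k1.1 k2, h _ _ _ _, le_rfl]

theorem S5_one : (Fintype.card V : ℤ) ^ 5 - 10 * (Fintype.card V : ℤ) ^ 4 ≤
    S5 (fun _ _ _ _ _ : V => 1) := by
  have h : ∀ a b c d e : V, (1 : ℤ) - ((if a = b then 1 else 0) + (if a = c then 1 else 0) +
      (if a = d then 1 else 0) + (if a = e then 1 else 0) + (if b = c then 1 else 0) +
      (if b = d then 1 else 0) + (if b = e then 1 else 0) + (if c = d then 1 else 0) +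
      (if c = e then 1 else 0) + (if d = e then 1 else 0)) ≤
      if Dist5 a b c d e then 1 else 0 := by
    intro a b c d e
    have p : ∀ x y : V, (0 : ℤ) ≤ (if x = y then 1 else 0) ∧
        (x = y → (if x = y then 1 else 0 : ℤ) = 1) := fun x y =>
      ⟨by split_ifs <;> simp, fun h => if_pos h⟩
    have p1 := p a b
    have p2 := p a c
    have p3 := p a d
    have p4 := p a e
    have p5 := p b c
    have p6 := p b d
    have p7 := p b e
    have p8 := p c d
    have p9 := p c e
    have p10 := p d e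
    by_cases k : Dist5 a b c d e
    · rw [if_pos k]; linarith [p1.1, p2.1, p3.1, p4.1, p5.1, p6.1, p7.1, p8.1, p9.1, p10.1]
    rw [if_neg k]
    simp only [Dist5, Dist4, not_and_or, not_not] at k
    rcases k with (k | k | k | k | k | k) | k | k | k | k <;>
      linarith [p1.1, p2.1, p3.1, p4.1, p5.1, p6.1, p7.1, p8.1, p9.1, p10.1, (p _ _).2 k]
  refine le_trans (le_of_eq ?_) (sum_le_sum fun a _ => sum_le_sum fun b _ => sum_le_sum fun c _ =>
    sum_le_sum fun d _ => sum_le_sum fun e _ => h a b c d e)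
  simp only [sum_sub_distrib, sum_add_distrib, sum_const, card_univ, nsmul_eq_mul, mul_one,
    sum_ite_eq, mem_univ, if_true, ← mul_sum]
  ring

omit [Fintype V] [DecidableEq V] in
theorem dot_sum_nonneg (s : Finset V) (i : V → ℕ) : 0 ≤ ∑ d ∈ s, ∑ e ∈ s, dotI (i d) (i e) := by
  simp only [dotI]
  have : ∑ d ∈ s, ∑ e ∈ s, ∑ r ∈ range 17, Bt (i d) r * Bt (i e) r =
      ∑ r ∈ range 17, (∑ d ∈ s, Bt (i d) r) * (∑ d ∈ s, Bt (i d) r) := by
    simp only [sum_mul_sum]
    rw [sum_comm (s := range 17)]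
    exact sum_congr rfl fun _ _ => sum_comm
  rw [this]
  exact sum_nonneg fun _ _ => mul_self_nonneg _

namespace TModel

variable (M : TModel V)

theorem G_sum : -(4000 * 40947 * (Fintype.card V : ℤ) ^ 4) ≤ S5 M.G := by
  have h : ∀ a b c : V, -(4000 * 40947 * (Fintype.card V : ℤ)) ≤
      ∑ d, ∑ e, if Dist5 a b c d e then M.G a b c d e else 0 := fun a b c => by
    have h0 := dot_sum_nonneg (univ.filter fun d => Dist4 a b c d) (M.vec a b c)
    rw [sum_filter] at h0
    have h1 : ∀ d, (if Dist4 a b c d then ∑ e ∈ univ.filter fun d => Dist4 a b c d,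
        dotI (M.vec a b c d) (M.vec a b c e) else 0) ≤
        (∑ e, if Dist5 a b c d e then M.G a b c d e else 0) + 4000 * 40947 := fun d => by
      split_ifs with k
      · rw [sum_filter, ← add_sum_erase _ _ (mem_univ d), ← add_sum_erase _ _ (mem_univ d),
          if_pos k, if_neg (fun h : Dist5 a b c d d => h.2.2.2.2 rfl), zero_add, add_comm]
        refine add_le_add (le_of_eq (sum_congr rfl fun e he => ite_congr' ?_ _)) (M.G_le a b c d d)
        have := (mem_erase.1 he).1
        simp only [Dist5, Dist4, ne_eq, @eq_comm V] at k this ⊢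
        tauto
      · rw [sum_eq_zero fun e _ => if_neg fun h => k h.1]
        norm_num
    have h2 := sum_le_sum fun d (_ : d ∈ univ) => h1 d
    rw [sum_add_distrib, sum_const, card_univ, nsmul_eq_mul] at h2
    linarith
  refine le_trans (le_of_eq ?_) (sum_le_sum fun a _ => sum_le_sum fun b _ => sum_le_sum fun c _ =>
    h a b c)
  simp only [sum_const, card_univ, nsmul_eq_mul]
  ring

theorem total : 27989 * (Fintype.card V : ℤ) ^ 5 ≤ 689360 * (Fintype.card V : ℤ) ^ 4 +
    375000 * Fintype.card V * S4 (fun a b c d => (M.x a b c d : ℤ)) := by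
  have h := S5_mono fun a b c d e (h : Dist5 a b c d e) => M.local_ineq h
  have g1 : S5 (fun a b c d e => M.G a b d c e) = S5 M.G := S5_sw2 _
  have g2 : S5 (fun a b c d e => M.G a b e c d) = S5 M.G :=
    (S5_sw3 fun a b c d e => M.G a b d c e).trans g1
  have g3 : S5 (fun a b c d e => M.G a c d b e) = S5 M.G :=
    (S5_sw1 fun a b c d e => M.G a b d c e).trans g1
  have g4 : S5 (fun a b c d e => M.G a c e b d) = S5 M.G :=
    (S5_sw1 fun a b c d e => M.G a b e c d).trans g2
  have g5 : S5 (fun a b c d e => M.G a d e b c) = S5 M.G :=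
    (S5_sw2 fun a b c d e => M.G a c e b d).trans g4
  have g6 : S5 (fun a b c d e => M.G b c d a e) = S5 M.G :=
    (S5_sw0 fun a b c d e => M.G a c d b e).trans g3
  have g7 : S5 (fun a b c d e => M.G b c e a d) = S5 M.G :=
    (S5_sw0 fun a b c d e => M.G a c e b d).trans g4
  have g8 : S5 (fun a b c d e => M.G b d e a c) = S5 M.G :=
    (S5_sw0 fun a b c d e => M.G a d e b c).trans g5
  have g9 : S5 (fun a b c d e => M.G c d e a b) = S5 M.G :=
    (S5_sw1 fun a b c d e => M.G b d e a c).trans g8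
  have w1 : S5 (fun a b c _ e => (M.w a b c e : ℤ)) = S5 fun a b c d _ => (M.w a b c d : ℤ) :=
    S5_sw3 fun a b c d _ => (M.w a b c d : ℤ)
  have w2 : S5 (fun a b _ d e => (M.w a b d e : ℤ)) = S5 fun a b c d _ => (M.w a b c d : ℤ) :=
    (S5_sw2 fun a b c _ e => (M.w a b c e : ℤ)).trans w1
  have w3 : S5 (fun a _ c d e => (M.w a c d e : ℤ)) = S5 fun a b c d _ => (M.w a b c d : ℤ) :=
    (S5_sw1 fun a b _ d e => (M.w a b d e : ℤ)).trans w2
  have w4 : S5 (fun _ b c d e => (M.w b c d e : ℤ)) = S5 fun a b c d _ => (M.w a b c d : ℤ) :=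
    (S5_sw0 fun a _ c d e => (M.w a c d e : ℤ)).trans w3
  have x1 : S4 (fun a b c d => (M.x a c b d : ℤ)) = S4 fun a b c d => (M.x a b c d : ℤ) :=
    S4_sw1 fun a b c d => (M.x a b c d : ℤ)
  have x2 : S4 (fun a b c d => (M.x a d b c : ℤ)) = S4 fun a b c d => (M.x a b c d : ℤ) :=
    (S4_sw2 fun a b c d => (M.x a c b d : ℤ)).trans x1
  have c1 : S5 (fun _ _ _ _ _ : V => (4000 * 27989 : ℤ)) =
      4000 * 27989 * S5 fun _ _ _ _ _ : V => 1 := by
    rw [← S5_mul]; simp
  have u1 := S5_le_S4 (f := fun a b c d => (M.w a b c d : ℤ)) fun _ _ _ _ => by positivity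
  have u2 := S4_mono (f := fun a b c d => (M.w a b c d : ℤ))
    (g := fun a b c d => 25000 * ((M.x a b c d : ℤ) + M.x a c b d + M.x a d b c))
    fun a b c d h => by exact_mod_cast M.wt_le h
  rw [S4_mul, S4_add, S4_add, x1, x2] at u2
  have u3 := mul_le_mul_of_nonneg_left u2 (Nat.cast_nonneg (α := ℤ) (Fintype.card V))
  have u4 := M.G_sum
  have u5 := S5_one (V := V)
  rw [S5_mul, S5_add, S5_add, S5_add, S5_add, S5_add, S5_add, S5_add, S5_add, S5_add, S5_add,
    S5_add, S5_add, S5_add, S5_add, g1, g2, g3, g4, g5, g6, g7, g8, g9, w1, w2, w3, w4, c1] at h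
  have e : S5 (fun a b c d e => M.G a b c d e) = S5 M.G := rfl
  rw [e] at h
  linarith

end TModel

end Pool.Agent.MP_d7736f_co.TB

end
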