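import Pool.Agent.MP_d7736f_co.RPDefs
import Mathlib

set_option linter.all false

section

/-!
Lower bounds for crossing numbers on surfaces: shared definitions.
-/

namespace Pool.Agent.MP_d7736f_co.LB

open Set Topology

variable {S : Type} [TopologicalSpace S] {v : ℕ}

/-- Every point is the centre of a plane chart. -/
def HasCharts (S : Type) [TopologicalSpace S] : Prop :=
  ∀ q : S, ∃ ψ : ℂ → S, IsOpenEmbedding ψ ∧ ψ 0 = q

/-- There is an injective path from `x` to `y` inside `A`. -/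
def ArcIn (x y : S) (A : Set S) : Prop :=
  ∃ γ : Path x y, Function.Injective γ ∧ range γ ⊆ A

/-- Two edges have a common end. -/
def Adj (e f : Edge v) : Prop :=
  e.1.1 = f.1.1 ∨ e.1.1 = f.1.2 ∨ e.1.2 = f.1.1 ∨ e.1.2 = f.1.2

/-- Edges with a common end meet only in vertices. -/
def Clean (D : Drawing S v) : Prop :=
  ∀ e f : Edge v, e ≠ f → Adj e f → ∀ x, x ∈ range (D.arc e) → x ∈ range (D.arc f) →
    x ∈ range D.pt

/-- The points of the edge joining `u` and `w`. -/
def tr (D : Drawing S v) (u w : Fin v) : Set S :=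
  {x | ∃ e : Edge v, (e.1 = (u, w) ∨ e.1 = (w, u)) ∧ x ∈ range (D.arc e)}

/-- Four different elements. -/
def Dist4 {V : Type} (a b c d : V) : Prop :=
  a ≠ b ∧ a ≠ c ∧ a ≠ d ∧ b ≠ c ∧ b ≠ d ∧ c ≠ d

instance {V : Type} [DecidableEq V] (a b c d : V) : Decidable (Dist4 a b c d) := by
  unfold Dist4; infer_instance

/-- The antipodal map in a stereographic chart. -/
noncomputable def tau (z : ℂ) : ℂ := -((starRingEnd ℂ) z)⁻¹

/-- The identity or the antipodal map. -/
noncomputable def tw (b : Bool) (z : ℂ) : ℂ := if b then tau z else z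

end Pool.Agent.MP_d7736f_co.LB

end

section

/-!
The variation of the argument along a path, and along the boundary of a square.
-/

namespace Pool.Agent.MP_d7736f_co.LB

open Complex Set Topology unitInterval
open scoped Real

theorem const_of_exp {X : Type} [TopologicalSpace X] [PreconnectedSpace X]
    {g g' : X → ℂ} (hg : Continuous g) (hg' : Continuous g')
    (h : ∀ x, exp (g x) = exp (g' x)) (x y : X) : g x - g' x = g y - g' y := by
  have h1 : ∀ x, exp (g x - g' x) = 1 := fun x => by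
    rw [exp_sub, h x, div_self (exp_ne_zero _)]
  exact isCoveringMap_exp.constOn_of_comp isPreconnected_univ (g := fun x => g x - g' x)
    (hg.sub hg').continuousOn
    (fun a _ b _ => Subtype.ext ((h1 a).trans (h1 b).symm)) (mem_univ x) (mem_univ y)

theorem exists_log_univ {X : Type} [TopologicalSpace X] [LocallyPathConnectedSpace X]
    [ContractibleSpace X] {f : X → ℂ} (hf : Continuous f) (h0 : ∀ x, f x ≠ 0) :
    ∃ L : X → ℂ, Continuous L ∧ ∀ x, exp (L x) = f x := by
  have hs : IsSimplyConnected (univ : Set X) :=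
    (Homeomorph.Set.univ X).toHomotopyEquiv.simplyConnectedSpace_iff.2 inferInstance
  obtain ⟨L, hL, hL'⟩ := exists_continuousOn_eqOn_exp_comp hs isOpen_univ hf.continuousOn
    (by rintro ⟨x, -, hx⟩; exact h0 x hx)
  exact ⟨L, continuousOn_univ.1 hL, fun x => hL' (mem_univ x)⟩

theorem exists_log2 {f : I × I → ℂ} (hf : Continuous f) (h0 : ∀ x, f x ≠ 0) :
    ∃ L : I × I → ℂ, Continuous L ∧ ∀ x, exp (L x) = f x := by
  obtain ⟨L, hL, hL'⟩ := exists_log_univ (X := ℝ × ℝ)
    (f := fun p => f (projIcc 0 1 zero_le_one p.1, projIcc 0 1 zero_le_one p.2))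
    (hf.comp ((continuous_projIcc.comp continuous_fst).prodMk
      (continuous_projIcc.comp continuous_snd))) (fun x => h0 _)
  refine ⟨fun p => L (p.1, p.2), hL.comp (by fun_prop), fun x => ?_⟩
  rw [hL']
  simp

theorem exists_log1 {f : I → ℂ} (hf : Continuous f) (h0 : ∀ x, f x ≠ 0) :
    ∃ L : I → ℂ, Continuous L ∧ ∀ x, exp (L x) = f x := by
  obtain ⟨L, hL, hL'⟩ := exists_log2 (f := fun p => f p.1) (hf.comp continuous_fst)
    (fun x => h0 _)
  exact ⟨fun s => L (s, 0), hL.comp (by fun_prop), fun x => hL' _⟩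

open Classical in
/-- The variation of the argument along `f`. -/
noncomputable def var (f : I → ℂ) : ℝ :=
  if h : ∃ L : I → ℂ, Continuous L ∧ ∀ s, exp (L s) = f s then (h.choose 1 - h.choose 0).im else 0

theorem var_eq {f L : I → ℂ} (hL : Continuous L) (h : ∀ s, exp (L s) = f s) :
    var f = (L 1).im - (L 0).im := by
  have hex : ∃ L : I → ℂ, Continuous L ∧ ∀ s, exp (L s) = f s := ⟨L, hL, h⟩
  have := const_of_exp hex.choose_spec.1 hL (fun s => (hex.choose_spec.2 s).trans (h s).symm) 1 0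
  rw [var, dif_pos hex]
  have e : hex.choose 1 - hex.choose 0 = L 1 - L 0 := by linear_combination this
  rw [e, sub_im]

variable {f g : I → ℂ}

theorem var_mul (hf : Continuous f) (hf0 : ∀ s, f s ≠ 0) (hg : Continuous g)
    (hg0 : ∀ s, g s ≠ 0) : var (fun s => f s * g s) = var f + var g := by
  obtain ⟨L, hL, hL'⟩ := exists_log1 hf hf0
  obtain ⟨M, hM, hM'⟩ := exists_log1 hg hg0
  rw [var_eq hL hL', var_eq hM hM', var_eq (L := fun s => L s + M s) (hL.add hM)
    (fun s => by rw [exp_add, hL', hM'])]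
  simp only [add_im]; ring

theorem var_const_mul (hf : Continuous f) (hf0 : ∀ s, f s ≠ 0) {c : ℂ} (hc : c ≠ 0) :
    var (fun s => c * f s) = var f := by
  obtain ⟨L, hL, hL'⟩ := exists_log1 hf hf0
  rw [var_eq hL hL', var_eq (L := fun s => log c + L s) (continuous_const.add hL)
    (fun s => by rw [exp_add, hL', exp_log hc])]
  simp only [add_im]; ring

theorem var_inv (hf : Continuous f) (hf0 : ∀ s, f s ≠ 0) : var (fun s => (f s)⁻¹) = -var f := by
  obtain ⟨L, hL, hL'⟩ := exists_log1 hf hf0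
  rw [var_eq hL hL', var_eq (L := fun s => -L s) hL.neg (fun s => by rw [exp_neg, hL'])]
  simp only [neg_im]; ring

theorem var_conj (hf : Continuous f) (hf0 : ∀ s, f s ≠ 0) :
    var (fun s => (starRingEnd ℂ) (f s)) = -var f := by
  obtain ⟨L, hL, hL'⟩ := exists_log1 hf hf0
  rw [var_eq hL hL', var_eq (L := fun s => (starRingEnd ℂ) (L s)) (continuous_conj.comp hL)
    (fun s => by rw [exp_conj, hL'])]
  simp only [conj_im]; ring

theorem var_rev (hf : Continuous f) (hf0 : ∀ s, f s ≠ 0) : var (fun s => f (σ s)) = -var f := by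
  obtain ⟨L, hL, hL'⟩ := exists_log1 hf hf0
  rw [var_eq hL hL', var_eq (L := fun s => L (σ s)) (hL.comp continuous_symm)
    (fun s => hL' _)]
  simp

theorem var_split (hf : Continuous f) (hf0 : ∀ s, f s ≠ 0) (a : I) :
    var f = var (fun s => f (min s a)) + var (fun s => f (max s a)) := by
  obtain ⟨L, hL, hL'⟩ := exists_log1 hf hf0
  rw [var_eq hL hL', var_eq (L := fun s => L (min s a)) (hL.comp (by fun_prop)) (fun s => hL' _),
    var_eq (L := fun s => L (max s a)) (hL.comp (by fun_prop)) (fun s => hL' _)]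
  rw [min_eq_right (le_one' (t := a)), min_eq_left (nonneg' (t := a)),
    max_eq_left (le_one' (t := a)), max_eq_right (nonneg' (t := a))]
  ring

theorem var_pos_mul (hf : Continuous f) (hf0 : ∀ s, f s ≠ 0) {r : I → ℝ} (hr : Continuous r)
    (hr0 : ∀ s, 0 < r s) : var (fun s => (r s : ℂ) * f s) = var f := by
  obtain ⟨L, hL, hL'⟩ := exists_log1 hf hf0
  rw [var_eq hL hL', var_eq (L := fun s => (Real.log (r s) : ℂ) + L s)
    ((continuous_ofReal.comp (hr.log fun s => (hr0 s).ne')).add hL)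
    (fun s => by rw [exp_add, hL', ← ofReal_exp, Real.exp_log (hr0 s)])]
  simp

theorem exp_var (hf : Continuous f) (hf0 : ∀ s, f s ≠ 0) :
    ∃ r : ℝ, 0 < r ∧ f 1 = r * exp (var f * Complex.I) * f 0 := by
  obtain ⟨L, hL, hL'⟩ := exists_log1 hf hf0
  refine ⟨Real.exp ((L 1).re - (L 0).re), Real.exp_pos _, ?_⟩
  rw [var_eq hL hL', ← hL', ← hL', ofReal_exp, ← exp_add, ← exp_add]
  congr 1
  apply Complex.ext <;> simp

/-- The variation of the argument of `f s - g t` along the boundary of the square. -/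
noncomputable def bd (f g : I → ℂ) : ℝ :=
  var (fun s => f s - g 0) - var (fun s => f s - g 1) + var (fun t => g t - f 1) -
    var (fun t => g t - f 0)

theorem bd_zero (hf : Continuous f) (hg : Continuous g) (h : ∀ s t, f s ≠ g t) : bd f g = 0 := by
  obtain ⟨L, hL, hL'⟩ := exists_log2 (f := fun p => f p.1 - g p.2) (by fun_prop)
    (fun p => sub_ne_zero.2 (h _ _))
  have k : ∀ a : I, var (fun t => g t - f a) = (L (a, 1)).im - (L (a, 0)).im := fun a => by
    rw [var_eq (L := fun t => L (a, t) + π * Complex.I) (by fun_prop)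
      (fun t => by rw [exp_add, hL', exp_pi_mul_I]; ring)]
    simp
  rw [bd, k, k, var_eq (L := fun s => L (s, 0)) (by fun_prop) (fun s => hL' _),
    var_eq (L := fun s => L (s, 1)) (by fun_prop) (fun s => hL' _)]
  ring

theorem bd_int (hf : Continuous f) (hg : Continuous g) (h0 : ∀ s, f s ≠ g 0) (h1 : ∀ s, f s ≠ g 1)
    (k0 : ∀ t, g t ≠ f 0) (k1 : ∀ t, g t ≠ f 1) : ∃ n : ℤ, bd f g = 2 * π * n := by
  obtain ⟨r1, p1, e1⟩ := exp_var (f := fun s => f s - g 0) (by fun_prop)
    fun s => sub_ne_zero.2 (h0 s)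
  obtain ⟨r2, p2, e2⟩ := exp_var (f := fun s => f s - g 1) (by fun_prop)
    fun s => sub_ne_zero.2 (h1 s)
  obtain ⟨r3, p3, e3⟩ := exp_var (f := fun t => g t - f 1) (by fun_prop)
    fun s => sub_ne_zero.2 (k1 s)
  obtain ⟨r4, p4, e4⟩ := exp_var (f := fun t => g t - f 0) (by fun_prop)
    fun s => sub_ne_zero.2 (k0 s)
  have n0 : f 0 - g 0 ≠ 0 := sub_ne_zero.2 (h0 0)
  have key : ((r1 * r3 / (r2 * r4) : ℝ) : ℂ) * exp (bd f g * Complex.I) = 1 := by
    have c2 : (r2 : ℂ) ≠ 0 := ofReal_ne_zero.2 p2.ne'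
    have c4 : (r4 : ℂ) ≠ 0 := ofReal_ne_zero.2 p4.ne'
    rw [bd]
    push_cast
    rw [sub_mul, add_mul, sub_mul, exp_sub, exp_add, exp_sub]
    set E1 := exp (var (fun s => f s - g 0) * Complex.I)
    set E2 := exp (var (fun s => f s - g 1) * Complex.I)
    set E3 := exp (var (fun s => g s - f 1) * Complex.I)
    set E4 := exp (var (fun s => g s - f 0) * Complex.I)
    have d2 : E2 ≠ 0 := exp_ne_zero _
    have d4 : E4 ≠ 0 := exp_ne_zero _
    field_simp
    apply mul_left_cancel₀ n0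
    linear_combination (-(r3 : ℂ) * E3) * e1 + e3 + e2 - (r2 * E2) * e4
  have hn := congrArg norm key
  rw [norm_mul, norm_exp_ofReal_mul_I, norm_real, mul_one, norm_one, Real.norm_eq_abs,
    abs_of_pos (by positivity)] at hn
  rw [hn, ofReal_one, one_mul, exp_eq_one_iff] at key
  obtain ⟨n, hn⟩ := key
  refine ⟨n, ?_⟩
  have := congrArg im hn
  simp at this
  linarith

theorem var_half (hf : Continuous f) (h : ∀ s, 0 < (f s).re) :
    var f = arg (f 1) - arg (f 0) := by
  have hs : ∀ s, f s ∈ slitPlane := fun s => Or.inl (h s)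
  rw [var_eq (L := fun s => log (f s)) (hf.clog hs) (fun s => exp_log (slitPlane_ne_zero (hs s)))]
  rw [log_im, log_im]

theorem arg_one_sub {θ : ℝ} (h0 : 0 < θ) (h1 : θ < 2 * π) :
    arg (1 - exp (θ * Complex.I)) = (θ - π) / 2 := by
  have hs : 0 < Real.sin (θ / 2) := Real.sin_pos_of_pos_of_lt_pi (by linarith) (by linarith)
  have e : 1 - exp (θ * Complex.I) = ((2 * Real.sin (θ / 2) : ℝ) : ℂ) *
      (cos (((θ - π) / 2 : ℝ) : ℂ) + sin (((θ - π) / 2 : ℝ) : ℂ) * Complex.I) := by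
    have a1 : Real.cos ((θ - π) / 2) = Real.sin (θ / 2) := by
      rw [show (θ - π) / 2 = θ / 2 - π / 2 by ring, Real.cos_sub_pi_div_two]
    have a2 : Real.sin ((θ - π) / 2) = -Real.cos (θ / 2) := by
      rw [show (θ - π) / 2 = θ / 2 - π / 2 by ring, Real.sin_sub_pi_div_two]
    have a3 : Real.cos θ = 1 - 2 * Real.sin (θ / 2) ^ 2 := by
      have := Real.cos_two_mul (θ / 2)
      have := Real.sin_sq_add_cos_sq (θ / 2)
      rw [show 2 * (θ / 2) = θ by ring] at *
      linarith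
    have a4 : Real.sin θ = 2 * Real.sin (θ / 2) * Real.cos (θ / 2) := by
      rw [← Real.sin_two_mul]; congr 1; ring
    rw [exp_mul_I, ← ofReal_cos, ← ofReal_sin, ← ofReal_cos, ← ofReal_sin, a1, a2, a3, a4]
    push_cast
    ring
  rw [e, arg_mul_cos_add_sin_mul_I (by positivity) ⟨by linarith, by linarith⟩]

theorem head_var (hf : Continuous f) {u p q : ℂ} {ε : ℝ} (hq : ‖q - u‖ = ε) (hε : 0 < ε)
    (h : ∀ s, ‖f s - u‖ ≤ ε) (hne : ∀ s, f s ≠ q) (h0 : f 0 = u) (h1 : f 1 = p) :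
    var (fun s => f s - q) = arg (1 - (p - u) / (q - u)) := by
  have hq0 : q - u ≠ 0 := by rw [← norm_pos_iff, hq]; exact hε
  have e : ∀ s, -(q - u)⁻¹ * (f s - q) = 1 - (f s - u) / (q - u) := fun s => by
    field_simp; ring
  rw [← var_const_mul (f := fun s => f s - q) (by fun_prop) (fun s => sub_ne_zero.2 (hne s))
    (c := -(q - u)⁻¹) (neg_ne_zero.2 (inv_ne_zero hq0))]
  simp only [e]
  rw [var_half (by fun_prop), h0, h1]
  · simp
  intro s
  have hn : ‖(f s - u) / (q - u)‖ ≤ 1 := by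
    rw [norm_div, hq, div_le_one hε]; exact h s
  have hne1 : (f s - u) / (q - u) ≠ 1 := by
    rw [Ne, div_eq_one_iff_eq hq0, sub_left_inj]; exact hne s
  have := re_le_norm ((f s - u) / (q - u))
  rw [sub_re, one_re, sub_pos]
  refine lt_of_le_of_ne (this.trans hn) fun h' => hne1 ?_
  have h2 : ((f s - u) / (q - u)).re = ‖(f s - u) / (q - u)‖ := by linarith
  have h3 := (Complex.re_eq_norm.1 h2).2
  apply Complex.ext
  · simpa using h'
  · simpa using h3.symm

theorem arg_corner {x y : ℂ} (hx : x ≠ 0) (hn : ‖x‖ = ‖y‖) (h : arg y < arg x) :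
    arg (1 - x / y) - arg (1 - y / x) + (arg y - arg x) = -π := by
  have hy : y ≠ 0 := by rwa [← norm_ne_zero_iff, ← hn, norm_ne_zero_iff]
  have hx' : (‖x‖ : ℂ) ≠ 0 := by exact_mod_cast norm_ne_zero_iff.2 hx
  have e1 : x / y = exp ((arg x - arg y : ℝ) * Complex.I) := by
    conv_lhs => rw [← norm_mul_exp_arg_mul_I x, ← norm_mul_exp_arg_mul_I y, ← hn]
    push_cast
    rw [sub_mul, exp_sub]
    field_simp
  have e2 : y / x = exp ((2 * π - (arg x - arg y) : ℝ) * Complex.I) := by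
    rw [← inv_div, e1, ← exp_neg]
    push_cast
    rw [sub_mul (2 * (π : ℂ)), sub_eq_add_neg (2 * (π : ℂ) * Complex.I), exp_add, exp_two_pi_mul_I,
      one_mul]
  have := arg_le_pi x
  have := neg_pi_lt_arg y
  rw [e1, e2, arg_one_sub (by linarith) (by linarith), arg_one_sub (by linarith) (by linarith)]
  ring

/-- Two paths from a common start that meet nowhere else. -/
theorem corner (hf : Continuous f) (hg : Continuous g) {u : ℂ} {ε : ℝ} (hε : 0 < ε) {a b : I}
    (f0 : f 0 = u) (g0 : g 0 = u) (h : ∀ s t, f s = g t → s = 0 ∧ t = 0)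
    (ha : ‖f a - u‖ = ε) (hb : ‖g b - u‖ = ε) (ha' : ∀ s, s ≤ a → ‖f s - u‖ ≤ ε)
    (hb' : ∀ t, t ≤ b → ‖g t - u‖ ≤ ε) :
    arg (f a - u) ≠ arg (g b - u) ∧
    (var (fun s => f (max s a) - u) + arg (f a - u)) - var (fun s => f s - g 1) +
      var (fun t => g t - f 1) - (var (fun t => g (max t b) - u) + arg (g b - u)) =
      if arg (g b - u) < arg (f a - u) then π else -π := by
  have a0 : a ≠ 0 := by rintro rfl; rw [f0, sub_self, norm_zero] at ha; exact hε.ne ha
  have b0 : b ≠ 0 := by rintro rfl; rw [g0, sub_self, norm_zero] at hb; exact hε.ne hb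
  have ma : ∀ s : I, max s a ≠ 0 := fun s e => a0 (le_antisymm (e ▸ le_max_right s a) nonneg')
  have mb : ∀ s : I, max s b ≠ 0 := fun s e => b0 (le_antisymm (e ▸ le_max_right s b) nonneg')
  have z1 := bd_zero (f := fun s => f (max s a)) (g := g) (by fun_prop) hg
    fun s t e => ma s (h _ _ e).1
  have z2 := bd_zero (f := fun s => f (min s a)) (g := fun t => g (max t b)) (by fun_prop)
    (by fun_prop) fun s t e => mb t (h _ _ e).2
  simp only [bd, min_eq_right (le_one' (t := a)), min_eq_left (nonneg' (t := a)),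
    max_eq_left (le_one' (t := a)), max_eq_right (nonneg' (t := a)),
    max_eq_left (le_one' (t := b)), max_eq_right (nonneg' (t := b)), f0, g0] at z1 z2
  have s1 := var_split (f := fun s => f s - g 1) (by fun_prop)
    (fun s => sub_ne_zero.2 fun e => one_ne_zero (h _ _ e).2) a
  have s2 := var_split (f := fun t => g t - f a) (by fun_prop)
    (fun t => sub_ne_zero.2 fun e => a0 (h _ _ e.symm).1) b
  have h1 := head_var (f := fun s => f (min s a)) (p := f a) (by fun_prop) hb hε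
    (fun s => ha' _ (min_le_right _ _)) (fun s e => b0 (h _ _ e).2)
    (by rw [min_eq_left nonneg', f0]) (by rw [min_eq_right le_one'])
  have h2 := head_var (f := fun t => g (min t b)) (p := g b) (by fun_prop) ha hε
    (fun s => hb' _ (min_le_right _ _)) (fun s e => a0 (h _ _ e.symm).1)
    (by rw [min_eq_left nonneg', g0]) (by rw [min_eq_right le_one'])
  have hx : f a - u ≠ 0 := by rw [← norm_pos_iff, ha]; exact hε
  have hy : g b - u ≠ 0 := by rw [← norm_pos_iff, hb]; exact hε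
  have hne : arg (f a - u) ≠ arg (g b - u) := fun e =>
    a0 (h a b (sub_left_inj.1 (ext_norm_arg (ha.trans hb.symm) e))).1
  refine ⟨hne, ?_⟩
  split_ifs with c
  · have := arg_corner hx (ha.trans hb.symm) c
    linarith
  · have := arg_corner hy (hb.trans ha.symm) (lt_of_le_of_ne (not_lt.1 c) hne)
    linarith

end Pool.Agent.MP_d7736f_co.LB

end

section

/-!
A small closed disc around a point of a drawing with finitely many crossings.
-/

namespace Pool.Agent.MP_d7736f_co.LB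

open Set Topology Metric unitInterval

variable {S : Type} [TopologicalSpace S] {v : ℕ}

theorem cross_finite_disc (D : Drawing S v) (hfin : D.crossings ≠ ⊤) :
    {x | ∃ e f, e ≠ f ∧ x ∈ range (D.arc e) ∧ x ∈ range (D.arc f) ∧ x ∉ range D.pt}.Finite := by
  classical
  unfold Drawing.crossings at hfin
  refine ((Set.encard_ne_top_iff.1 hfin).image Prod.snd).subset ?_
  rintro x ⟨e, f, hef, he, hf, hx⟩
  refine ⟨({e, f}, x), ⟨Finset.card_pair hef, ?_, hx⟩, rfl⟩
  intro g hg
  rcases Finset.mem_insert.1 hg with rfl | hg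
  · exact he
  · rw [Finset.mem_singleton.1 hg]; exact hf

theorem local_disc [T2Space S] (D : Drawing S v) (hfin : D.crossings ≠ ⊤) {ψ : ℂ → S}
    (hψ : IsOpenEmbedding ψ) (hq : ψ 0 ∉ range D.pt) :
    ∃ r : ℝ, 0 < r ∧ (∀ w, D.pt w ∉ ψ '' closedBall 0 r) ∧
      (∀ e, ψ 0 ∉ range (D.arc e) → ∀ x ∈ range (D.arc e), x ∉ ψ '' closedBall 0 r) ∧
      (∀ e f, e ≠ f → ∀ x ∈ ψ '' closedBall 0 r, x ∈ range (D.arc e) → x ∈ range (D.arc f) →
        x = ψ 0) := by
  obtain ⟨X, hX⟩ : ∃ X : Set S, X =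
    {x | ∃ e f, e ≠ f ∧ x ∈ range (D.arc e) ∧ x ∈ range (D.arc f) ∧ x ∉ range D.pt} := ⟨_, rfl⟩
  have hXf : X.Finite := hX ▸ cross_finite_disc D hfin
  have hB : IsClosed (range D.pt ∪ (⋃ e : {e // ψ 0 ∉ range (D.arc e)}, range (D.arc e.1)) ∪
      (X \ {ψ 0})) :=
    ((finite_range _).isClosed.union (isClosed_iUnion_of_finite
      fun e : {e // ψ 0 ∉ range (D.arc e)} => (isCompact_range (D.arc e.1).continuous).isClosed)).union (hXf.subset sdiff_subset).isClosed
  have h0 : (0 : ℂ) ∈ ψ ⁻¹' (range D.pt ∪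
      (⋃ e : {e // ψ 0 ∉ range (D.arc e)}, range (D.arc e.1)) ∪ (X \ {ψ 0}))ᶜ := by
    rintro ((h | h) | h)
    · exact hq h
    · obtain ⟨e, he⟩ := mem_iUnion.1 h
      exact e.2 he
    · exact h.2 rfl
  obtain ⟨ε, hε, hball⟩ := Metric.isOpen_iff.1 (hB.isOpen_compl.preimage hψ.continuous) 0 h0
  have hsub : ∀ x ∈ ψ '' closedBall 0 (ε / 2), x ∉ (range D.pt ∪
      (⋃ e : {e // ψ 0 ∉ range (D.arc e)}, range (D.arc e.1)) ∪ (X \ {ψ 0})) := by
    rintro _ ⟨z, hz, rfl⟩
    exact hball (closedBall_subset_ball (by linarith) hz)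
  refine ⟨ε / 2, by linarith, fun w hw => hsub _ hw (Or.inl (Or.inl ⟨w, rfl⟩)),
    fun e he x hx hx' => hsub _ hx' (Or.inl (Or.inr (mem_iUnion.2 ⟨⟨e, he⟩, hx⟩))),
    fun e f hef x hx he hf => ?_⟩
  by_contra hne
  refine hsub _ hx (Or.inr ⟨?_, hne⟩)
  rw [hX]
  exact ⟨e, f, hef, he, hf, fun h => hsub _ hx (Or.inl (Or.inl h))⟩

theorem cut_disc [T2Space S] {ψ : ℂ → S} (hψ : IsOpenEmbedding ψ) {r : ℝ} (hr : 0 < r) {x y : S}
    (γ : Path x y) (hγ : Function.Injective γ) (hx : x ∉ ψ '' closedBall 0 r)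
    (hy : y ∉ ψ '' closedBall 0 r) (hq : ψ 0 ∈ range γ) :
    ∃ (s t : I) (p p' : ℂ), 0 < s ∧ s < t ∧ t < 1 ∧ ‖p‖ = r ∧ ‖p'‖ = r ∧ p ≠ p' ∧ γ s = ψ p ∧
      γ t = ψ p' ∧ ∀ u : I, u < s ∨ t < u → γ u ∉ ψ '' closedBall 0 r := by
  have hK : IsCompact (γ ⁻¹' (ψ '' closedBall 0 r)) :=
    (((isCompact_closedBall (0 : ℂ) r).image hψ.continuous).isClosed.preimage
      γ.continuous).isCompact
  obtain ⟨u0, hu0⟩ := hq
  have hu0K : u0 ∈ γ ⁻¹' (ψ '' closedBall 0 r) := ⟨0, mem_closedBall_self hr.le, hu0.symm⟩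
  obtain ⟨s, ⟨p, hp, hps⟩, hs⟩ := hK.exists_isLeast ⟨u0, hu0K⟩
  obtain ⟨t, ⟨p', hp', hpt⟩, ht⟩ := hK.exists_isGreatest ⟨u0, hu0K⟩
  have hU : IsOpen (γ ⁻¹' (ψ '' ball 0 r)) :=
    (hψ.isOpenMap _ isOpen_ball).preimage γ.continuous
  have hUK : γ ⁻¹' (ψ '' ball 0 r) ⊆ γ ⁻¹' (ψ '' closedBall 0 r) :=
    preimage_mono (image_mono ball_subset_closedBall)
  have hs0 : 0 < s := by
    refine lt_of_le_of_ne s.2.1 ?_
    rintro rfl
    exact hx ⟨p, hp, by rw [hps, γ.source]⟩
  have ht1 : t < 1 := by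
    refine lt_of_le_of_ne t.2.2 ?_
    rintro rfl
    exact hy ⟨p', hp', by rw [hpt, γ.target]⟩
  have hpn : ‖p‖ = r := by
    refine le_antisymm (mem_closedBall_zero_iff.1 hp) (not_lt.1 fun hlt => ?_)
    have hm : s ∈ γ ⁻¹' (ψ '' ball 0 r) := ⟨p, mem_ball_zero_iff.2 hlt, hps⟩
    obtain ⟨l, hl, hsub⟩ := exists_Ioc_subset_of_mem_nhds (hU.mem_nhds hm) ⟨0, hs0⟩
    obtain ⟨u, hu1, hu2⟩ := exists_between hl
    exact absurd (hs (hUK (hsub ⟨hu1, hu2.le⟩))) (not_le.2 hu2)
  have hpn' : ‖p'‖ = r := by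
    refine le_antisymm (mem_closedBall_zero_iff.1 hp') (not_lt.1 fun hlt => ?_)
    have hm : t ∈ γ ⁻¹' (ψ '' ball 0 r) := ⟨p', mem_ball_zero_iff.2 hlt, hpt⟩
    obtain ⟨l, hl, hsub⟩ := exists_Ico_subset_of_mem_nhds (hU.mem_nhds hm) ⟨1, ht1⟩
    obtain ⟨u, hu1, hu2⟩ := exists_between hl
    exact absurd (ht (hUK (hsub ⟨hu1.le, hu2⟩))) (not_le.2 hu1)
  have hst : s < t := by
    refine lt_of_lt_of_le (lt_of_le_of_ne (hs hu0K) ?_) (ht hu0K)
    rintro rfl
    have : p = 0 := hψ.injective (hps.trans hu0)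
    rw [this, norm_zero] at hpn
    exact hr.ne hpn
  refine ⟨s, t, p, p', hs0, hst, ht1, hpn, hpn', ?_, hps.symm, hpt.symm, ?_⟩
  · rintro rfl
    exact hst.ne (hγ (hps.symm.trans hpt))
  · rintro u (hu | hu) hm
    · exact absurd (hs hm) (not_le.2 hu)
    · exact absurd (ht hm) (not_le.2 hu)

/-- A disc has no continuous injection into the line. -/
theorem no_inj_disc {c : ℂ} {ρ : ℝ} (hρ : 0 < ρ) {g : ℂ → ℝ}
    (hg : ContinuousOn g (closedBall c ρ)) (hi : InjOn g (closedBall c ρ)) : False := by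
  have key : ∀ a : ℝ, |a| = ρ → ¬ g (c - a) < g (c + a) := by
    intro a ha hlt
    obtain ⟨m, hm1, hm2⟩ := exists_between hlt
    have hmem : ∀ t : ℝ, |t| ≤ 1 → c + (t * a : ℝ) ∈ closedBall c ρ := by
      intro t ht
      rw [mem_closedBall, dist_eq_norm, add_sub_cancel_left, Complex.norm_real, Real.norm_eq_abs,
        abs_mul, ha]
      nlinarith
    have hc : ContinuousOn (fun t : ℝ => g (c + (t * a : ℝ))) (Icc (-1) 1) :=
      hg.comp (by fun_prop) fun t ht => hmem t (abs_le.2 ht)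
    obtain ⟨t, ht, htm⟩ := intermediate_value_Icc (by norm_num : (-1 : ℝ) ≤ 1) hc
      (show m ∈ Icc (g (c + ((-1 : ℝ) * a : ℝ))) (g (c + ((1 : ℝ) * a : ℝ))) by
        constructor
        · simpa [sub_eq_add_neg] using hm1.le
        · simpa using hm2.le)
    have hsp : IsPreconnected (sphere c ρ) :=
      isPreconnected_sphere (by rw [Complex.rank_real_complex]; norm_num) c ρ
    obtain ⟨z, hz, hzm⟩ := hsp.intermediate_value (a := c - a) (b := c + a)
      (by simp [ha]) (by simp [ha]) (hg.mono sphere_subset_closedBall) ⟨hm1.le, hm2.le⟩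
    have he : c + (t * a : ℝ) = z :=
      hi (hmem t (abs_le.2 ht)) (sphere_subset_closedBall hz) (htm.trans hzm.symm)
    rw [← he, mem_sphere, dist_eq_norm, add_sub_cancel_left, Complex.norm_real, Real.norm_eq_abs,
      abs_mul, ha] at hz
    have h1 : |t| = 1 := by
      have := mul_right_cancel₀ hρ.ne' (hz.trans (one_mul ρ).symm)
      exact this
    rcases (abs_eq zero_le_one).1 h1 with rfl | rfl
    · simp only [one_mul] at htm
      exact hm2.ne htm.symm
    · simp only [neg_mul, one_mul, Complex.ofReal_neg, ← sub_eq_add_neg] at htm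
      exact hm1.ne htm
  rcases lt_trichotomy (g (c - ρ)) (g (c + ρ)) with h | h | h
  · exact key ρ (abs_of_pos hρ) h
  · have h2 := hi (by simp [abs_of_pos hρ]) (by simp [abs_of_pos hρ]) h
    have h3 : (ρ : ℂ) = 0 := by linear_combination (-1 / 2 : ℂ) * h2
    exact hρ.ne' (by exact_mod_cast h3)
  · refine key (-ρ) (by rw [abs_neg, abs_of_pos hρ]) ?_
    simpa [sub_eq_add_neg] using h

theorem dense_off_disc [T2Space S] {ψ : ℂ → S} (hψ : IsOpenEmbedding ψ) {x y : S} (γ : Path x y)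
    (hγ : Function.Injective γ) : Dense (ψ ⁻¹' range γ)ᶜ := by
  rw [← interior_eq_empty_iff_dense_compl, eq_empty_iff_forall_notMem]
  intro c hc
  obtain ⟨ε, hε, hball⟩ := Metric.mem_nhds_iff.1 (mem_interior_iff_mem_nhds.1 hc)
  have hsub : closedBall c (ε / 2) ⊆ ψ ⁻¹' range γ :=
    (closedBall_subset_ball (by linarith)).trans hball
  have hemb := γ.continuous.isClosedEmbedding hγ
  have heq : ∀ z ∈ closedBall c (ε / 2), γ (Function.invFun γ (ψ z)) = ψ z :=
    fun z hz => Function.invFun_eq (hsub hz)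
  have hcont : ContinuousOn (fun z => Function.invFun γ (ψ z)) (closedBall c (ε / 2)) := by
    rw [hemb.isInducing.continuousOn_iff]
    exact hψ.continuous.continuousOn.congr heq
  refine no_inj_disc (c := c) (half_pos hε) (g := fun z => ((Function.invFun γ (ψ z) : I) : ℝ))
    (continuous_subtype_val.comp_continuousOn hcont) fun z hz w hw h => ?_
  apply hψ.injective
  rw [← heq z hz, ← heq w hw, Subtype.ext h]

/-- A chart contains a point off the drawing. -/
theorem exists_off [T2Space S] (D : Drawing S v) {ψ : ℂ → S} (hψ : IsOpenEmbedding ψ) :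
    ∃ c : ℂ, ψ c ∉ range D.pt ∧ ∀ e, ψ c ∉ range (D.arc e) := by
  have h1 : Dense (⋂ e, (ψ ⁻¹' range (D.arc e))ᶜ) :=
    dense_iInter_of_isOpen (fun e => ((isCompact_range (D.arc e).continuous).isClosed.preimage
      hψ.continuous).isOpen_compl) fun e => dense_off_disc hψ _ (D.arc_inj e)
  obtain ⟨c, hc, hc'⟩ := (h1.sdiff_finite
    ((finite_range D.pt).preimage hψ.injective.injOn)).nonempty
  exact ⟨c, hc', fun e => mem_iInter.1 hc e⟩

end Pool.Agent.MP_d7736f_co.LB

end

section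

/-!
Counting crossings: redrawing inside prescribed sets, and the sum over ordered quadruples.
-/

namespace Pool.Agent.MP_d7736f_co.LB

open Set Topology

variable {S : Type} [TopologicalSpace S] {v : ℕ}

theorem redraw (D : Drawing S v) (hfin : D.crossings ≠ ⊤) (A : Edge v → Set S) (B : Set S)
    (q : S) (o : S → Edge v → Edge v) (e f : Edge v)
    (hA : ∀ g : Edge v, ArcIn (D.pt g.1.1) (D.pt g.1.2) (A g))
    (hAv : ∀ (g : Edge v) w, D.pt w ∈ A g → w = g.1.1 ∨ w = g.1.2)
    (hqB : q ∈ B) (hq : q ∉ range D.pt)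
    (ho : ∀ x, x ∉ B → x ∉ range D.pt → ∀ g, x ∈ A g → x ∈ range (D.arc (o x g)))
    (hinj : ∀ x, x ∉ B → x ∉ range D.pt → ∀ g g', x ∈ A g → x ∈ A g' → o x g = o x g' → g = g')
    (hB1 : ∀ g, (A g ∩ B).Nonempty → q ∈ range (D.arc g))
    (hB2 : ∀ g g', g ≠ g' → (A g ∩ A g' ∩ B).Subsingleton)
    (hef : e ≠ f) (hqe : q ∈ range (D.arc e)) (hqf : q ∈ range (D.arc f))
    (hB3 : A e ∩ A f ∩ B = ∅) :
    ∃ D' : Drawing S v, D'.crossings < D.crossings := by
  classical
  choose γ hγi hγA using hA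
  let D' : Drawing S v :=
    { pt := D.pt
      pt_inj := D.pt_inj
      arc := γ
      arc_inj := hγi
      arc_avoid := fun g w hw => hAv g w (hγA g hw) }
  refine ⟨D', ?_⟩
  set C : Set (Finset (Edge v) × S) := {c | c.1.card = 2 ∧ (∀ e ∈ c.1, c.2 ∈ range (D.arc e)) ∧
    c.2 ∉ range D.pt} with hC
  set C' : Set (Finset (Edge v) × S) := {c | c.1.card = 2 ∧ (∀ e ∈ c.1, c.2 ∈ range (γ e)) ∧
    c.2 ∉ range D.pt} with hC'
  have hCfin : C.Finite := Set.encard_ne_top_iff.1 hfin
  show C'.encard < C.encard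
  let φ : Finset (Edge v) × S → Finset (Edge v) × S := fun c =>
    if c.2 ∈ B then (c.1, q) else (c.1.image (o c.2), c.2)
  have hio : ∀ c ∈ C', c.2 ∉ B → Set.InjOn (o c.2) {g | c.2 ∈ A g} := by
    intro c hc hB g hg g' hg' h
    exact hinj c.2 hB hc.2.2 g g' hg hg' h
  have hsub : ∀ c ∈ C', (↑c.1 : Set (Edge v)) ⊆ {g | c.2 ∈ A g} := by
    intro c hc g hg
    exact hγA g (hc.2.1 g hg)
  have hmaps : ∀ c ∈ C', φ c ∈ C := by
    intro c hc
    by_cases hB : c.2 ∈ B
    · simp only [φ, if_pos hB]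
      refine ⟨hc.1, fun g hg => hB1 g ⟨c.2, hsub c hc hg, hB⟩, hq⟩
    · simp only [φ, if_neg hB]
      refine ⟨?_, ?_, hc.2.2⟩
      · show (c.1.image (o c.2)).card = 2
        rw [Finset.card_image_of_injOn ((hio c hc hB).mono (hsub c hc))]
        exact hc.1
      · intro g hg
        obtain ⟨g', hg', rfl⟩ := Finset.mem_image.1 hg
        exact ho c.2 hB hc.2.2 g' (hsub c hc hg')
  have hφinj : Set.InjOn φ C' := by
    intro c hc c' hc' h
    by_cases hB : c.2 ∈ B <;> by_cases hB' : c'.2 ∈ B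
    · simp only [φ, if_pos hB, if_pos hB', Prod.mk.injEq] at h
      obtain ⟨g, g', hgg, hP⟩ := Finset.card_eq_two.1 hc.1
      have h1 : g ∈ c.1 := by rw [hP]; simp
      have h2 : g' ∈ c.1 := by rw [hP]; simp
      refine Prod.ext h.1 (hB2 g g' hgg ⟨⟨hsub c hc h1, hsub c hc h2⟩, hB⟩
        ⟨⟨hsub c' hc' (h.1 ▸ h1), hsub c' hc' (h.1 ▸ h2)⟩, hB'⟩)
    · simp only [φ, if_pos hB, if_neg hB', Prod.mk.injEq] at h
      exact absurd (h.2 ▸ hqB) hB'
    · simp only [φ, if_neg hB, if_pos hB', Prod.mk.injEq] at h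
      exact absurd (h.2 ▸ hqB) hB
    · simp only [φ, if_neg hB, if_neg hB', Prod.mk.injEq] at h
      obtain ⟨h1, h2⟩ := h
      refine Prod.ext ?_ h2
      have hs' : (↑c'.1 : Set (Edge v)) ⊆ {g | c.2 ∈ A g} := h2 ▸ hsub c' hc'
      rw [← h2] at h1
      have h3 : (o c.2) '' ↑c.1 = (o c.2) '' ↑c'.1 := by
        rw [← Finset.coe_image, ← Finset.coe_image, h1]
      exact Finset.coe_injective (((hio c hc hB).image_eq_image_iff (hsub c hc) hs').1 h3)
  have hmem : (({e, f} : Finset (Edge v)), q) ∈ C := by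
    refine ⟨Finset.card_pair hef, ?_, hq⟩
    intro g hg
    rcases Finset.mem_insert.1 hg with rfl | hg
    · exact hqe
    · rw [Finset.mem_singleton.1 hg]; exact hqf
  have hnot : (({e, f} : Finset (Edge v)), q) ∉ φ '' C' := by
    rintro ⟨c, hc, h⟩
    by_cases hB : c.2 ∈ B
    · simp only [φ, if_pos hB, Prod.mk.injEq] at h
      have h1 : e ∈ c.1 := by rw [h.1]; simp
      have h2 : f ∈ c.1 := by rw [h.1]; simp
      have : c.2 ∈ A e ∩ A f ∩ B := ⟨⟨hsub c hc h1, hsub c hc h2⟩, hB⟩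
      rw [hB3] at this
      exact this
    · simp only [φ, if_neg hB, Prod.mk.injEq] at h
      exact hB (h.2 ▸ hqB)
  have hss : φ '' C' ⊂ C := by
    refine ⟨?_, fun h => hnot (h hmem)⟩
    rintro _ ⟨c, hc, rfl⟩
    exact hmaps c hc
  rw [← hφinj.encard_image]
  exact (hCfin.subset hss.1).encard_lt_encard hss

/-- The pair of edges of a crossing joins the first two and the last two of four vertices. -/
def QuadRel (t : Fin v × Fin v × Fin v × Fin v) (P : Finset (Edge v)) : Prop :=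
  ∃ e f : Edge v, P = {e, f} ∧ e ≠ f ∧ (e.1 = (t.1, t.2.1) ∨ e.1 = (t.2.1, t.1)) ∧
    (f.1 = (t.2.2.1, t.2.2.2) ∨ f.1 = (t.2.2.2, t.2.2.1))

theorem quadRel_card (P : Finset (Edge v)) [DecidablePred fun t => QuadRel t P] :
    (Finset.univ.filter fun t => QuadRel t P).card ≤ 8 := by
  classical
  by_cases h : ∃ e f : Edge v, P = {e, f} ∧ e ≠ f
  · obtain ⟨e0, f0, hP, hne⟩ := h
    let L : List (Fin v × Fin v × Fin v × Fin v) :=
      [(e0.1.1, e0.1.2, f0.1.1, f0.1.2), (e0.1.2, e0.1.1, f0.1.1, f0.1.2),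
       (e0.1.1, e0.1.2, f0.1.2, f0.1.1), (e0.1.2, e0.1.1, f0.1.2, f0.1.1),
       (f0.1.1, f0.1.2, e0.1.1, e0.1.2), (f0.1.2, f0.1.1, e0.1.1, e0.1.2),
       (f0.1.1, f0.1.2, e0.1.2, e0.1.1), (f0.1.2, f0.1.1, e0.1.2, e0.1.1)]
    refine le_trans (Finset.card_le_card (t := L.toFinset) ?_) (List.toFinset_card_le L)
    rintro ⟨a, b, c, d⟩ ht
    obtain ⟨e, f, hef, hne', h1, h2⟩ := (Finset.mem_filter.1 ht).2
    have he : e = e0 ∨ e = f0 := by
      have : e ∈ ({e0, f0} : Finset (Edge v)) := by rw [← hP, hef]; simp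
      simpa using this
    have hf : f = e0 ∨ f = f0 := by
      have : f ∈ ({e0, f0} : Finset (Edge v)) := by rw [← hP, hef]; simp
      simpa using this
    simp only at h1 h2
    rcases he with rfl | rfl <;> rcases hf with rfl | rfl
    · exact absurd rfl hne'
    · rcases h1 with h1 | h1 <;> rcases h2 with h2 | h2 <;> simp [L, h1, h2]
    · rcases h1 with h1 | h1 <;> rcases h2 with h2 | h2 <;> simp [L, h1, h2]
    · exact absurd rfl hne'
  · have : (Finset.univ.filter fun t => QuadRel t P) = ∅ := by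
      refine Finset.filter_eq_empty_iff.2 ?_
      rintro t - ⟨e, f, h1, h2, -⟩
      exact h ⟨e, f, h1, h2⟩
    rw [this]; simp

theorem sum_tr_le (D : Drawing S v) (x : Fin v → Fin v → Fin v → Fin v → ℕ)
    (hx : ∀ a b c d, Dist4 a b c d → (x a b c d : ℕ∞) ≤ (tr D a b ∩ tr D c d).encard) :
    ((∑ a, ∑ b, ∑ c, ∑ d, if Dist4 a b c d then x a b c d else 0 : ℕ) : ℕ∞) ≤
      8 * D.crossings := by
  classical
  by_cases htop : D.crossings = ⊤
  · rw [htop]; simp
  set C : Set (Finset (Edge v) × S) := {c | c.1.card = 2 ∧ (∀ e ∈ c.1, c.2 ∈ range (D.arc e)) ∧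
    c.2 ∉ range D.pt} with hC
  have hCfin : C.Finite := Set.encard_ne_top_iff.1 htop
  have hcr : D.crossings = (hCfin.toFinset.card : ℕ∞) := hCfin.encard_eq_coe_toFinset_card
  have h1 : ∀ a b c d, (if Dist4 a b c d then x a b c d else 0) ≤
      (hCfin.toFinset.filter fun k => QuadRel (a, b, c, d) k.1).card := by
    intro a b c d
    split_ifs with h4
    · have hs : tr D a b ∩ tr D c d ⊆
          Prod.snd '' ((hCfin.toFinset.filter fun k => QuadRel (a, b, c, d) k.1 :
            Finset (Finset (Edge v) × S)) : Set (Finset (Edge v) × S)) := by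
        rintro y ⟨⟨e, he, hye⟩, ⟨f, hf, hyf⟩⟩
        obtain ⟨hab, hac, had, hbc, hbd, hcd⟩ := h4
        have hef : e ≠ f := by
          rintro rfl
          rcases he with he | he <;> rcases hf with hf | hf <;> rw [he] at hf <;>
            simp only [Prod.mk.injEq] at hf <;> tauto
        refine ⟨({e, f}, y), ?_, rfl⟩
        rw [Finset.mem_coe, Finset.mem_filter, Set.Finite.mem_toFinset]
        refine ⟨⟨Finset.card_pair hef, ?_, ?_⟩, e, f, rfl, hef, he, hf⟩
        · intro g hg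
          rcases Finset.mem_insert.1 hg with rfl | hg
          · exact hye
          · rw [Finset.mem_singleton.1 hg]; exact hyf
        · rintro ⟨w, hw⟩
          simp only at hw
          subst hw
          have h1 := D.arc_avoid e w hye
          have h2 := D.arc_avoid f w hyf
          rcases he with he | he <;> rcases hf with hf | hf <;> rw [he] at h1 <;>
            rw [hf] at h2 <;> simp only at h1 h2 <;>
            rcases h1 with rfl | rfl <;> rcases h2 with h2 | h2 <;> tauto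
      have h5 := (hx a b c d h4).trans ((Set.encard_le_encard hs).trans (Set.encard_image_le _ _))
      rw [Set.encard_coe_eq_coe_finsetCard] at h5
      exact_mod_cast h5
    · exact Nat.zero_le _
  have h2 : (∑ a, ∑ b, ∑ c, ∑ d, if Dist4 a b c d then x a b c d else 0 : ℕ) ≤
      8 * hCfin.toFinset.card := by
    calc (∑ a, ∑ b, ∑ c, ∑ d, if Dist4 a b c d then x a b c d else 0 : ℕ)
        ≤ ∑ a, ∑ b, ∑ c, ∑ d,
            (hCfin.toFinset.filter fun k => QuadRel (a, b, c, d) k.1).card := by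
          gcongr with a _ b _ c _ d _
          exact h1 a b c d
      _ = ∑ t : Fin v × Fin v × Fin v × Fin v,
            (hCfin.toFinset.filter fun k => QuadRel t k.1).card := by
          simp only [Fintype.sum_prod_type]
      _ = ∑ k ∈ hCfin.toFinset, (Finset.univ.filter fun t => QuadRel t k.1).card := by
          simp only [Finset.card_filter]
          exact Finset.sum_comm
      _ ≤ ∑ _k ∈ hCfin.toFinset, 8 := Finset.sum_le_sum fun k _ => quadRel_card k.1
      _ = 8 * hCfin.toFinset.card := by simp [mul_comm]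
  rw [hcr]
  exact_mod_cast h2

end Pool.Agent.MP_d7736f_co.LB

end
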